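import Pool.Agent.Lib.MP_b685ef_ag.ZO.Defs

/-!
# MP_b685ef_ag, zero-one law, module ENV

Finitely many polynomial functions of a continuous representation lie in a finite-dimensional
space of continuous functions which is stable under left translations.
-/

open Topology

namespace MPb685ZO

namespace ENV

variable {Γ : Type*} [Group Γ] {K : Type*} [Field K] {V : Type*}
    [AddCommGroup V] [Module K V]

/-- left translation, as an algebra map of the functions `Γ → K`. -/
def L (K : Type*) [Field K] {Γ : Type*} [Group Γ] (x : Γ) : (Γ → K) →ₐ[K] (Γ → K) where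
  toFun f := fun y => f (x * y)
  map_one' := rfl
  map_mul' _ _ := rfl
  map_zero' := rfl
  map_add' _ _ := rfl
  commutes' _ := rfl

@[simp] theorem L_apply (x : Γ) (f : Γ → K) (y : Γ) : L K x f y = f (x * y) := rfl

/-- the matrix coefficient. -/
def mc (ρ : Representation K Γ V) (φ : Module.Dual K V) (v : V) : Γ → K := fun g => φ (ρ g v)

/-- the span of `1` and of the matrix coefficients of a basis. -/
def M (ρ : Representation K Γ V) {ι : Type*} (b : Module.Basis ι K V) : Submodule K (Γ → K) :=
  Submodule.span K (insert 1 (Set.range fun p : ι × ι => mc ρ (b.coord p.1) (b p.2)))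

theorem one_mem (ρ : Representation K Γ V) {ι : Type*} (b : Module.Basis ι K V) :
    (1 : Γ → K) ∈ M ρ b := Submodule.subset_span (Set.mem_insert _ _)

theorem M_fg (ρ : Representation K Γ V) {ι : Type*} [Finite ι] (b : Module.Basis ι K V) :
    (M ρ b).FG := by
  refine Submodule.fg_span ?_
  exact (Set.finite_range _).insert _

theorem mc_mem (ρ : Representation K Γ V) {ι : Type*} [Fintype ι] (b : Module.Basis ι K V)
    (φ : Module.Dual K V) (v : V) : mc ρ φ v ∈ M ρ b := by
  classical
  have h : mc ρ φ v = ∑ i, ∑ j, (φ (b i) * b.repr v j) • mc ρ (b.coord i) (b j) := by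
    funext g
    simp only [Finset.sum_apply, Pi.smul_apply, smul_eq_mul, mc]
    have h1 : ρ g v = ∑ j, b.repr v j • ρ g (b j) := by
      conv_lhs => rw [← b.sum_repr v, map_sum]
      simp
    have h2 : ∀ u : V, φ u = ∑ i, φ (b i) * b.coord i u := by
      intro u
      conv_lhs => rw [← b.sum_repr u, map_sum]
      refine Finset.sum_congr rfl fun i _ => ?_
      simp [mul_comm]
    rw [h2 (ρ g v)]
    refine Finset.sum_congr rfl fun i _ => ?_
    rw [h1, map_sum, Finset.mul_sum]
    refine Finset.sum_congr rfl fun j _ => ?_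
    rw [map_smul, smul_eq_mul]
    ring
  rw [h]
  refine Submodule.sum_mem _ fun i _ => Submodule.sum_mem _ fun j _ => Submodule.smul_mem _ _ ?_
  exact Submodule.subset_span (Set.mem_insert_of_mem _ ⟨(i, j), rfl⟩)

theorem L_M (ρ : Representation K Γ V) {ι : Type*} [Fintype ι] (b : Module.Basis ι K V) (x : Γ) :
    (M ρ b).map (L K x).toLinearMap ≤ M ρ b := by
  rw [M, Submodule.map_span, Submodule.span_le]
  rintro _ ⟨f, hf, rfl⟩
  rcases hf with rfl | ⟨p, rfl⟩
  · have : (L K x).toLinearMap (1 : Γ → K) = 1 := map_one (L K x)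
    rw [this]
    exact one_mem ρ b
  · have : (L K x).toLinearMap (mc ρ (b.coord p.1) (b p.2))
        = mc ρ ((b.coord p.1).comp (ρ x)) (b p.2) := by
      funext y
      simp [mc]
    simp only
    rw [this]
    exact mc_mem ρ b _ _

theorem L_pow (ρ : Representation K Γ V) {ι : Type*} [Fintype ι] (b : Module.Basis ι K V) (x : Γ)
    (d : ℕ) : ((M ρ b) ^ d).map (L K x).toLinearMap ≤ (M ρ b) ^ d := by
  rw [Submodule.map_pow]
  exact pow_le_pow_left' (L_M ρ b x) d

theorem cont_M [TopologicalSpace Γ] [TopologicalSpace K] [IsTopologicalRing K]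
    (ρ : Representation K Γ V)
    (hc : ∀ (v : V) (f : Module.Dual K V), Continuous fun g => f (ρ g v))
    {ι : Type*} (b : Module.Basis ι K V) : ∀ f ∈ M ρ b, Continuous f := by
  intro f hf
  induction hf using Submodule.span_induction with
  | mem x hx =>
    rcases hx with rfl | ⟨p, rfl⟩
    · exact continuous_const
    · exact hc _ _
  | zero => exact continuous_const
  | add x y _ _ hx hy => exact hx.add hy
  | smul a x _ hx => exact hx.const_smul a

theorem cont_pow [TopologicalSpace Γ] [TopologicalSpace K] [IsTopologicalRing K]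
    (ρ : Representation K Γ V)
    (hc : ∀ (v : V) (f : Module.Dual K V), Continuous fun g => f (ρ g v))
    {ι : Type*} (b : Module.Basis ι K V) (d : ℕ) : ∀ f ∈ (M ρ b) ^ d, Continuous f := by
  induction d with
  | zero =>
    intro f hf
    rw [pow_zero, Submodule.mem_one] at hf
    obtain ⟨c, rfl⟩ := hf
    exact continuous_const
  | succ d ih =>
    intro f hf
    rw [pow_succ] at hf
    induction hf using Submodule.mul_induction_on' with
    | mem_mul_mem m hm n hn => exact (ih m hm).mul (cont_M ρ hc b n hn)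
    | add x _ y _ hx hy => exact hx.add hy

theorem adjoin_mem (ρ : Representation K Γ V) {ι : Type*} [Fintype ι] (b : Module.Basis ι K V)
    (f : Γ → K)
    (hf : f ∈ (Algebra.adjoin K {f : Γ → K | ∃ (v : V) (φ : Module.Dual K V),
      f = fun g => φ (ρ g v)} : Subalgebra K (Γ → K))) :
    ∃ d : ℕ, f ∈ (M ρ b) ^ d := by
  have h1 : (1 : Submodule K (Γ → K)) ≤ M ρ b := by
    rw [Submodule.one_le]
    exact one_mem ρ b
  have hmono : ∀ {d e : ℕ}, d ≤ e → (M ρ b) ^ d ≤ (M ρ b) ^ e := fun h =>
    pow_le_pow_right' h1 h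
  induction hf using Algebra.adjoin_induction with
  | mem x hx =>
    obtain ⟨v, φ, rfl⟩ := hx
    exact ⟨1, by rw [pow_one]; exact mc_mem ρ b φ v⟩
  | algebraMap r =>
    exact ⟨0, by rw [pow_zero, Submodule.mem_one]; exact ⟨r, rfl⟩⟩
  | add x y _ _ hx hy =>
    obtain ⟨d, hd⟩ := hx
    obtain ⟨e, he⟩ := hy
    exact ⟨max d e, Submodule.add_mem _ (hmono (le_max_left d e) hd)
      (hmono (le_max_right d e) he)⟩
  | mul x y _ _ hx hy =>
    obtain ⟨d, hd⟩ := hx
    obtain ⟨e, he⟩ := hy
    exact ⟨d + e, by rw [pow_add]; exact Submodule.mul_mem_mul hd he⟩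

end ENV

theorem specENV {Γ : Type*} [Group Γ] [TopologicalSpace Γ] [IsTopologicalGroup Γ]
    {K : Type*} [Field K] [TopologicalSpace K] [IsTopologicalRing K] {V : Type*}
    [AddCommGroup V] [Module K V] [FiniteDimensional K V] (ρ : Representation K Γ V)
    (hc : ∀ (v : V) (f : Module.Dual K V), Continuous fun g => f (ρ g v))
    (F : Set (Γ → K)) (hF : F.Finite)
    (hFA : F ⊆ (Algebra.adjoin K {f : Γ → K | ∃ (v : V) (φ : Module.Dual K V),
      f = fun g => φ (ρ g v)} : Subalgebra K (Γ → K))) :
    ∃ E : Submodule K (Γ → K), FiniteDimensional K E ∧ (∀ f ∈ E, Continuous f) ∧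
      (∀ f ∈ E, ∀ x : Γ, (fun y => f (x * y)) ∈ E) ∧ F ⊆ E := by
  classical
  let b := Module.finBasis K V
  have h1 : (1 : Submodule K (Γ → K)) ≤ ENV.M ρ b := by
    rw [Submodule.one_le]
    exact ENV.one_mem ρ b
  have hd : ∃ d : ℕ, F ⊆ ((ENV.M ρ b) ^ d : Submodule K (Γ → K)) := by
    clear hc
    revert hFA
    induction F, hF using Set.Finite.induction_on with
    | empty => intro _; exact ⟨0, Set.empty_subset _⟩
    | insert _ _ ih =>
      intro hFA
      rw [Set.insert_subset_iff] at hFA
      obtain ⟨d, hd⟩ := ih hFA.2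
      obtain ⟨e, he⟩ := ENV.adjoin_mem ρ b _ hFA.1
      refine ⟨max d e, Set.insert_subset ?_ ?_⟩
      · exact pow_le_pow_right' h1 (le_max_right d e) he
      · exact hd.trans (pow_le_pow_right' h1 (le_max_left d e))
  obtain ⟨d, hd⟩ := hd
  refine ⟨(ENV.M ρ b) ^ d, ?_, ENV.cont_pow ρ hc b d, ?_, hd⟩
  · rw [← Submodule.fg_iff_finiteDimensional]
    exact (ENV.M_fg ρ b).pow d
  · intro f hf x
    exact ENV.L_pow ρ b x d ⟨f, hf, rfl⟩

end MPb685ZO
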