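import Pool.Agent.Lib.MP_b685ef_ag.ZO.Defs

/-!
MP_b685ef_ag, zero-one law, module SSF: a representation whose restriction to `G0` is semisimple
can be replaced, on the same space and without changing the restriction to `G0` nor any
characteristic polynomial, by a semisimple representation.
-/

open Module

namespace MPb685ZO

namespace SSF

/-- characteristic polynomial of a block triangular operator. -/
lemma charpoly_tri {K : Type*} [Field K] {M N : Type*} [AddCommGroup M] [Module K M]
    [AddCommGroup N] [Module K N] [FiniteDimensional K M] [FiniteDimensional K N]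
    (f : Module.End K (M × N)) (a : Module.End K M) (d : Module.End K N)
    (ha : ∀ x : M, f (x, 0) = (a x, 0)) (hd : ∀ y : N, (f (0, y)).2 = d y) :
    f.charpoly = a.charpoly * d.charpoly := by
  classical
  let b₁ := Module.finBasis K M
  let b₂ := Module.finBasis K N
  rw [← LinearMap.charpoly_toMatrix a b₁, ← LinearMap.charpoly_toMatrix d b₂,
    ← LinearMap.charpoly_toMatrix f (b₁.prod b₂)]
  have key : LinearMap.toMatrix (b₁.prod b₂) (b₁.prod b₂) f =
      Matrix.fromBlocks (LinearMap.toMatrix b₁ b₁ a)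
        (Matrix.of fun i j => b₁.repr (f (0, b₂ j)).1 i) 0 (LinearMap.toMatrix b₂ b₂ d) := by
    ext i j
    rcases i with i | i <;> rcases j with j | j
    · simp [LinearMap.toMatrix_apply, Module.Basis.prod_apply, ha]
    · simp [LinearMap.toMatrix_apply, Module.Basis.prod_apply]
    · simp [LinearMap.toMatrix_apply, Module.Basis.prod_apply, ha]
    · simp [LinearMap.toMatrix_apply, Module.Basis.prod_apply, hd]
  rw [key, Matrix.charpoly_fromBlocks_zero₂₁]

variable {K : Type*} [Field K] {V : Type*} [AddCommGroup V] [Module K V] {G : Type*} [Group G]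

/-- the sum of two semisimple representations is semisimple. -/
lemma ss_prod (ρ : Representation K G V) (S : Set G) (W C : Submodule K V) (hWC : IsCompl W C)
    (hW : Stab ρ S W) (hC : Stab ρ S C)
    (sW : ∀ X : Submodule K V, X ≤ W → Stab ρ S X → ∃ X' : Submodule K V, X' ≤ W ∧
      Stab ρ S X' ∧ Disjoint X X' ∧ W ≤ X ⊔ X')
    (sC : ∀ X : Submodule K V, X ≤ C → Stab ρ S X → ∃ X' : Submodule K V, X' ≤ C ∧
      Stab ρ S X' ∧ Disjoint X X' ∧ C ≤ X ⊔ X') : SSOn ρ S := by
  intro X hX
  let p : V →ₗ[K] V := C.projection W hWC.symm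
  have hp1 : ∀ c ∈ C, p c = c := fun c hc => C.projection_apply_left hWC.symm ⟨c, hc⟩
  have hp2 : ∀ v, p v ∈ C := fun v => by
    show C.projection W hWC.symm v ∈ C
    rw [← Submodule.coe_projectionOnto_apply]
    exact Submodule.coe_mem _
  have hp3 : ∀ v, p v = 0 ↔ v ∈ W := fun v => by
    show C.projection W hWC.symm v = 0 ↔ v ∈ W
    rw [← Submodule.coe_projectionOnto_apply, Submodule.coe_eq_zero,
      Submodule.projectionOnto_apply_eq_zero_iff]
  have hp4 : ∀ v, v - p v ∈ W := fun v => by
    rw [← hp3, map_sub, hp1 _ (hp2 v), sub_self]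
  have hpρ : ∀ g ∈ S, ∀ v, p (ρ g v) = ρ g (p v) := by
    intro g hg v
    have h1 : v = (v - p v) + p v := by abel
    conv_lhs => rw [h1]
    rw [map_add, map_add, (hp3 _).2 (hW g hg _ (hp4 v)), zero_add,
      hp1 _ (hC g hg _ (hp2 v))]
  obtain ⟨W1, hW1, hW1s, hW1d, hW1t⟩ := sW (X ⊓ W) inf_le_right
    (fun g hg w hw => ⟨hX g hg w hw.1, hW g hg w hw.2⟩)
  obtain ⟨C1, hC1, hC1s, hC1d, hC1t⟩ := sC (X.map p) (by
      rintro _ ⟨x, _, rfl⟩
      exact hp2 x) (by
      rintro g hg _ ⟨x, hx, rfl⟩
      exact ⟨ρ g x, hX g hg x hx, hpρ g hg x⟩)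
  refine ⟨W1 ⊔ C1, ?_, ?_, ?_⟩
  · intro g hg w hw
    obtain ⟨a, ha, b, hb, rfl⟩ := Submodule.mem_sup.1 hw
    rw [map_add]
    exact Submodule.add_mem_sup (hW1s g hg a ha) (hC1s g hg b hb)
  · rw [Submodule.disjoint_def]
    intro x hx hx'
    obtain ⟨a, ha, b, hb, rfl⟩ := Submodule.mem_sup.1 hx'
    have hb' : b ∈ X.map p := ⟨a + b, hx, by
      rw [map_add, (hp3 a).2 (hW1 ha), zero_add, hp1 b (hC1 hb)]⟩
    have hb0 : b = 0 := (Submodule.disjoint_def.1 hC1d) b hb' hb
    subst hb0
    rw [add_zero] at hx ⊢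
    exact (Submodule.disjoint_def.1 hW1d) a ⟨hx, hW1 ha⟩ ha
  · rw [codisjoint_iff_le_sup]
    intro v _
    obtain ⟨_, ⟨x, hx, rfl⟩, c, hc, hxc⟩ := Submodule.mem_sup.1 (hC1t (hp2 v))
    have hw : v - x - c ∈ W := by
      rw [← hp3, map_sub, map_sub, ← hxc, hp1 c (hC1 hc)]
      abel
    obtain ⟨x', hx', w, hw', hxw⟩ := Submodule.mem_sup.1 (hW1t hw)
    have : v = (x + x') + (w + c) := by
      have h2 : v = (v - x - c) + x + c := by abel
      rw [h2, ← hxw]
      abel
    rw [this]
    exact Submodule.add_mem_sup (X.add_mem hx hx'.1) (Submodule.add_mem_sup hw' hc)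

/-- the representation on a stable subspace. -/
def resRep (ρ : Representation K G V) (W : Submodule K V) (hW : Stab ρ Set.univ W) :
    Representation K G W where
  toFun g := (ρ g).restrict (fun w hw => hW g (Set.mem_univ g) w hw)
  map_one' := by
    ext w
    simp
  map_mul' g h := by
    ext w
    simp

@[simp] lemma resRep_coe (ρ : Representation K G V) (W : Submodule K V)
    (hW : Stab ρ Set.univ W) (g : G) (w : W) : ((resRep ρ W hW g w : W) : V) = ρ g w := rfl

/-- the representation on a complement of a stable subspace. -/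
noncomputable def quoRep (ρ : Representation K G V) (W C : Submodule K V) (hWC : IsCompl W C)
    (hW : Stab ρ Set.univ W) : Representation K G C where
  toFun g := (C.projectionOnto W hWC.symm) ∘ₗ (ρ g) ∘ₗ C.subtype
  map_one' := by
    ext c
    simp
  map_mul' g h := by
    ext c
    have h1 : (C.projectionOnto W hWC.symm) (ρ g (ρ h c - (C.projectionOnto W hWC.symm) (ρ h c)))
        = 0 := by
      rw [Submodule.projectionOnto_apply_eq_zero_iff]
      refine hW g (Set.mem_univ g) _ ?_
      rw [← Submodule.projectionOnto_apply_eq_zero_iff hWC.symm, map_sub,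
        Submodule.projectionOnto_apply_left, sub_self]
    rw [map_sub, map_sub, sub_eq_zero] at h1
    simpa using congrArg (Subtype.val) h1

lemma quoRep_apply (ρ : Representation K G V) (W C : Submodule K V) (hWC : IsCompl W C)
    (hW : Stab ρ Set.univ W) (g : G) (c : C) :
    quoRep ρ W C hWC hW g c = C.projectionOnto W hWC.symm (ρ g c) := rfl

/-- transport of semisimplicity to a subspace. -/
lemma ss_sub (ρ : Representation K G V) (S : Set G) (hss : SSOn ρ S) (W : Submodule K V)
    (τ : Representation K G W) (hτ : ∀ g ∈ S, ∀ w : W, ((τ g w : W) : V) = ρ g w) :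
    SSOn τ S := by
  intro X hX
  obtain ⟨Y, hY, hc⟩ := hss (X.map W.subtype) (by
    rintro g hg _ ⟨x, hx, rfl⟩
    exact ⟨τ g x, hX g hg x hx, hτ g hg x⟩)
  refine ⟨Y.comap W.subtype, ?_, ?_, ?_⟩
  · intro g hg w hw
    show ((τ g w : W) : V) ∈ Y
    rw [hτ g hg w]
    exact hY g hg _ hw
  · rw [Submodule.disjoint_def]
    intro x hx hx'
    have := (Submodule.disjoint_def.1 hc.disjoint) (x : V) ⟨x, hx, rfl⟩ hx'
    exact_mod_cast this
  · rw [codisjoint_iff_le_sup]
    intro w _
    have hw : (w : V) ∈ X.map W.subtype ⊔ Y := by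
      rw [hc.sup_eq_top]
      trivial
    obtain ⟨_, ⟨x, hx, rfl⟩, y, hy, hxy⟩ := Submodule.mem_sup.1 hw
    have hyW : y ∈ W := by
      have : y = (w : V) - W.subtype x := by rw [← hxy]; abel
      rw [this]
      exact W.sub_mem w.2 x.2
    refine Submodule.mem_sup.2 ⟨x, hx, ⟨y, hyW⟩, hy, ?_⟩
    ext
    exact hxy

/-- transport of semisimplicity from a representation on the subspace `W`. -/
lemma ss_lift (ρ : Representation K G V) (S : Set G) (W : Submodule K V)
    (τ : Representation K G W) (hτ : ∀ g ∈ S, ∀ w : W, ((τ g w : W) : V) = ρ g w)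
    (hss : SSOn τ S) (X : Submodule K V) (hXW : X ≤ W) (hX : Stab ρ S X) :
    ∃ X' : Submodule K V, X' ≤ W ∧ Stab ρ S X' ∧ Disjoint X X' ∧ W ≤ X ⊔ X' := by
  obtain ⟨Y, hY, hc⟩ := hss (X.comap W.subtype) (by
    intro g hg w hw
    show ((τ g w : W) : V) ∈ X
    rw [hτ g hg w]
    exact hX g hg _ hw)
  refine ⟨Y.map W.subtype, ?_, ?_, ?_, ?_⟩
  · rintro _ ⟨y, _, rfl⟩
    exact y.2
  · rintro g hg _ ⟨y, hy, rfl⟩
    exact ⟨τ g y, hY g hg y hy, hτ g hg y⟩
  · rw [Submodule.disjoint_def]
    rintro _ hx ⟨y, hy, rfl⟩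
    have := (Submodule.disjoint_def.1 hc.disjoint) y hx hy
    rw [this]
    simp
  · intro w hw
    have hw' : (⟨w, hw⟩ : W) ∈ X.comap W.subtype ⊔ Y := by
      rw [hc.sup_eq_top]
      trivial
    obtain ⟨x, hx, y, hy, hxy⟩ := Submodule.mem_sup.1 hw'
    exact Submodule.mem_sup.2 ⟨x, hx, y, ⟨y, hy, rfl⟩, by
      have := congrArg Subtype.val hxy
      simpa using this⟩

/-- the main statement, for an arbitrary set `S` in place of the subgroup `G0`. -/
theorem main (S : Set G) (n : ℕ) : ∀ (V : Type _) [AddCommGroup V] [Module K V]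
    [FiniteDimensional K V] (ρ : Representation K G V), finrank K V ≤ n → SSOn ρ S →
    ∃ ρ' : Representation K G V, SSOn ρ' Set.univ ∧ (∀ g ∈ S, ρ' g = ρ g) ∧
      ∀ g, LinearMap.charpoly (ρ' g) = LinearMap.charpoly (ρ g) := by
  induction n with
  | zero =>
    intro V _ _ _ ρ hn _
    refine ⟨ρ, ?_, fun _ _ => rfl, fun _ => rfl⟩
    intro W _
    have : Subsingleton V := Module.finrank_zero_iff.1 (Nat.le_zero.1 hn)
    exact ⟨⊤, fun _ _ _ _ => trivial, by
      rw [Subsingleton.elim W ⊥]
      exact isCompl_bot_top⟩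
  | succ n ih =>
    intro V _ _ _ ρ hn hss
    by_cases hirr : ∀ W : Submodule K V, Stab ρ Set.univ W → W = ⊥ ∨ W = ⊤
    · refine ⟨ρ, ?_, fun _ _ => rfl, fun _ => rfl⟩
      intro W hW
      rcases hirr W hW with rfl | rfl
      · exact ⟨⊤, fun _ _ _ _ => trivial, isCompl_bot_top⟩
      · exact ⟨⊥, fun g _ w hw => by
          rw [Submodule.mem_bot] at hw ⊢
          rw [hw, map_zero], isCompl_top_bot⟩
    · push Not at hirr
      obtain ⟨W, hW, hWb, hWt⟩ := hirr
      obtain ⟨C, hC, hWC⟩ := hss W (fun g _ w hw => hW g (Set.mem_univ g) w hw)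
      have hfin : finrank K W + finrank K C = finrank K V :=
        Submodule.finrank_add_eq_of_isCompl hWC
      have hCb : C ≠ ⊥ := by
        rintro rfl
        exact hWt (by simpa using hWC.sup_eq_top)
      have hW0 : 0 < finrank K W := Nat.pos_of_ne_zero fun h => hWb (Submodule.finrank_eq_zero.1 h)
      have hC0 : 0 < finrank K C := Nat.pos_of_ne_zero fun h => hCb (Submodule.finrank_eq_zero.1 h)
      let τ := resRep ρ W hW
      let σ := quoRep ρ W C hWC hW
      have hσ : ∀ g ∈ S, ∀ c : C, ((σ g c : C) : V) = ρ g c := by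
        intro g hg c
        show ((C.projectionOnto W hWC.symm (ρ g c) : C) : V) = ρ g c
        rw [Submodule.projectionOnto_apply_of_mem_left hWC.symm (hC g hg c c.2)]
      obtain ⟨τ', hτ's, hτ'S, hτ'c⟩ := ih W τ (by omega)
        (ss_sub ρ S hss W τ (fun g _ w => rfl))
      obtain ⟨σ', hσ's, hσ'S, hσ'c⟩ := ih C σ (by omega) (ss_sub ρ S hss C σ hσ)
      let e : (W × C) ≃ₗ[K] V := Submodule.prodEquivOfIsCompl W C hWC
      have he : ∀ x : W × C, e x = (x.1 : V) + (x.2 : V) := fun x => rfl
      have heW : ∀ w : W, e.symm (w : V) = (w, 0) :=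
        fun w => Submodule.prodEquivOfIsCompl_symm_apply_left W C hWC w
      have heC : ∀ c : C, e.symm (c : V) = (0, c) :=
        fun c => Submodule.prodEquivOfIsCompl_symm_apply_right W C hWC c
      let ρ' : Representation K G V :=
        { toFun := fun g => e.conj ((τ' g).prodMap (σ' g))
          map_one' := by
            ext v
            simp [LinearEquiv.conj_apply]
          map_mul' := fun g h => by
            ext v
            simp [LinearEquiv.conj_apply] }
      have hρ' : ∀ g v, ρ' g v = e ((τ' g).prodMap (σ' g) (e.symm v)) := fun g v => rfl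
      have hρW : ∀ g (w : W), ρ' g (w : V) = ((τ' g w : W) : V) := by
        intro g w
        rw [hρ', heW, he]
        simp
      have hρC : ∀ g (c : C), ρ' g (c : V) = ((σ' g c : C) : V) := by
        intro g c
        rw [hρ', heC, he]
        simp
      refine ⟨ρ', ?_, ?_, ?_⟩
      · refine ss_prod ρ' Set.univ W C hWC ?_ ?_ ?_ ?_
        · intro g _ w hw
          rw [hρW g ⟨w, hw⟩]
          exact Submodule.coe_mem _
        · intro g _ c hc
          rw [hρC g ⟨c, hc⟩]
          exact Submodule.coe_mem _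
        · exact fun X hXW hX => ss_lift ρ' Set.univ W τ' (fun g _ w => (hρW g w).symm) hτ's X hXW hX
        · exact fun X hXC hX => ss_lift ρ' Set.univ C σ' (fun g _ c => (hρC g c).symm) hσ's X hXC hX
      · intro g hg
        ext v
        obtain ⟨x, rfl⟩ := e.surjective v
        rw [he, map_add, map_add, hρW, hρC, hτ'S g hg, hσ'S g hg, hσ g hg]
        rfl
      · intro g
        have h1 : (ρ' g).charpoly = (τ' g).charpoly * (σ' g).charpoly := by
          show (e.conj ((τ' g).prodMap (σ' g))).charpoly = _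
          rw [LinearEquiv.charpoly_conj, LinearMap.charpoly_prodMap]
        have h2 : (ρ g).charpoly = (τ g).charpoly * (σ g).charpoly := by
          rw [← LinearEquiv.charpoly_conj e.symm (ρ g)]
          refine charpoly_tri _ _ _ ?_ ?_
          · intro w
            show e.symm (ρ g (e (w, 0))) = (τ g w, 0)
            rw [← heW (τ g w), he]
            congr 1
            show ρ g ((w : V) + ((0 : C) : V)) = ρ g w
            rw [ZeroMemClass.coe_zero, add_zero]
          · intro c
            show (e.symm (ρ g (e (0, c)))).2 = σ g c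
            obtain ⟨x, hx⟩ := e.surjective (ρ g c)
            have h3 : σ g c = x.2 := by
              show C.projectionOnto W hWC.symm (ρ g c) = x.2
              rw [← hx, he, map_add, (Submodule.projectionOnto_apply_eq_zero_iff hWC.symm).2 x.1.2,
                zero_add, Submodule.projectionOnto_apply_left]
            rw [h3, he]
            simp only [ZeroMemClass.coe_zero, zero_add]
            rw [← hx, e.symm_apply_apply]
        rw [h1, h2, hτ'c, hσ'c]

end SSF

theorem specSSF {K : Type*} [Field K] {V : Type*} [AddCommGroup V] [Module K V]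
    [FiniteDimensional K V] {G : Type*} [Group G] (ρ : Representation K G V)
    (G0 : Subgroup G) [G0.Normal] (h0 : SSOn ρ (G0 : Set G)) :
    ∃ ρ' : Representation K G V, SSOn ρ' Set.univ ∧ (∀ g ∈ G0, ρ' g = ρ g) ∧
      ∀ g, LinearMap.charpoly (ρ' g) = LinearMap.charpoly (ρ g) :=
  SSF.main (G0 : Set G) (finrank K V) V ρ le_rfl h0

end MPb685ZO
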