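import Pool.Agent.Lib.MP_b685ef_ag.ZO.TA
import Pool.Agent.Lib.MP_b685ef_ag.ZO.SSF

/-!
MP_b685ef_ag, zero-one law, module JM: the unipotent parts of all generic Frobenius elements are
the powers of one unipotent operator which commutes with the whole group.
-/

open Polynomial

namespace MPb685ZO

namespace JM

section linear

variable {K : Type*} [Field K] [CharZero K] {M : Type*} [AddCommGroup M] [Module K M]
  [FiniteDimensional K M]

lemma mem_adjoin_of_jordan (T N S : Module.End K M) (hT : T = N + S) (hN : IsNilpotent N)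
    (hS : S.IsSemisimple) (hNS : Commute N S) : S ∈ Algebra.adjoin K {T} := by
  obtain ⟨n, hn, s, hs, hnn, hss, h⟩ := T.exists_isNilpotent_isSemisimple
  have hc : Commute n s := by
    have := Algebra.isMulCommutative_adjoin (R := K) (s := {T}) (by simp)
    exact congrArg Subtype.val (this.is_comm.comm (⟨n, hn⟩ : Algebra.adjoin K {T}) ⟨s, hs⟩)
  have h1 := Module.End.isNilpotent_isSemisimple_unique hN hS hnn hss hNS hc (hT.symm.trans h)
  rw [h1.2]
  exact hs

omit [CharZero K] [FiniteDimensional K M] in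
lemma adjoin_stable (T : Module.End K M) (C : Submodule K M) (hC : ∀ x ∈ C, T x ∈ C)
    (S : Module.End K M) (hS : S ∈ Algebra.adjoin K {T}) : ∀ x ∈ C, S x ∈ C := by
  induction hS using Algebra.adjoin_induction with
  | mem x hx =>
    rw [Set.mem_singleton_iff] at hx
    rw [hx]
    exact hC
  | algebraMap r =>
    intro x hx
    rw [Module.algebraMap_end_apply]
    exact C.smul_mem r hx
  | add a b _ _ ha hb =>
    intro x hx
    exact C.add_mem (ha x hx) (hb x hx)
  | mul a b _ _ ha hb =>
    intro x hx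
    exact ha _ (hb x hx)

/-- Lemma J: on a common stable subspace where two operators agree, their semisimple parts
agree. -/
theorem lemmaJ (T N S T' N' S' : Module.End K M) (hT : T = N + S) (hN : IsNilpotent N)
    (hS : S.IsSemisimple) (hNS : Commute N S) (hT' : T' = N' + S') (hN' : IsNilpotent N')
    (hS' : S'.IsSemisimple) (hNS' : Commute N' S') (C : Submodule K M)
    (hC : ∀ x ∈ C, T x ∈ C) (hTT : ∀ x ∈ C, T x = T' x) : ∀ x ∈ C, S x = S' x := by
  have hC' : ∀ x ∈ C, T' x ∈ C := fun x hx => by rw [← hTT x hx]; exact hC x hx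
  have hSC := adjoin_stable T C hC S (mem_adjoin_of_jordan T N S hT hN hS hNS)
  have hSC' := adjoin_stable T' C hC' S' (mem_adjoin_of_jordan T' N' S' hT' hN' hS' hNS')
  have hNC : ∀ x ∈ C, N x ∈ C := by
    intro x hx
    have h : N x = T x - S x := by rw [hT]; simp
    rw [h]
    exact C.sub_mem (hC x hx) (hSC x hx)
  have hNC' : ∀ x ∈ C, N' x ∈ C := by
    intro x hx
    have h : N' x = T' x - S' x := by rw [hT']; simp
    rw [h]
    exact C.sub_mem (hC' x hx) (hSC' x hx)
  have hres : ∀ (A : Module.End K M) (hA : ∀ x ∈ C, A x ∈ C), IsNilpotent A →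
      IsNilpotent (A.restrict hA) := by
    intro A hA hn
    obtain ⟨k, hk⟩ := hn
    refine ⟨k, ?_⟩
    rw [Module.End.pow_restrict k hA]
    ext x
    rw [LinearMap.restrict_apply]
    simp [hk]
  have h1 := Module.End.isNilpotent_isSemisimple_unique (hres N hNC hN)
    (Module.End.IsSemisimple.restrict (p := C) hSC hS) (hres N' hNC' hN')
    (Module.End.IsSemisimple.restrict (p := C) hSC' hS')
    (by
      ext x
      have := congrArg (fun f : Module.End K M => f x) hNS.eq
      simpa [LinearMap.restrict_apply] using this)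
    (by
      ext x
      have := congrArg (fun f : Module.End K M => f x) hNS'.eq
      simpa [LinearMap.restrict_apply] using this)
    (by
      ext x
      have h2 := hTT x x.2
      rw [hT, hT'] at h2
      simpa [LinearMap.restrict_apply] using h2)
  intro x hx
  have h3 := congrArg (fun f : Module.End K C => ((f ⟨x, hx⟩ : C) : M)) h1.2
  simpa [LinearMap.restrict_apply] using h3

end linear

section units

variable {K : Type*} [Field K] [CharZero K] {V : Type*} [AddCommGroup V] [Module K V]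
  [FiniteDimensional K V]

/-- conjugation by an invertible operator. -/
def Ad (a : (Module.End K V)ˣ) : Module.End K (Module.End K V) :=
  LinearMap.mulLeft K (a : Module.End K V) * LinearMap.mulRight K ((a⁻¹ : (Module.End K V)ˣ) :
    Module.End K V)

omit [CharZero K] [FiniteDimensional K V] in
lemma Ad_apply (a : (Module.End K V)ˣ) (x : Module.End K V) :
    Ad a x = (a : Module.End K V) * (x * ((a⁻¹ : (Module.End K V)ˣ) : Module.End K V)) := rfl

omit [CharZero K] [FiniteDimensional K V] in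
lemma Ad_mul (a b : (Module.End K V)ˣ) : Ad (a * b) = Ad a * Ad b := by
  ext x : 1
  rw [Module.End.mul_apply, Ad_apply, Ad_apply, Ad_apply, mul_inv_rev, Units.val_mul, Units.val_mul]
  noncomm_ring

omit [CharZero K] [FiniteDimensional K V] in
lemma Ad_injective (a : (Module.End K V)ˣ) {x y : Module.End K V} (h : Ad a x = Ad a y) :
    x = y := by
  rw [Ad_apply, Ad_apply] at h
  have h1 := a.isUnit.mul_left_cancel h
  exact (a⁻¹).isUnit.mul_right_cancel h1

omit [CharZero K] [FiniteDimensional K V] in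
lemma Ad_eq_self_iff (a : (Module.End K V)ˣ) (x : Module.End K V) :
    Ad a x = x ↔ Commute (a : Module.End K V) x := by
  rw [Ad_apply, ← mul_assoc]
  constructor
  · intro h
    have h1 := congrArg (fun y => y * (a : Module.End K V)) h
    simp only [mul_assoc, Units.inv_mul, mul_one] at h1
    exact h1
  · intro h
    rw [h.eq, mul_assoc, Units.mul_inv, mul_one]

lemma Ad_semisimple (a : (Module.End K V)ˣ) (ha : (a : Module.End K V).IsSemisimple) :
    (Ad a).IsSemisimple := by
  have hinv : (((a⁻¹ : (Module.End K V)ˣ) : Module.End K V)).IsSemisimple :=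
    P1G.semisimple_inv (a : Module.End K V) _ (Units.inv_mul a) ha
  exact Module.End.IsSemisimple.mul_of_commute (LinearMap.commute_mulLeft_right _ _)
    (P1G.semisimple_mulLeft _ ha) (P1G.semisimple_mulRight _ hinv)

omit [CharZero K] [FiniteDimensional K V] in
lemma inv_sub_one_nilpotent {A : Type*} [Ring A] (a : Aˣ) (ha : IsNilpotent ((a : A) - 1)) :
    IsNilpotent (((a⁻¹ : Aˣ) : A) - 1) := by
  have h : ((a⁻¹ : Aˣ) : A) - 1 = -((a⁻¹ : Aˣ) : A) * ((a : A) - 1) := by
    rw [neg_mul, mul_sub, Units.inv_mul, mul_one]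
    abel
  rw [h]
  have hc : Commute (-((a⁻¹ : Aˣ) : A)) ((a : A) - 1) := by
    apply Commute.neg_left
    apply Commute.sub_right
    · exact (Commute.refl (a : A)).units_inv_left
    · exact Commute.one_right _
  exact hc.isNilpotent_mul_left ha

omit [CharZero K] [FiniteDimensional K V] in
lemma Ad_sub_one_nilpotent (a : (Module.End K V)ˣ) (ha : IsNilpotent ((a : Module.End K V) - 1)) :
    IsNilpotent (Ad a - 1) := by
  have h1 : IsNilpotent (LinearMap.mulLeft K (a : Module.End K V) - 1) := by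
    have : LinearMap.mulLeft K (a : Module.End K V) - 1
        = LinearMap.mulLeft K ((a : Module.End K V) - 1) := by
      ext x : 1
      simp [sub_mul]
    rw [this]
    obtain ⟨k, hk⟩ := ha
    refine ⟨k, ?_⟩
    rw [LinearMap.pow_mulLeft, hk]
    ext x : 1
    simp
  have h2 : IsNilpotent (LinearMap.mulRight K ((a⁻¹ : (Module.End K V)ˣ) : Module.End K V)
      - 1) := by
    have : LinearMap.mulRight K ((a⁻¹ : (Module.End K V)ˣ) : Module.End K V) - 1
        = LinearMap.mulRight K (((a⁻¹ : (Module.End K V)ˣ) : Module.End K V) - 1) := by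
      ext x : 1
      simp [mul_sub]
    rw [this]
    obtain ⟨k, hk⟩ := inv_sub_one_nilpotent a ha
    refine ⟨k, ?_⟩
    rw [LinearMap.pow_mulRight, hk]
    ext x : 1
    simp
  have hc : Commute (LinearMap.mulLeft K (a : Module.End K V))
      (LinearMap.mulRight K ((a⁻¹ : (Module.End K V)ˣ) : Module.End K V)) :=
    LinearMap.commute_mulLeft_right _ _
  have h : Ad a - 1 = (LinearMap.mulLeft K (a : Module.End K V) - 1) *
      LinearMap.mulRight K ((a⁻¹ : (Module.End K V)ˣ) : Module.End K V) +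
      (LinearMap.mulRight K ((a⁻¹ : (Module.End K V)ˣ) : Module.End K V) - 1) := by
    rw [Ad, sub_mul, one_mul]
    abel
  rw [h]
  have hc1 : Commute (LinearMap.mulLeft K (a : Module.End K V) - 1)
      (LinearMap.mulRight K ((a⁻¹ : (Module.End K V)ˣ) : Module.End K V)) :=
    hc.sub_left (Commute.one_left _)
  apply Commute.isNilpotent_add _ (hc1.isNilpotent_mul_right h1) h2
  apply Commute.sub_right _ (Commute.one_right _)
  exact hc1.mul_left (Commute.refl _)

/-- multiplicative Jordan decomposition `a = s u` -/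
structure IsJD (a s u : (Module.End K V)ˣ) : Prop where
  eq : a = s * u
  comm : Commute s u
  ss : (s : Module.End K V).IsSemisimple
  un : IsNilpotent ((u : Module.End K V) - 1)

lemma IsJD.add {a s u : (Module.End K V)ˣ} (h : IsJD a s u) :
    (a : Module.End K V) = (s : Module.End K V) * ((u : Module.End K V) - 1) + s ∧
      IsNilpotent ((s : Module.End K V) * ((u : Module.End K V) - 1)) ∧
      Commute ((s : Module.End K V) * ((u : Module.End K V) - 1)) (s : Module.End K V) := by
  have hc : Commute (s : Module.End K V) (u : Module.End K V) := by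
    have := h.comm
    exact congrArg Units.val this
  have hc1 : Commute (s : Module.End K V) ((u : Module.End K V) - 1) :=
    hc.sub_right (Commute.one_right _)
  refine ⟨?_, hc1.isNilpotent_mul_left h.un, ?_⟩
  · rw [h.eq, Units.val_mul, mul_sub, mul_one]
    abel
  · exact (Commute.refl _).mul_left hc1.symm

lemma IsJD.unique {a s u s' u' : (Module.End K V)ˣ} (h : IsJD a s u) (h' : IsJD a s' u') :
    s = s' ∧ u = u' := by
  obtain ⟨h1, h2, h3⟩ := h.add
  obtain ⟨h1', h2', h3'⟩ := h'.add
  have h4 := Module.End.isNilpotent_isSemisimple_unique h2 h.ss h2' h'.ss h3 h3'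
    (h1.symm.trans h1')
  have h5 : s = s' := Units.ext h4.2
  refine ⟨h5, ?_⟩
  have h6 := h.eq.symm.trans h'.eq
  rw [h5] at h6
  exact mul_left_cancel h6

lemma IsJD.comm_of {a s u : (Module.End K V)ˣ} (h : IsJD a s u) {x : Module.End K V}
    (hx : Commute (a : Module.End K V) x) : Commute (u : Module.End K V) x := by
  obtain ⟨h1, h2, h3⟩ := h.add
  have hs := mem_adjoin_of_jordan _ _ _ h1 h2 h.ss h3
  have hsx : Commute (s : Module.End K V) x :=
    (Algebra.commute_of_mem_adjoin_singleton_of_commute hs hx.symm).symm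
  have h4 : u = s⁻¹ * a := by rw [h.eq, inv_mul_cancel_left]
  rw [h4, Units.val_mul]
  exact (Commute.units_inv_left hsx).mul_left hx

theorem exists_JD (a : (Module.End K V)ˣ) : ∃ s u : (Module.End K V)ˣ, IsJD a s u := by
  obtain ⟨n, hn, s, hs, hnn, hss, h⟩ := (a : Module.End K V).exists_isNilpotent_isSemisimple
  have hcomm : ∀ x ∈ Algebra.adjoin K {(a : Module.End K V)},
      ∀ y ∈ Algebra.adjoin K {(a : Module.End K V)}, Commute x y := by
    intro x hx y hy
    have := Algebra.isMulCommutative_adjoin (R := K) (s := {(a : Module.End K V)}) (by simp)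
    exact congrArg Subtype.val
      (this.is_comm.comm (⟨x, hx⟩ : Algebra.adjoin K {(a : Module.End K V)}) ⟨y, hy⟩)
  have haa : (a : Module.End K V) ∈ Algebra.adjoin K {(a : Module.End K V)} :=
    Algebra.self_mem_adjoin_singleton K _
  have hsu : IsUnit s := by
    have h1 : s = (a : Module.End K V) + (-n) := by rw [h]; abel
    rw [h1]
    exact hnn.neg.isUnit_add_left_of_commute a.isUnit (hcomm _ (Subalgebra.neg_mem _ hn) _ haa)
  obtain ⟨t, rfl⟩ := hsu
  refine ⟨t, t⁻¹ * a, ?_, ?_, hss, ?_⟩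
  · rw [mul_inv_cancel_left]
  · have hta : Commute t a := by
      have := hcomm _ hs _ haa
      exact Units.ext this
    exact (Commute.refl t).inv_right.mul_right hta
  · have h1 : ((t⁻¹ * a : (Module.End K V)ˣ) : Module.End K V) - 1
        = ((t⁻¹ : (Module.End K V)ˣ) : Module.End K V) * n := by
      rw [Units.val_mul, h, mul_add, Units.inv_mul]
      abel
    rw [h1]
    have hc : Commute ((t⁻¹ : (Module.End K V)ˣ) : Module.End K V) n :=
      Commute.units_inv_left (hcomm _ hs _ hn)
    exact hc.isNilpotent_mul_left hnn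

lemma IsJD.pow {a s u : (Module.End K V)ˣ} (h : IsJD a s u) (k : ℕ) :
    IsJD (a ^ k) (s ^ k) (u ^ k) := by
  refine ⟨?_, h.comm.pow_pow k k, ?_, ?_⟩
  · rw [h.eq, h.comm.mul_pow]
  · rw [Units.val_pow_eq_pow_val]
    exact h.ss.pow k
  · rw [Units.val_pow_eq_pow_val]
    rw [← geom_sum_mul]
    refine Commute.isNilpotent_mul_left ?_ h.un
    apply Commute.sub_right _ (Commute.one_right _)
    refine Commute.sum_left _ _ _ fun i _ => ?_
    exact (Commute.refl (u : Module.End K V)).pow_left i

lemma IsJD.conj {a s u : (Module.End K V)ˣ} (h : IsJD a s u) (b : (Module.End K V)ˣ) :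
    IsJD (b * a * b⁻¹) (b * s * b⁻¹) (b * u * b⁻¹) := by
  refine ⟨?_, ?_, ?_, ?_⟩
  · rw [h.eq]
    group
  · have h1 := h.comm.eq
    rw [Commute, SemiconjBy]
    calc b * s * b⁻¹ * (b * u * b⁻¹) = b * (s * u) * b⁻¹ := by group
      _ = b * (u * s) * b⁻¹ := by rw [h1]
      _ = _ := by group
  · refine P1G.semisimple_of_injective (((b⁻¹ : (Module.End K V)ˣ) : Module.End K V)) ?_ _
      (s : Module.End K V) ?_ h.ss
    · intro x y hxy
      have h1 := congrArg (b : Module.End K V) hxy
      rwa [← Module.End.mul_apply, ← Module.End.mul_apply, Units.mul_inv] at h1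
    · intro x
      rw [Units.val_mul, Units.val_mul, ← Module.End.mul_apply, ← mul_assoc, ← mul_assoc,
        Units.inv_mul, one_mul]
      rfl
  · have h1 : ((b * u * b⁻¹ : (Module.End K V)ˣ) : Module.End K V) - 1
        = (b : Module.End K V) * ((u : Module.End K V) - 1) *
          ((b⁻¹ : (Module.End K V)ˣ) : Module.End K V) := by
      rw [Units.val_mul, Units.val_mul, mul_sub, sub_mul, mul_one, Units.mul_inv]
    rw [h1]
    obtain ⟨k, hk⟩ := h.un
    refine ⟨k, ?_⟩
    rw [Units.conj_pow, hk, mul_zero, zero_mul]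

/-- the Jordan decomposition of `Ad a` -/
lemma IsJD.ad {a s u : (Module.End K V)ˣ} (h : IsJD a s u) :
    ∃ N : Module.End K (Module.End K V), Ad a = N + Ad s ∧ IsNilpotent N ∧ Commute N (Ad s) := by
  have hc : Commute (Ad s) (Ad u) := by
    rw [Commute, SemiconjBy, ← Ad_mul, ← Ad_mul, h.comm.eq]
  have hc1 : Commute (Ad s) (Ad u - 1) := hc.sub_right (Commute.one_right _)
  refine ⟨Ad s * (Ad u - 1), ?_, hc1.isNilpotent_mul_left (Ad_sub_one_nilpotent u h.un), ?_⟩
  · rw [h.eq, Ad_mul, mul_sub, mul_one]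
    abel
  · exact (Commute.refl _).mul_left hc1.symm

omit [CharZero K] in
lemma geom_sum_sub {A : Type*} [Ring A] (z : A) (k : ℕ) :
    ∑ i ∈ Finset.range k, z ^ i
      = (k : A) + (∑ i ∈ Finset.range k, ∑ j ∈ Finset.range i, z ^ j) * (z - 1) := by
  rw [Finset.sum_mul]
  have h : ∀ i ∈ Finset.range k, (∑ j ∈ Finset.range i, z ^ j) * (z - 1) = z ^ i - 1 :=
    fun i _ => geom_sum_mul z i
  rw [Finset.sum_congr rfl h, Finset.sum_sub_distrib, Finset.sum_const, Finset.card_range]
  simp

variable (K) in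
/-- a unipotent element of finite order is trivial. -/
lemma eq_one_of_pow {A : Type*} [Ring A] [Algebra K A] {z : A}
    (hz : IsNilpotent (z - 1)) {k : ℕ} (hk : k ≠ 0) (h : z ^ k = 1) : z = 1 := by
  have h1 := geom_sum_mul z k
  rw [h, sub_self] at h1
  have hcz : ∀ i : ℕ, Commute (z ^ i) (z - 1) := fun i =>
    ((Commute.refl z).pow_left i).sub_right (Commute.one_right _)
  have hc : Commute (∑ i ∈ Finset.range k, ∑ j ∈ Finset.range i, z ^ j) (z - 1) :=
    Commute.sum_left _ _ _ fun i _ => Commute.sum_left _ _ _ fun j _ => hcz j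
  have h2 : IsUnit (∑ i ∈ Finset.range k, z ^ i) := by
    rw [geom_sum_sub]
    have h4 : IsUnit (k : A) := by
      have : IsUnit (algebraMap K A (k : K)) :=
        (isUnit_iff_ne_zero.mpr (Nat.cast_ne_zero.mpr hk)).map _
      simpa using this
    exact (hc.isNilpotent_mul_left hz).isUnit_add_left_of_commute h4
      (Nat.cast_commute k _).symm
  rw [h2.mul_right_eq_zero, sub_eq_zero] at h1
  exact h1

variable (K) in
/-- unipotent commuting elements with the same `k`-th power are equal. -/
lemma root_inj {A : Type*} [Ring A] [Algebra K A] {a b : Aˣ} (hab : Commute a b)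
    (ha : IsNilpotent ((a : A) - 1)) (hb : IsNilpotent ((b : A) - 1)) {k : ℕ} (hk : k ≠ 0)
    (h : a ^ k = b ^ k) : a = b := by
  have hab' : Commute (a : A) (b : A) := congrArg Units.val hab.eq
  have h1 : ((a * b⁻¹ : Aˣ) : A) ^ k = 1 := by
    rw [← Units.val_pow_eq_pow_val, hab.inv_right.mul_pow, inv_pow, h, mul_inv_cancel,
      Units.val_one]
  have h2 : ((a * b⁻¹ : Aˣ) : A) - 1 = ((a : A) - 1 - ((b : A) - 1)) * ((b⁻¹ : Aˣ) : A) := by
    rw [Units.val_mul]
    simp only [sub_mul, one_mul, Units.mul_inv]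
    abel
  have h3 : IsNilpotent (((a * b⁻¹ : Aˣ) : A) - 1) := by
    rw [h2]
    have hc1 : Commute ((a : A) - 1) ((b : A) - 1) :=
      (hab'.sub_left (Commute.one_left _)).sub_right
        ((Commute.one_right _))
    have hc2 : Commute ((a : A) - 1 - ((b : A) - 1)) ((b⁻¹ : Aˣ) : A) := by
      apply Commute.units_inv_right
      exact ((hab'.sub_left (Commute.one_left _))).sub_left
        ((Commute.refl (b : A)).sub_left (Commute.one_left _))
    exact hc2.isNilpotent_mul_right (hc1.isNilpotent_sub ha hb)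
  have h4 := eq_one_of_pow K h3 hk h1
  have h5 : a * b⁻¹ = 1 := Units.ext h4
  exact mul_inv_eq_one.mp h5

variable (K) in
/-- unipotent roots of unipotent elements. -/
lemma exists_root {A : Type*} [Ring A] [Algebra K A] (u : A) (hu : IsNilpotent (u - 1)) {d : ℕ}
    (hd : d ≠ 0) : ∃ w ∈ Algebra.adjoin K {u}, IsNilpotent (w - 1) ∧ w ^ d = u := by
  set u' : Algebra.adjoin K {u} := ⟨u, Algebra.self_mem_adjoin_singleton K u⟩ with hu'
  have hnil : IsNilpotent (u' - 1) := by
    obtain ⟨k, hk⟩ := hu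
    exact ⟨k, Subtype.ext hk⟩
  have h1 : IsNilpotent (aeval (1 : Algebra.adjoin K {u})
      (X ^ d - C u' : (Algebra.adjoin K {u})[X])) := by
    have h3 : aeval (1 : Algebra.adjoin K {u}) (X ^ d - C u' : (Algebra.adjoin K {u})[X])
        = -(u' - 1) := by
      simp
    rw [h3]
    exact hnil.neg
  have h2 : IsUnit (aeval (1 : Algebra.adjoin K {u})
      (derivative (X ^ d - C u' : (Algebra.adjoin K {u})[X]))) := by
    have h3 : aeval (1 : Algebra.adjoin K {u})
        (derivative (X ^ d - C u' : (Algebra.adjoin K {u})[X])) = (d : Algebra.adjoin K {u}) := by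
      rw [derivative_sub, derivative_C, sub_zero, derivative_X_pow]
      simp
    rw [h3]
    have : IsUnit (algebraMap K (Algebra.adjoin K {u}) (d : K)) :=
      (isUnit_iff_ne_zero.mpr (Nat.cast_ne_zero.mpr hd)).map _
    simpa using this
  obtain ⟨r, ⟨hr1, hr2⟩, -⟩ := Polynomial.existsUnique_nilpotent_sub_and_aeval_eq_zero h1 h2
  refine ⟨r, r.2, ?_, ?_⟩
  · obtain ⟨k, hk⟩ := hr1.neg
    refine ⟨k, ?_⟩
    have := congrArg Subtype.val hk
    simpa using this
  · have h3 : r ^ d - u' = 0 := by simpa using hr2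
    have h4 := congrArg Subtype.val (sub_eq_zero.mp h3)
    simpa using h4

end units

section rep

variable {K : Type*} [Field K] [CharZero K] {V : Type*} [AddCommGroup V] [Module K V]
  [FiniteDimensional K V] {G : Type*} [Group G] (ρ : Representation K G V)

/-- `ρ g` as an invertible operator. -/
def rU : G →* (Module.End K V)ˣ := MonoidHom.toHomUnits ρ

omit [CharZero K] [FiniteDimensional K V] in
lemma rU_val (g : G) : ((rU ρ g : (Module.End K V)ˣ) : Module.End K V) = ρ g := rfl

omit [CharZero K] [FiniteDimensional K V] in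
lemma Ad_rho (g c : G) : Ad (rU ρ g) (ρ c) = ρ (g * c * g⁻¹) := by
  rw [Ad_apply, ← map_inv, rU_val, rU_val, ← map_mul, ← map_mul, mul_assoc]

omit [CharZero K] [FiniteDimensional K V] in
lemma Ad_comm_mem (G0 : Subgroup G) [G0.Normal] (g : G) (x : Module.End K V)
    (hx : x ∈ P1G.comm ρ G0) : Ad (rU ρ g) x ∈ P1G.comm ρ G0 := by
  have h : Ad (rU ρ g) x = P1G.conj ρ g x := by
    rw [Ad_apply, ← map_inv, rU_val, rU_val, P1G.conj_apply]
  rw [h]
  exact P1G.conj_mem ρ g hx

/-- if another representation agrees on the normal subgroup and is semisimple at `g`, then the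
unipotent part of `ρ g` commutes with the normal subgroup. -/
theorem unip_comm' (G0 : Subgroup G) [G0.Normal] (ρ' : Representation K G V)
    (hG0 : ∀ g ∈ G0, ρ' g = ρ g) (g : G) (hg' : Module.End.IsSemisimple (ρ' g))
    (s u : (Module.End K V)ˣ) (h : IsJD (rU ρ g) s u) :
    (u : Module.End K V) ∈ P1G.comm ρ G0 := by
  obtain ⟨N, hN, hNn, hNc⟩ := h.ad
  -- the span of the image of G0
  let B : Submodule K (Module.End K V) := Submodule.span K (ρ '' (G0 : Set G))
  have hB : ∀ x ∈ B, Ad (rU ρ g) x ∈ B := by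
    intro x hx
    have hle : B ≤ B.comap (Ad (rU ρ g)) := by
      refine Submodule.span_le.mpr ?_
      rintro _ ⟨c, hc, rfl⟩
      change Ad (rU ρ g) (ρ c) ∈ B
      rw [Ad_rho]
      exact Submodule.subset_span ⟨_, (inferInstance : G0.Normal).conj_mem c hc g, rfl⟩
    exact hle hx
  have hTT : ∀ x ∈ B, Ad (rU ρ g) x = Ad (rU ρ' g) x := by
    intro x hx
    have hle : B ≤ LinearMap.eqLocus (Ad (rU ρ g)) (Ad (rU ρ' g)) := by
      refine Submodule.span_le.mpr ?_
      rintro _ ⟨c, hc, rfl⟩
      change Ad (rU ρ g) (ρ c) = Ad (rU ρ' g) (ρ c)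
      rw [Ad_rho, ← hG0 c hc, Ad_rho, hG0]
      exact (inferInstance : G0.Normal).conj_mem c hc g
    exact hle hx
  have hJ := lemmaJ (Ad (rU ρ g)) N (Ad s) (Ad (rU ρ' g)) 0 (Ad (rU ρ' g)) hN hNn
    (Ad_semisimple s h.ss) hNc (zero_add _).symm ⟨1, by simp⟩ (Ad_semisimple _ hg')
    (Commute.zero_left _) B hB hTT
  intro c hc
  have hcB : ρ c ∈ B := Submodule.subset_span ⟨c, hc, rfl⟩
  have h1 : Ad s (Ad u (ρ c)) = Ad s (ρ c) := by
    rw [hJ _ hcB, ← hTT _ hcB, ← Module.End.mul_apply, ← Ad_mul, ← h.eq]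
  have h2 := Ad_injective s h1
  exact ((Ad_eq_self_iff u (ρ c)).mp h2).eq

/-- the unipotent part of a generic element commutes with the normal subgroup. -/
theorem unip_comm (G0 : Subgroup G) [G0.Normal] (h0 : SSOn ρ (G0 : Set G))
    (U : Subgroup G) [U.Normal] [U.FiniteIndex] (g : G)
    (hmax : ∀ u ∈ U, nEig (ρ (g * u)) ≤ nEig (ρ g)) (s u : (Module.End K V)ˣ)
    (h : IsJD (rU ρ g) s u) : (u : Module.End K V) ∈ P1G.comm ρ G0 := by
  obtain ⟨ρ', hss', hG0, hchar⟩ := specSSF ρ G0 h0
  have hnE : ∀ g, nEig (ρ' g) = nEig (ρ g) := fun g => by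
    unfold nEig
    rw [hchar]
  have hg' : Module.End.IsSemisimple (ρ' g) := by
    apply theoremA ρ' hss' U g
    intro u hu
    rw [hnE, hnE]
    exact hmax u hu
  exact unip_comm' ρ G0 ρ' hG0 g hg' s u h

/-- a nilpotent central element of the commutant is zero. -/
lemma central_nil (G0 : Subgroup G) (h0 : SSOn ρ (G0 : Set G)) (x : Module.End K V)
    (hx : x ∈ P1G.comm ρ G0) (hcent : ∀ y ∈ P1G.comm ρ G0, x * y = y * x)
    (hn : IsNilpotent x) : x = 0 := by
  have hker : Stab ρ (G0 : Set G) (LinearMap.ker x) := by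
    intro c hc w hw
    rw [LinearMap.mem_ker] at hw ⊢
    rw [P1G.comm_apply ρ hx hc, hw, map_zero]
  obtain ⟨W, hW, hcompl⟩ := h0 _ hker
  have hcompl' : IsCompl W (LinearMap.ker x) := hcompl.symm
  set p : Module.End K V := W.projection (LinearMap.ker x) hcompl' with hp
  have hpr : ∀ v, p v ∈ W := fun v => Submodule.projection_apply_mem hcompl' v
  have hpid : ∀ w ∈ W, p w = w := fun w hw => Submodule.projection_apply_of_mem_left hcompl' hw
  have hpker : ∀ v, p v = 0 ↔ v ∈ LinearMap.ker x := fun v =>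
    Submodule.projection_apply_eq_zero_iff hcompl'
  have hpC : p ∈ P1G.comm ρ G0 := by
    intro c hc
    ext v
    exact P1G.commute_of_stable ρ p W hpr hpid c (fun w hw => hW c hc w hw)
      (fun v hv => (hpker _).mpr (hker c hc v ((hpker v).mp hv))) v
  have hxW : ∀ w ∈ W, x w ∈ W := by
    intro w hw
    have h1 := congrArg (fun f : Module.End K V => f w) (hcent p hpC)
    simp only [Module.End.mul_apply] at h1
    rw [hpid w hw] at h1
    rw [h1]
    exact hpr _
  have hinj : ∀ w ∈ W, x w = 0 → w = 0 := by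
    intro w hw h1
    have h2 : w ∈ W ⊓ LinearMap.ker x := ⟨hw, h1⟩
    rw [hcompl'.inf_eq_bot] at h2
    exact (Submodule.mem_bot K).mp h2
  have hpow : ∀ k : ℕ, ∀ w ∈ W, (x ^ k) w = 0 → w = 0 := by
    intro k
    induction k with
    | zero => intro w _ h1; simpa using h1
    | succ k ih =>
      intro w hw h1
      rw [pow_succ, Module.End.mul_apply] at h1
      exact hinj w hw (ih _ (hxW w hw) h1)
  obtain ⟨k, hk⟩ := hn
  have hWbot : W = ⊥ := by
    rw [Submodule.eq_bot_iff]
    intro w hw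
    apply hpow k w hw
    rw [hk]
    rfl
  have htop : LinearMap.ker x = ⊤ := by
    have := hcompl'.sup_eq_top
    rwa [hWbot, bot_sup_eq] at this
  exact LinearMap.ker_eq_top.mp htop

/-- two elements of the same degree with unipotent parts in the commutant have the same
unipotent part. -/
theorem unip_eq (G0 : Subgroup G) [G0.Normal] (h0 : SSOn ρ (G0 : Set G)) (g g' : G)
    (hgg : g⁻¹ * g' ∈ G0) (s u s' u' : (Module.End K V)ˣ) (h : IsJD (rU ρ g) s u)
    (h' : IsJD (rU ρ g') s' u') (hu : (u : Module.End K V) ∈ P1G.comm ρ G0)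
    (hu' : (u' : Module.End K V) ∈ P1G.comm ρ G0) : u = u' := by
  obtain ⟨N, hN, hNn, hNc⟩ := h.ad
  obtain ⟨N', hN', hNn', hNc'⟩ := h'.ad
  have hcomm : ∀ {x : Module.End K V}, x ∈ P1G.comm ρ G0 → ∀ {c : G}, c ∈ G0 →
      Commute x (ρ c) := fun hx c hc => hx c hc
  have hTT : ∀ x ∈ P1G.comm ρ G0, Ad (rU ρ g) x = Ad (rU ρ g') x := by
    intro x hx
    have h1 : g' = g * (g⁻¹ * g') := by group
    have h2 : Ad (rU ρ (g⁻¹ * g')) x = x := by
      rw [Ad_eq_self_iff]
      exact (hcomm hx hgg).symm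
    conv_rhs => rw [h1, map_mul, Ad_mul, Module.End.mul_apply, h2]
  have hJ := lemmaJ (Ad (rU ρ g)) N (Ad s) (Ad (rU ρ g')) N' (Ad s') hN hNn
    (Ad_semisimple s h.ss) hNc hN' hNn' (Ad_semisimple s' h'.ss) hNc' (P1G.comm ρ G0)
    (fun x hx => Ad_comm_mem ρ G0 g x hx) hTT
  have hinv : ∀ {v : (Module.End K V)ˣ}, (v : Module.End K V) ∈ P1G.comm ρ G0 →
      ((v⁻¹ : (Module.End K V)ˣ) : Module.End K V) ∈ P1G.comm ρ G0 := by
    intro v hv c hc
    exact (Commute.units_inv_left (hcomm hv hc)).eq
  have hmul : ∀ {x y : Module.End K V}, x ∈ P1G.comm ρ G0 → y ∈ P1G.comm ρ G0 →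
      x * y ∈ P1G.comm ρ G0 := by
    intro x y hx hy c hc
    exact ((hcomm hx hc).mul_left (hcomm hy hc)).eq
  have hAdu' : ∀ x ∈ P1G.comm ρ G0, Ad u' x ∈ P1G.comm ρ G0 := by
    intro x hx
    rw [Ad_apply]
    exact hmul hu' (hmul hx (hinv hu'))
  -- Ad u = Ad u' on the commutant
  have hAd : ∀ x ∈ P1G.comm ρ G0, Ad u x = Ad u' x := by
    intro x hx
    have h1 := hTT x hx
    rw [h.eq, h'.eq, Ad_mul, Ad_mul, Module.End.mul_apply, Module.End.mul_apply,
      ← hJ _ (hAdu' x hx)] at h1
    exact Ad_injective s h1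
  obtain ⟨z, hz⟩ : ∃ z, z = u⁻¹ * u' := ⟨_, rfl⟩
  have hzC : (z : Module.End K V) ∈ P1G.comm ρ G0 := by
    rw [hz, Units.val_mul]
    exact hmul (hinv hu) hu'
  have hzx : ∀ x ∈ P1G.comm ρ G0, Commute (z : Module.End K V) x := by
    intro x hx
    rw [← Ad_eq_self_iff]
    apply Ad_injective u
    rw [← Module.End.mul_apply, ← Ad_mul, hz, mul_inv_cancel_left]
    exact (hAd x hx).symm
  have hu'z : u' = u * z := by rw [hz, mul_inv_cancel_left]
  have hzu : Commute (z : Module.End K V) (u : Module.End K V) := hzx _ hu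
  have huu' : Commute (u : Module.End K V) (u' : Module.End K V) := by
    rw [hu'z, Units.val_mul]
    exact (Commute.refl _).mul_right hzu.symm
  have hz1 : (z : Module.End K V) - 1 = ((u⁻¹ : (Module.End K V)ˣ) : Module.End K V) *
      (((u' : Module.End K V) - 1) - ((u : Module.End K V) - 1)) := by
    rw [hz, Units.val_mul]
    simp only [mul_sub, mul_one, Units.inv_mul]
    abel
  have hznil : IsNilpotent ((z : Module.End K V) - 1) := by
    rw [hz1]
    have hc1 : Commute ((u' : Module.End K V) - 1) ((u : Module.End K V) - 1) :=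
      (huu'.symm.sub_left (Commute.one_left _)).sub_right (Commute.one_right _)
    have hc2 : Commute ((u⁻¹ : (Module.End K V)ˣ) : Module.End K V)
        (((u' : Module.End K V) - 1) - ((u : Module.End K V) - 1)) := by
      apply Commute.units_inv_left
      exact (huu'.sub_right (Commute.one_right _)).sub_right
        ((Commute.refl _).sub_right (Commute.one_right _))
    exact hc2.isNilpotent_mul_left (hc1.isNilpotent_sub h'.un h.un)
  have hz0 : (z : Module.End K V) - 1 = 0 := by
    apply central_nil ρ G0 h0 _ _ _ hznil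
    · intro c hc
      exact ((hcomm hzC hc).sub_left (Commute.one_left _)).eq
    · intro y hy
      exact ((hzx y hy).sub_left (Commute.one_left _)).eq
  have hz2 : z = 1 := Units.ext (sub_eq_zero.mp hz0)
  rw [hu'z, hz2, mul_one]

end rep

end JM

open JM in
/-- The unipotent parts of all generic elements are powers of one unipotent operator, which
commutes with the whole group. -/
theorem specJM {K : Type*} [Field K] [CharZero K] {V : Type*} [AddCommGroup V] [Module K V]
    [FiniteDimensional K V] {G : Type*} [Group G] (ρ : Representation K G V)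
    (G0 : Subgroup G) [G0.Normal] (h0 : SSOn ρ (G0 : Set G))
    (hab : ∀ a b : G, a * b * a⁻¹ * b⁻¹ ∈ G0) {P : Type*} (Fr : P → G) (deg : P → ℕ)
    (hpos : ∀ x, deg x ≠ 0) (hdeg : ∀ x y, (Fr x ^ deg y)⁻¹ * Fr y ^ deg x ∈ G0) :
    ∃ w : Module.End K V, IsNilpotent (w - 1) ∧ (∀ g, Commute w (ρ g)) ∧
      ∀ y, (∃ (U : Subgroup G) (_ : U.Normal) (_ : U.FiniteIndex),
        ∀ u ∈ U, nEig (ρ (Fr y * u)) ≤ nEig (ρ (Fr y))) →
        ∃ s : Module.End K V, s.IsSemisimple ∧ ρ (Fr y) = s * w ^ deg y := by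
  classical
  by_cases hne : ∃ y, ∃ (U : Subgroup G) (_ : U.Normal) (_ : U.FiniteIndex),
        ∀ u ∈ U, nEig (ρ (Fr y * u)) ≤ nEig (ρ (Fr y))
  swap
  · refine ⟨1, ⟨1, by simp⟩, fun g => Commute.one_left _, fun y hy => absurd ⟨y, hy⟩ hne⟩
  obtain ⟨x, Ux, hUx, hUxf, hmaxx⟩ := hne
  obtain ⟨sx, ux, hx⟩ := exists_JD (rU ρ (Fr x))
  have huxC := unip_comm ρ G0 h0 Ux (Fr x) hmaxx sx ux hx
  -- `ux` commutes with the whole group
  have huxG : ∀ g, Commute (ux : Module.End K V) (ρ g) := by
    intro g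
    have h1 := hx.conj (rU ρ g)
    rw [← map_inv, ← map_mul, ← map_mul] at h1
    have h2 : ((rU ρ g * ux * rU ρ g⁻¹ : (Module.End K V)ˣ) : Module.End K V) ∈
        P1G.comm ρ G0 := by
      have h3 := Ad_comm_mem ρ G0 g _ huxC
      rw [Ad_apply, ← map_inv] at h3
      rw [Units.val_mul, Units.val_mul, mul_assoc]
      exact h3
    have h3 : (Fr x)⁻¹ * (g * Fr x * g⁻¹) ∈ G0 := by
      have := hab (Fr x)⁻¹ g
      simpa [mul_assoc] using this
    have h4 := unip_eq ρ G0 h0 (Fr x) (g * Fr x * g⁻¹) h3 sx ux _ _ hx h1 huxC h2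
    have h5 : Ad (rU ρ g) (ux : Module.End K V) = ux := by
      rw [Ad_apply, ← map_inv, ← mul_assoc, ← Units.val_mul, ← Units.val_mul, ← h4]
    exact ((Ad_eq_self_iff (rU ρ g) _).mp h5).symm
  obtain ⟨w, hwa, hwn, hwd⟩ := exists_root K (ux : Module.End K V) hx.un (hpos x)
  have hwcomm : ∀ y : Module.End K V, Commute (ux : Module.End K V) y → Commute w y := by
    intro y hy
    exact (Algebra.commute_of_mem_adjoin_singleton_of_commute hwa hy.symm).symm
  refine ⟨w, hwn, fun g => hwcomm _ (huxG g), ?_⟩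
  rintro y ⟨Uy, hUy, hUyf, hmaxy⟩
  obtain ⟨sy, uy, hy⟩ := exists_JD (rU ρ (Fr y))
  have huyC := unip_comm ρ G0 h0 Uy (Fr y) hmaxy sy uy hy
  have hCpow : ∀ {v : (Module.End K V)ˣ} (k : ℕ), (v : Module.End K V) ∈ P1G.comm ρ G0 →
      ((v ^ k : (Module.End K V)ˣ) : Module.End K V) ∈ P1G.comm ρ G0 := by
    intro v k hv c hc
    have : Commute (v : Module.End K V) (ρ c) := hv c hc
    rw [Units.val_pow_eq_pow_val]
    exact (this.pow_left k).eq
  have hxp := hx.pow (deg y)
  have hyp := hy.pow (deg x)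
  rw [← map_pow] at hxp hyp
  have heq : ux ^ deg y = uy ^ deg x :=
    unip_eq ρ G0 h0 _ _ (hdeg x y) _ _ _ _ hxp hyp (hCpow _ huxC) (hCpow _ huyC)
  -- `w` as a unit
  have hwu : IsUnit w := by
    have : w = 1 + (w - 1) := by abel
    rw [this]
    exact hwn.isUnit_one_add
  obtain ⟨v, rfl⟩ := hwu
  have hvx : v ^ deg x = ux := by
    apply Units.ext
    rw [Units.val_pow_eq_pow_val]
    exact hwd
  have hvy : Commute v uy := by
    have h1 : Commute (ux : Module.End K V) (uy : Module.End K V) :=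
      (hy.comm_of (huxG (Fr y)).symm).symm
    exact Units.ext (hwcomm _ h1).eq
  have hun : IsNilpotent (((v ^ deg y : (Module.End K V)ˣ) : Module.End K V) - 1) := by
    rw [Units.val_pow_eq_pow_val, ← geom_sum_mul]
    refine Commute.isNilpotent_mul_left ?_ hwn
    apply Commute.sub_right _ (Commute.one_right _)
    refine Commute.sum_left _ _ _ fun i _ => ?_
    exact (Commute.refl (v : Module.End K V)).pow_left i
  have hfin : uy = v ^ deg y := by
    apply root_inj K (hvy.symm.pow_right _) hy.un hun (hpos x)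
    rw [← heq, ← hvx, ← pow_mul, ← pow_mul, mul_comm]
  refine ⟨sy, hy.ss, ?_⟩
  have h6 := congrArg Units.val hy.eq
  rw [hfin, Units.val_mul, Units.val_pow_eq_pow_val] at h6
  exact h6

end MPb685ZO
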