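import Pool.Agent.Lib.MP_b685ef_ag.ZO.Defs

/-!
MP_b685ef_ag : the number of distinct eigenvalues and semisimplicity in terms of determinants
-/

open Polynomial

namespace MPb685ZO.RNK

section TracePow

variable {L : Type*} [Field L] [IsAlgClosed L] {n : Type*} [Fintype n] [DecidableEq n]

lemma charpoly_eq (M : Matrix n n L) :
    M.charpoly = (M.charpoly.roots.map (fun x => X - C x)).prod := by
  have h := (IsAlgClosed.splits M.charpoly).eq_prod_roots
  rwa [M.charpoly_monic.leadingCoeff, C_1, one_mul] at h

lemma card_roots (M : Matrix n n L) : Multiset.card M.charpoly.roots = Fintype.card n := by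
  rw [← M.charpoly_natDegree_eq_dim]
  exact (splits_iff_card_roots.1 (IsAlgClosed.splits M.charpoly))

lemma det_sub_scalar (M : Matrix n n L) (a : L) :
    (aeval M (X - C a)).det = (M.charpoly.roots.map (fun x => x - a)).prod := by
  have h1 : (aeval M (X - C a)) = -(Matrix.scalar n a - M) := by
    rw [map_sub, aeval_X, aeval_C, neg_sub]
    rfl
  have h2 : (Matrix.scalar n a - M).det = M.charpoly.eval a := (Matrix.eval_charpoly M a).symm
  rw [h1, Matrix.det_neg, h2]
  conv_lhs => rw [charpoly_eq M]
  rw [eval_multiset_prod, Multiset.map_map, ← card_roots M]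
  generalize M.charpoly.roots = s
  induction s using Multiset.induction with
  | empty => simp
  | cons x s ih =>
    rw [Multiset.map_cons, Multiset.map_cons, Multiset.prod_cons, Multiset.prod_cons, ← ih,
      Multiset.card_cons, pow_succ]
    simp only [Function.comp_apply, eval_sub, eval_X, eval_C]
    ring

lemma det_aeval (M : Matrix n n L) (q : L[X]) :
    (aeval M q).det = (M.charpoly.roots.map (fun x => q.eval x)).prod := by
  have key : ∀ s : Multiset L, (aeval M (s.map (fun a => X - C a)).prod).det =
      (M.charpoly.roots.map (fun x => (s.map (fun a => X - C a)).prod.eval x)).prod := by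
    intro s
    induction s using Multiset.induction with
    | empty => simp
    | cons a s ih =>
      rw [Multiset.map_cons, Multiset.prod_cons, map_mul, Matrix.det_mul, ih, det_sub_scalar,
        ← Multiset.prod_map_mul]
      simp only [eval_mul, eval_sub, eval_X, eval_C]
  have h := (IsAlgClosed.splits q).eq_prod_roots
  rw [h, map_mul, Matrix.det_mul, key, aeval_C, Matrix.algebraMap_eq_diagonal, Matrix.det_diagonal]
  simp only [eval_mul, eval_C, Multiset.prod_map_mul, Pi.algebraMap_apply, Algebra.algebraMap_self,
    RingHom.id_apply, Finset.prod_const, Finset.card_univ]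
  rw [Multiset.map_const', Multiset.prod_replicate, card_roots]

lemma charpoly_pow (M : Matrix n n L) (k : ℕ) :
    (M ^ k).charpoly = ((M.charpoly.roots.map (fun x => x ^ k)).map (fun x => X - C x)).prod := by
  refine Polynomial.funext (fun t => ?_)
  have h : Matrix.scalar n t - M ^ k = aeval M (C t - X ^ k) := by
    rw [map_sub, map_pow, aeval_X, aeval_C]
    rfl
  rw [Matrix.eval_charpoly, h, det_aeval, Multiset.map_map, eval_multiset_prod, Multiset.map_map]
  simp

lemma roots_charpoly_pow (M : Matrix n n L) (k : ℕ) :
    (M ^ k).charpoly.roots = M.charpoly.roots.map (fun x => x ^ k) := by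
  rw [charpoly_pow, roots_multiset_prod_X_sub_C]

lemma trace_pow (M : Matrix n n L) (k : ℕ) :
    (M ^ k).trace = (M.charpoly.roots.map (fun x => x ^ k)).sum := by
  rw [Matrix.trace_eq_sum_roots_charpoly, roots_charpoly_pow]

end TracePow

section Hankel

/-- the Hankel determinant of a sequence -/
def hd {R : Type*} [CommRing R] (r : ℕ) (t : ℕ → R) : R :=
  (Matrix.of fun i j : Fin r => t (i.1 + j.1)).det

variable {L : Type*} [Field L] [DecidableEq L]

lemma sum_count (s : Multiset L) (f : L → L) :
    (s.map f).sum = ∑ x ∈ s.toFinset, (s.count x : L) * f x := by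
  rw [Finset.sum_multiset_map_count]
  refine Finset.sum_congr rfl (fun x _ => ?_)
  rw [nsmul_eq_mul]

lemma hankel_eq (s : Multiset L) (r : ℕ) :
    (Matrix.of fun i j : Fin r => (s.map (fun x => x ^ (i.1 + j.1))).sum) =
      (Matrix.of fun (i : Fin r) (x : s.toFinset) => (s.count x.1 : L) * x.1 ^ i.1) *
        (Matrix.of fun (x : s.toFinset) (j : Fin r) => x.1 ^ j.1) := by
  ext i j
  rw [Matrix.mul_apply, Matrix.of_apply, sum_count, ← Finset.sum_coe_sort]
  refine Finset.sum_congr rfl (fun x _ => ?_)
  rw [Matrix.of_apply, Matrix.of_apply, pow_add, mul_assoc]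

lemma hd_eq_zero (s : Multiset L) {r : ℕ} (hr : s.toFinset.card < r) :
    hd r (fun k => (s.map (fun x => x ^ k)).sum) = 0 := by
  by_contra h
  have h1 : (Matrix.of fun i j : Fin r => (s.map (fun x => x ^ (i.1 + j.1))).sum).rank = r := by
    have := Matrix.rank_of_isUnit _ ((Matrix.isUnit_iff_isUnit_det _).2 (isUnit_iff_ne_zero.2 h))
    rwa [Fintype.card_fin] at this
  rw [hankel_eq] at h1
  have h2 := (Matrix.rank_mul_le_left
    (Matrix.of fun (i : Fin r) (x : s.toFinset) => (s.count x.1 : L) * x.1 ^ i.1)
    (Matrix.of fun (x : s.toFinset) (j : Fin r) => x.1 ^ j.1)).trans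
      (Matrix.rank_le_card_width _)
  rw [h1, Fintype.card_coe] at h2
  omega

lemma hd_ne_zero [CharZero L] (s : Multiset L) :
    hd s.toFinset.card (fun k => (s.map (fun x => x ^ k)).sum) ≠ 0 := by
  let e : Fin s.toFinset.card ≃ s.toFinset := (Finset.equivFin _).symm
  unfold hd
  rw [hankel_eq]
  have h1 : (Matrix.of fun (i : Fin s.toFinset.card) (x : s.toFinset) =>
        (s.count x.1 : L) * x.1 ^ i.1) *
        (Matrix.of fun (x : s.toFinset) (j : Fin s.toFinset.card) => x.1 ^ j.1) =
      ((Matrix.vandermonde (fun i => (e i).1)).transpose *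
        Matrix.diagonal (fun i => (s.count (e i).1 : L))) *
        Matrix.vandermonde (fun i => (e i).1) := by
    ext i j
    rw [Matrix.mul_apply, Matrix.mul_apply, ← e.sum_comp]
    refine Finset.sum_congr rfl (fun x _ => ?_)
    rw [Matrix.of_apply, Matrix.of_apply, Matrix.mul_diagonal, Matrix.transpose_apply,
      Matrix.vandermonde_apply, Matrix.vandermonde_apply]
    ring
  rw [h1, Matrix.det_mul, Matrix.det_mul, Matrix.det_transpose, Matrix.det_diagonal]
  have hv : (Matrix.vandermonde (fun i => (e i).1)).det ≠ 0 := by
    rw [Matrix.det_vandermonde_ne_zero_iff]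
    intro a b hab
    exact e.injective (Subtype.ext hab)
  refine mul_ne_zero (mul_ne_zero hv ?_) hv
  rw [Finset.prod_ne_zero_iff]
  intro i _
  rw [Nat.cast_ne_zero]
  have := (e i).2
  rw [Multiset.mem_toFinset] at this
  exact (Multiset.count_pos.2 this).ne'

end Hankel

section End

variable {K : Type*} [Field K] {V : Type*} [AddCommGroup V] [Module K V] [FiniteDimensional K V]

/-- the trace of a power -/
lemma algebraMap_trace_pow (A : Module.End K V) (k : ℕ) :
    algebraMap K (AlgebraicClosure K) (LinearMap.trace K V (A ^ k)) =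
      (((LinearMap.charpoly A).map (algebraMap K (AlgebraicClosure K))).roots.map
        (fun x => x ^ k)).sum := by
  classical
  let b := Module.finBasis K V
  let M := LinearMap.toMatrix b b A
  have h1 : LinearMap.trace K V (A ^ k) = (M ^ k).trace := by
    rw [LinearMap.trace_eq_matrix_trace K b]
    congr 1
    exact (LinearMap.toMatrix_pow b A k).symm
  have h2 : algebraMap K (AlgebraicClosure K) (M ^ k).trace =
      ((M.map (algebraMap K (AlgebraicClosure K))) ^ k).trace := by
    rw [← Matrix.map_pow]
    exact (AddMonoidHom.map_trace (algebraMap K (AlgebraicClosure K)).toAddMonoidHom (M ^ k))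
  rw [h1, h2, trace_pow, Matrix.charpoly_map]
  congr 4
  exact LinearMap.charpoly_toMatrix A b

/-- the Hankel determinant of the traces of the powers -/
noncomputable def hk (r : ℕ) (A : Module.End K V) : K := hd r (fun k => LinearMap.trace K V (A ^ k))

lemma algebraMap_hk (r : ℕ) (A : Module.End K V) :
    algebraMap K (AlgebraicClosure K) (hk r A) = hd r (fun k =>
      (((LinearMap.charpoly A).map (algebraMap K (AlgebraicClosure K))).roots.map
        (fun x => x ^ k)).sum) := by
  unfold hk hd
  rw [RingHom.map_det]
  congr 1
  ext i j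
  rw [RingHom.mapMatrix_apply, Matrix.map_apply, Matrix.of_apply, Matrix.of_apply,
    algebraMap_trace_pow]

lemma nEig_eq [DecidableEq (AlgebraicClosure K)] (A : Module.End K V) :
    nEig A = ((LinearMap.charpoly A).map (algebraMap K (AlgebraicClosure K))).roots.toFinset.card := by
  unfold nEig
  rw [Polynomial.rootSet_def, Set.ncard_coe_finset]

/-- a non-zero Hankel determinant gives distinct eigenvalues -/
theorem le_nEig {r : ℕ} {A : Module.End K V} (h : hk r A ≠ 0) : r ≤ nEig A := by
  classical
  by_contra h1
  rw [not_le, nEig_eq] at h1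
  apply h
  apply (algebraMap K (AlgebraicClosure K)).injective
  rw [algebraMap_hk, map_zero]
  exact hd_eq_zero _ h1

theorem hk_nEig_ne_zero [CharZero K] (A : Module.End K V) : hk (nEig A) A ≠ 0 := by
  classical
  intro h
  have h1 := congrArg (algebraMap K (AlgebraicClosure K)) h
  rw [algebraMap_hk, map_zero, nEig_eq] at h1
  have : CharZero (AlgebraicClosure K) := charZero_of_injective_algebraMap
    (algebraMap K (AlgebraicClosure K)).injective
  exact hd_ne_zero _ h1

/-! ### Semisimplicity -/

/-- a root of the characteristic polynomial is a root of the minimal polynomial -/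
lemma aeval_root (A : Module.End K V) {p : K[X]} (hp : aeval A p = 0) {x : AlgebraicClosure K}
    (hx : (((LinearMap.charpoly A).map (algebraMap K (AlgebraicClosure K))).IsRoot x)) :
    aeval x p = 0 := by
  classical
  let b := Module.finBasis K V
  let M := LinearMap.toMatrix b b A
  let f := algebraMap K (AlgebraicClosure K)
  let M' := M.map f
  have hM : M'.charpoly = (LinearMap.charpoly A).map f := by
    rw [← LinearMap.charpoly_toMatrix A b, Matrix.charpoly_map]
  rw [← hM] at hx
  have h1 : (Matrix.scalar _ x - M').det = 0 := by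
    rw [← Matrix.eval_charpoly]
    exact hx
  obtain ⟨v, hv, hv'⟩ := Matrix.exists_mulVec_eq_zero_iff.2 h1
  have h2 : M'.mulVec v = x • v := by
    rw [Matrix.sub_mulVec, sub_eq_zero] at hv'
    rw [← hv']
    ext i
    simp [Matrix.scalar_apply, Matrix.mulVec_diagonal]
  have h3 : ∀ q : K[X], (aeval M q).map f = aeval M' (q.map f) := by
    intro q
    have e1 : (aeval M q).map f = (f.mapMatrix) (aeval M q) := rfl
    rw [e1, Polynomial.aeval_def, Polynomial.aeval_def, Polynomial.hom_eval₂,
      Polynomial.eval₂_map]
    congr 1
    ext a i j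
    simp [Matrix.algebraMap_matrix_apply]
    split_ifs <;> simp [f]
  have h4 : aeval M p = 0 := by
    have e1 : aeval M p = LinearMap.toMatrix b b (aeval A p) := by
      have := (Polynomial.aeval_algHom_apply (LinearMap.toMatrixAlgEquiv b).toAlgHom A p)
      exact this
    rw [e1, hp, map_zero]
  have h5 : aeval M' (p.map f) = 0 := by
    rw [← h3, h4]
    exact Matrix.map_zero _ (map_zero f)
  have h6 : ∀ q : (AlgebraicClosure K)[X], (aeval M' q).mulVec v = (q.eval x) • v := by
    intro q
    induction q using Polynomial.induction_on' with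
    | add q r hq hr => rw [map_add, Matrix.add_mulVec, hq, hr, eval_add, add_smul]
    | monomial k a =>
      have e1 : (M' ^ k).mulVec v = x ^ k • v := by
        induction k with
        | zero => simp
        | succ k ih => rw [pow_succ, ← Matrix.mulVec_mulVec, h2, Matrix.mulVec_smul, ih, smul_smul,
            pow_succ, mul_comm]
      rw [aeval_monomial, eval_monomial, ← Matrix.mulVec_mulVec, e1, Matrix.mulVec_smul,
        Matrix.algebraMap_eq_diagonal]
      ext i
      simp [Matrix.mulVec_diagonal]
      ring
  have h7 := h6 (p.map f)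
  rw [h5, Matrix.zero_mulVec] at h7
  have h8 : (p.map f).eval x = 0 := by
    by_contra h
    exact hv ((smul_eq_zero.1 h7.symm).resolve_left h)
  rwa [eval_map_algebraMap] at h8

lemma rootSet_minpoly (A : Module.End K V) :
    (minpoly K A).rootSet (AlgebraicClosure K) =
      (LinearMap.charpoly A).rootSet (AlgebraicClosure K) := by
  have hm : minpoly K A ≠ 0 := minpoly.ne_zero (Algebra.IsIntegral.isIntegral A)
  have hc : LinearMap.charpoly A ≠ 0 := (LinearMap.charpoly_monic A).ne_zero
  ext x
  rw [mem_rootSet_of_ne hm, mem_rootSet_of_ne hc]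
  constructor
  · intro h
    obtain ⟨q, hq⟩ := LinearMap.minpoly_dvd_charpoly A
    rw [hq, map_mul, h, zero_mul]
  · intro h
    refine aeval_root A (minpoly.aeval K A) ?_
    rw [IsRoot, eval_map_algebraMap]
    exact h

theorem semisimple_iff [CharZero K] (A : Module.End K V) :
    A.IsSemisimple ↔ (minpoly K A).natDegree ≤ nEig A := by
  have hm : minpoly K A ≠ 0 := minpoly.ne_zero (Algebra.IsIntegral.isIntegral A)
  have hs : ((minpoly K A).map (algebraMap K (AlgebraicClosure K))).Splits :=
    IsAlgClosed.splits _
  have hn : nEig A = Fintype.card ((minpoly K A).rootSet (AlgebraicClosure K)) := by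
    unfold nEig
    rw [← rootSet_minpoly, ← Nat.card_eq_fintype_card]
    rfl
  constructor
  · intro h
    have h1 : (minpoly K A).Separable := PerfectField.separable_iff_squarefree.2 h.minpoly_squarefree
    rw [hn, Polynomial.card_rootSet_eq_natDegree h1 hs]
  · intro h
    rw [hn] at h
    have h1 : (minpoly K A).Separable := by
      rw [← Polynomial.card_rootSet_eq_natDegree_iff_of_splits hm hs]
      refine le_antisymm ?_ h
      rw [← Nat.card_eq_fintype_card]
      exact Polynomial.ncard_rootSet_le _ _
    exact Module.End.isSemisimple_of_squarefree_aeval_eq_zero h1.squarefree (minpoly.aeval K A)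

end End

end MPb685ZO.RNK
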