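import Pool.Agent.Lib.MP_b685ef_ag.ZO.Defs2

section
/-!
MP_b685ef_ag, zero-one law : a stable set of nilpotent operators with zero trace form is zero
-/
open Polynomial

namespace MPb685ZO

attribute [local instance 100] LieRing.ofAssociativeRing

section Eng

variable {K : Type*} [Field K] {V : Type*} [AddCommGroup V] [Module K V]
  [FiniteDimensional K V]

/-- Engel -/
lemma LIE.engel (B : Submodule K (Module.End K V))
    (hB : ∀ x ∈ B, ∀ y ∈ B, x * y - y * x ∈ B) (hnil : ∀ x ∈ B, IsNilpotent x)
    (W : Submodule K V) (hW : ∀ x ∈ B, ∀ w ∈ W, x w ∈ W) (hne : W ≠ ⊥) :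
    ∃ w ∈ W, w ≠ 0 ∧ ∀ x ∈ B, x w = 0 := by
  let D : LieSubalgebra K (Module.End K V) :=
    { B with lie_mem' := fun {x y} hx hy => hB x hx y hy }
  let W' : LieSubmodule K D V :=
    { W with lie_mem := fun {x m} hm => hW x.1 x.2 m hm }
  have hnt : Nontrivial W' := by
    obtain ⟨w, hw, hw0⟩ := Submodule.exists_mem_ne_zero_of_ne_bot hne
    exact ⟨⟨⟨w, hw⟩, 0, fun h => hw0 (congrArg Subtype.val h)⟩⟩
  have h1 : LieModule.IsNilpotent D W' := by
    rw [LieModule.isNilpotent_iff_forall' (R := K)]
    intro x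
    obtain ⟨k, hk⟩ := hnil x.1 x.2
    refine ⟨k, ?_⟩
    ext w
    have h2 : ∀ k : ℕ, (((LieModule.toEnd K D W' x) ^ k) w : V) = (x.1 ^ k) (w : V) := by
      intro k
      induction k with
      | zero => rfl
      | succ k ih =>
        rw [pow_succ', pow_succ', Module.End.mul_apply, Module.End.mul_apply, ← ih]
        rfl
    rw [h2, hk]
    rfl
  have h3 := LieModule.nontrivial_max_triv_of_isNilpotent K D W'
  obtain ⟨⟨w, hw⟩, hw0⟩ := exists_ne (0 : LieModule.maxTrivSubmodule K D W')
  refine ⟨w.1, w.2, ?_, ?_⟩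
  · intro h
    apply hw0
    apply Subtype.ext
    apply Subtype.ext
    exact h
  · intro x hx
    rw [LieModule.mem_maxTrivSubmodule] at hw
    exact congrArg Subtype.val (hw ⟨x, hx⟩)

end Eng

section Kill

variable {K : Type*} [Field K] {V : Type*} [AddCommGroup V] [Module K V]
  [FiniteDimensional K V] {G : Type*} [Group G] (ρ : Representation K G V)

/-- a stable Lie algebra of nilpotent operators is zero -/
lemma LIE.kill (hss : SSOn ρ Set.univ) (B : Submodule K (Module.End K V))
    (hB : ∀ x ∈ B, ∀ y ∈ B, x * y - y * x ∈ B) (hnil : ∀ x ∈ B, IsNilpotent x)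
    (hconj : ∀ x ∈ B, ∀ g : G, ρ g * x * ρ g⁻¹ ∈ B)
    (hstab : ∀ x ∈ B, ∀ W : Submodule K V, Stab ρ Set.univ W → ∀ w ∈ W, x w ∈ W) :
    ∀ x ∈ B, x = 0 := by
  let V0 : Submodule K V :=
    { carrier := {v | ∀ x ∈ B, x v = 0}
      add_mem' := fun {a b} ha hb x hx => by rw [map_add, ha x hx, hb x hx, add_zero]
      zero_mem' := fun x _ => map_zero x
      smul_mem' := fun c {v} hv x hx => by rw [map_smul, hv x hx, smul_zero] }
  have hV0 : Stab ρ Set.univ V0 := by
    intro g _ v hv x hx
    have h1 := hv _ (hconj x hx g⁻¹)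
    rw [inv_inv] at h1
    have h2 : (ρ g) ((ρ g⁻¹ * x * ρ g) v) = 0 := by rw [h1, map_zero]
    rw [Module.End.mul_apply, Module.End.mul_apply, ← Module.End.mul_apply, ← map_mul,
      mul_inv_cancel, map_one, Module.End.one_apply] at h2
    exact h2
  obtain ⟨W, hW, hc⟩ := hss V0 hV0
  have hWbot : W = ⊥ := by
    by_contra hne
    obtain ⟨w, hw, hw0, hw1⟩ := LIE.engel B hB hnil W (fun x hx => hstab x hx W hW) hne
    exact hw0 ((Submodule.disjoint_def.1 hc.disjoint) w hw1 hw)
  have htop : V0 = ⊤ := by
    have := hc.sup_eq_top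
    rwa [hWbot, sup_bot_eq] at this
  intro x hx
  ext v
  have hv : v ∈ V0 := by rw [htop]; trivial
  exact hv x hx

end Kill

theorem specLIE {K : Type*} [Field K] [CharZero K] {V : Type*} [AddCommGroup V] [Module K V]
    [FiniteDimensional K V] {G : Type*} [Group G] (ρ : Representation K G V)
    (hss : SSOn ρ Set.univ) (N : Set (Module.End K V)) (hnil : ∀ x ∈ N, IsNilpotent x)
    (hconj : ∀ x ∈ N, ∀ g : G, ρ g * x * ρ g⁻¹ ∈ N)
    (hstab : ∀ x ∈ N, ∀ W : Submodule K V, Stab ρ Set.univ W → ∀ w ∈ W, x w ∈ W)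
    (hbr : ∀ x ∈ N, ∀ y ∈ Submodule.span K N, x * y - y * x ∈ Submodule.span K N)
    (htr : ∀ x ∈ N, ∀ y ∈ N, LinearMap.trace K V (x * y) = 0) : ∀ x ∈ N, x = 0 := by
  -- linear extensions of the hypotheses
  have hconj' : ∀ x ∈ Submodule.span K N, ∀ g : G, ρ g * x * ρ g⁻¹ ∈ Submodule.span K N := by
    intro x hx g
    induction hx using Submodule.span_induction with
    | mem x hx => exact Submodule.subset_span (hconj x hx g)
    | zero => rw [mul_zero, zero_mul]; exact Submodule.zero_mem _
    | add x y _ _ ihx ihy => rw [mul_add, add_mul]; exact Submodule.add_mem _ ihx ihy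
    | smul c x _ ih => rw [mul_smul_comm, smul_mul_assoc]; exact Submodule.smul_mem _ _ ih
  have hstab' : ∀ x ∈ Submodule.span K N, ∀ W : Submodule K V, Stab ρ Set.univ W →
      ∀ w ∈ W, x w ∈ W := by
    intro x hx W hW w hw
    induction hx using Submodule.span_induction with
    | mem x hx => exact hstab x hx W hW w hw
    | zero => exact Submodule.zero_mem _
    | add x y _ _ ihx ihy => exact Submodule.add_mem _ ihx ihy
    | smul c x _ ih => exact Submodule.smul_mem _ _ ih
  have hbr' : ∀ x ∈ Submodule.span K N, ∀ y ∈ Submodule.span K N,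
      x * y - y * x ∈ Submodule.span K N := by
    intro x hx y hy
    induction hx using Submodule.span_induction with
    | mem x hx => exact hbr x hx y hy
    | zero => rw [zero_mul, mul_zero, sub_zero]; exact Submodule.zero_mem _
    | add x z _ _ ihx ihz =>
      have : (x + z) * y - y * (x + z) = (x * y - y * x) + (z * y - y * z) := by noncomm_ring
      rw [this]; exact Submodule.add_mem _ ihx ihz
    | smul c x _ ih =>
      have : (c • x) * y - y * (c • x) = c • (x * y - y * x) := by
        rw [smul_mul_assoc, mul_smul_comm, smul_sub]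
      rw [this]; exact Submodule.smul_mem _ _ ih
  have htr' : ∀ x ∈ Submodule.span K N, ∀ y ∈ Submodule.span K N,
      LinearMap.trace K V (x * y) = 0 := by
    intro x hx y hy
    induction hx using Submodule.span_induction with
    | mem x hx =>
      induction hy using Submodule.span_induction with
      | mem y hy => exact htr x hx y hy
      | zero => rw [mul_zero, map_zero]
      | add y z _ _ ihy ihz => rw [mul_add, map_add, ihy, ihz, add_zero]
      | smul c y _ ih => rw [mul_smul_comm, map_smul, ih, smul_zero]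
    | zero => rw [zero_mul, map_zero]
    | add x z _ _ ihx ihz => rw [add_mul, map_add, ihx, ihz, add_zero]
    | smul c x _ ih => rw [smul_mul_assoc, map_smul, ih, smul_zero]
  -- the Lie algebra
  let u : LieSubalgebra K (Module.End K V) :=
    { Submodule.span K N with lie_mem' := fun {x y} hx hy => hbr' x hx y hy }
  have htf : LieModule.traceForm K u V = 0 := by
    ext x y
    rw [LieModule.traceForm_apply_apply]
    exact htr' x.1 x.2 y.1 y.2
  have hcart := LieModule.isNilpotent_derivedSeries_of_traceForm_eq_zero htf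
  rw [LieModule.isNilpotent_iff_forall' (R := K)] at hcart
  -- the span of the commutators
  let B : Submodule K (Module.End K V) := Submodule.span K {z | ∃ x ∈ N, ∃ y ∈ N, z = x * y - y * x}
  have hBu : ∀ z ∈ B, z ∈ Submodule.span K N := by
    intro z hz
    refine (Submodule.span_le.2 ?_) hz
    rintro z ⟨x, hx, y, hy, rfl⟩
    exact hbr x hx y (Submodule.subset_span hy)
  have hBr : ∀ x ∈ Submodule.span K N, ∀ y ∈ Submodule.span K N, x * y - y * x ∈ B := by
    intro x hx y hy
    induction hx using Submodule.span_induction with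
    | mem x hx =>
      induction hy using Submodule.span_induction with
      | mem y hy => exact Submodule.subset_span ⟨x, hx, y, hy, rfl⟩
      | zero => rw [mul_zero, zero_mul, sub_zero]; exact Submodule.zero_mem _
      | add y z _ _ ihy ihz =>
        have : x * (y + z) - (y + z) * x = (x * y - y * x) + (x * z - z * x) := by noncomm_ring
        rw [this]; exact Submodule.add_mem _ ihy ihz
      | smul c y _ ih =>
        have : x * (c • y) - (c • y) * x = c • (x * y - y * x) := by
          rw [smul_mul_assoc, mul_smul_comm, smul_sub]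
        rw [this]; exact Submodule.smul_mem _ _ ih
    | zero => rw [zero_mul, mul_zero, sub_zero]; exact Submodule.zero_mem _
    | add x z _ _ ihx ihz =>
      have : (x + z) * y - y * (x + z) = (x * y - y * x) + (z * y - y * z) := by noncomm_ring
      rw [this]; exact Submodule.add_mem _ ihx ihz
    | smul c x _ ih =>
      have : (c • x) * y - y * (c • x) = c • (x * y - y * x) := by
        rw [smul_mul_assoc, mul_smul_comm, smul_sub]
      rw [this]; exact Submodule.smul_mem _ _ ih
  have hBder : ∀ z ∈ B, ∃ w : LieAlgebra.derivedSeries K u 1, ((w : u) : Module.End K V) = z := by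
    intro z hz
    induction hz using Submodule.span_induction with
    | mem z hz =>
      obtain ⟨x, hx, y, hy, rfl⟩ := hz
      refine ⟨⟨⁅(⟨x, Submodule.subset_span hx⟩ : u), (⟨y, Submodule.subset_span hy⟩ : u)⁆, ?_⟩, rfl⟩
      rw [LieAlgebra.derivedSeries_def, LieAlgebra.derivedSeriesOfIdeal_succ,
        LieAlgebra.derivedSeriesOfIdeal_zero]
      exact LieSubmodule.lie_mem_lie (LieSubmodule.mem_top _) (LieSubmodule.mem_top _)
    | zero => exact ⟨0, rfl⟩
    | add x y _ _ ihx ihy =>
      obtain ⟨a, rfl⟩ := ihx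
      obtain ⟨b, rfl⟩ := ihy
      exact ⟨a + b, rfl⟩
    | smul c x _ ih =>
      obtain ⟨a, rfl⟩ := ih
      exact ⟨c • a, rfl⟩
  have hBnil : ∀ z ∈ B, IsNilpotent z := by
    intro z hz
    obtain ⟨w, rfl⟩ := hBder z hz
    exact hcart w
  have hB0 := LIE.kill ρ hss B (fun x hx y hy => hBr x (hBu x hx) y (hBu y hy)) hBnil (by
    intro x hx g
    induction hx using Submodule.span_induction with
    | mem z hz =>
      obtain ⟨x, hx, y, hy, rfl⟩ := hz
      have e : ρ g * (x * y - y * x) * ρ g⁻¹ = (ρ g * x * ρ g⁻¹) * (ρ g * y * ρ g⁻¹) -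
          (ρ g * y * ρ g⁻¹) * (ρ g * x * ρ g⁻¹) := by
        have hg : ρ g⁻¹ * ρ g = 1 := by rw [← map_mul, inv_mul_cancel, map_one]
        have e1 : (ρ g * x * ρ g⁻¹) * (ρ g * y * ρ g⁻¹) = ρ g * (x * y) * ρ g⁻¹ := by
          calc (ρ g * x * ρ g⁻¹) * (ρ g * y * ρ g⁻¹) = ρ g * x * (ρ g⁻¹ * ρ g) * y * ρ g⁻¹ := by
                noncomm_ring
            _ = ρ g * (x * y) * ρ g⁻¹ := by rw [hg]; noncomm_ring
        have e2 : (ρ g * y * ρ g⁻¹) * (ρ g * x * ρ g⁻¹) = ρ g * (y * x) * ρ g⁻¹ := by
          calc (ρ g * y * ρ g⁻¹) * (ρ g * x * ρ g⁻¹) = ρ g * y * (ρ g⁻¹ * ρ g) * x * ρ g⁻¹ := by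
                noncomm_ring
            _ = ρ g * (y * x) * ρ g⁻¹ := by rw [hg]; noncomm_ring
        rw [e1, e2, mul_sub, sub_mul]
      rw [e]
      exact Submodule.subset_span ⟨_, hconj x hx g, _, hconj y hy g, rfl⟩
    | zero => rw [mul_zero, zero_mul]; exact Submodule.zero_mem _
    | add x y _ _ ihx ihy => rw [mul_add, add_mul]; exact Submodule.add_mem _ ihx ihy
    | smul c x _ ih => rw [mul_smul_comm, smul_mul_assoc]; exact Submodule.smul_mem _ _ ih)
    (fun x hx => hstab' x (hBu x hx))
  -- now everything commutes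
  have hcomm : ∀ x ∈ Submodule.span K N, ∀ y ∈ Submodule.span K N, Commute x y := by
    intro x hx y hy
    exact sub_eq_zero.1 (hB0 _ (hBr x hx y hy))
  have hunil : ∀ x ∈ Submodule.span K N, IsNilpotent x := by
    intro x hx
    induction hx using Submodule.span_induction with
    | mem x hx => exact hnil x hx
    | zero => exact IsNilpotent.zero
    | add x y hx hy ihx ihy => exact (hcomm x hx y hy).isNilpotent_add ihx ihy
    | smul c x _ ih => exact ih.smul c
  intro x hx
  exact LIE.kill ρ hss (Submodule.span K N) hbr' hunil hconj' hstab' x (Submodule.subset_span hx)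

end MPb685ZO
end

section
/-!
MP_b685ef_ag, zero-one law, module HAN: the number of distinct eigenvalues and the Hankel
determinants of the traces of the powers.
-/
open Polynomial

namespace MPb685ZO

set_option linter.unusedSectionVars false

variable {L : Type*} [Field L] [IsAlgClosed L] [CharZero L] {n : Type*} [Fintype n] [DecidableEq n]

/-- every `X - x`, `x` in the multiset, divides `p`: the product divides a power of `p`. -/
theorem HAN.prod_dvd (s : Multiset L) (p : L[X]) (h : ∀ x ∈ s, p.IsRoot x) :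
    (s.map fun x => X - C x).prod ∣ p ^ Multiset.card s := by
  induction s using Multiset.induction_on with
  | empty => simp
  | cons a s ih =>
    rw [Multiset.map_cons, Multiset.prod_cons, Multiset.card_cons, pow_succ, mul_comm (p ^ _) p]
    exact mul_dvd_mul (dvd_iff_isRoot.mpr (h a (Multiset.mem_cons_self a s)))
      (ih fun x hx => h x (Multiset.mem_cons_of_mem hx))

theorem HAN.nil_of_vanish (A : Matrix n n L) (p : L[X])
    (h : ∀ x, A.charpoly.IsRoot x → p.IsRoot x) : IsNilpotent (aeval A p) := by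
  have hne : A.charpoly ≠ 0 := A.charpoly_monic.ne_zero
  have h1 : A.charpoly = (A.charpoly.roots.map fun x => X - C x).prod :=
    (IsAlgClosed.splits A.charpoly).eq_prod_roots_of_monic A.charpoly_monic
  have h2 : A.charpoly ∣ p ^ Multiset.card A.charpoly.roots := by
    conv_lhs => rw [h1]
    exact HAN.prod_dvd _ _ fun x hx => h x ((mem_roots hne).mp hx)
  obtain ⟨q, hq⟩ := h2
  refine ⟨Multiset.card A.charpoly.roots, ?_⟩
  rw [← map_pow, hq, map_mul, Matrix.aeval_self_charpoly, zero_mul]

theorem HAN.vanish_of_nil (A : Matrix n n L) (p : L[X]) (h : IsNilpotent (aeval A p)) :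
    ∀ x, A.charpoly.IsRoot x → p.IsRoot x := by
  intro x hx
  obtain ⟨k, hk⟩ := h
  rw [← map_pow] at hk
  have h1 : (Matrix.toLin' A).charpoly.IsRoot x := by rwa [Matrix.charpoly_toLin']
  have h2 : (minpoly L (Matrix.toLin' A)).IsRoot x :=
    Module.End.hasEigenvalue_iff_isRoot.mp
      ((Module.End.hasEigenvalue_iff_isRoot_charpoly _ _).mpr h1)
  rw [Matrix.minpoly_toLin'] at h2
  have h3 : (p ^ k).IsRoot x := h2.dvd (minpoly.dvd L A hk)
  rw [IsRoot.def, eval_pow] at h3
  exact eq_zero_of_pow_eq_zero h3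

theorem HAN.trace_zero (A : Matrix n n L) (h : IsNilpotent A) : A.trace = 0 :=
  (Matrix.isNilpotent_trace_of_isNilpotent h).eq_zero

/-- `nE` is the cardinality of the finset of roots. -/
theorem HAN.nE_eq [DecidableEq L] (A : Matrix n n L) : nE A = A.charpoly.roots.toFinset.card := by
  have hne : A.charpoly ≠ 0 := A.charpoly_monic.ne_zero
  have : {x : L | A.charpoly.IsRoot x} = (A.charpoly.roots.toFinset : Set L) := by
    ext x
    rw [Finset.mem_coe, Multiset.mem_toFinset]
    exact (mem_roots hne).symm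
  rw [nE, this, Set.ncard_coe_finset]

theorem HAN.det_eq_zero (A : Matrix n n L) (r : ℕ) (hr : nE A ≤ r) (P Q : Fin (r + 1) → L[X]) :
    (Matrix.of fun i j => (aeval A (P i * Q j)).trace).det = 0 := by
  classical
  have hne : A.charpoly ≠ 0 := A.charpoly_monic.ne_zero
  let f : (Fin (r + 1) → L) →ₗ[L] (A.charpoly.roots.toFinset → L) :=
    { toFun := fun c x => ∑ i, c i * (P i).eval x.1
      map_add' := by
        intro c d
        funext x
        simp [add_mul, Finset.sum_add_distrib]
      map_smul' := by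
        intro a c
        funext x
        simp [Finset.mul_sum, mul_assoc] }
  have hf : LinearMap.ker f ≠ ⊥ := by
    apply LinearMap.ker_ne_bot_of_finrank_lt
    rw [Module.finrank_fintype_fun_eq_card, Module.finrank_fintype_fun_eq_card, Fintype.card_coe,
      Fintype.card_fin, ← HAN.nE_eq]
    omega
  obtain ⟨c, hc, hc0⟩ := (Submodule.ne_bot_iff _).mp hf
  rw [LinearMap.mem_ker] at hc
  have hp : ∀ x, A.charpoly.IsRoot x → (∑ i, C (c i) * P i).IsRoot x := by
    intro x hx
    have h1 := congrFun hc ⟨x, by rw [Multiset.mem_toFinset]; exact (mem_roots hne).mpr hx⟩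
    have h2 : ∑ i, c i * (P i).eval x = 0 := h1
    rw [IsRoot.def, eval_finsetSum, ← h2]
    exact Finset.sum_congr rfl fun i _ => by rw [eval_mul, eval_C]
  apply Matrix.exists_vecMul_eq_zero_iff.mp
  refine ⟨c, hc0, ?_⟩
  funext j
  have h3 : (aeval A ((∑ i, C (c i) * P i) * Q j)).trace = 0 := by
    apply HAN.trace_zero
    apply HAN.nil_of_vanish
    intro x hx
    rw [IsRoot.def, eval_mul, (hp x hx : eval x _ = 0), zero_mul]
  have h4 : (aeval A ((∑ i, C (c i) * P i) * Q j)).trace
      = ∑ i, c i * (aeval A (P i * Q j)).trace := by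
    rw [Finset.sum_mul, map_sum, Matrix.trace_sum]
    refine Finset.sum_congr rfl fun i _ => ?_
    rw [mul_assoc, map_mul, aeval_C, ← Algebra.smul_def, Matrix.trace_smul, smul_eq_mul]
  rw [h4] at h3
  simpa [Matrix.vecMul, dotProduct] using h3

theorem HAN.hankel_ne_zero (A : Matrix n n L) :
    (Matrix.of fun i j : Fin (nE A) => (aeval A ((X : L[X]) ^ (i : ℕ) * X ^ (j : ℕ))).trace).det
      ≠ 0 := by
  classical
  have hne : A.charpoly ≠ 0 := A.charpoly_monic.ne_zero
  intro hdet
  obtain ⟨v, hv0, hv⟩ := Matrix.exists_vecMul_eq_zero_iff.mpr hdet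
  set R : Finset L := A.charpoly.roots.toFinset with hR
  have hmem : ∀ x, x ∈ R ↔ A.charpoly.IsRoot x := by
    intro x
    rw [hR, Multiset.mem_toFinset]
    exact mem_roots hne
  have hcard : nE A = R.card := HAN.nE_eq A
  set P : L[X] := ∑ i : Fin (nE A), C (v i) * X ^ (i : ℕ) with hP
  set S : L[X] := ∏ x ∈ R, (X - C x) with hS
  have hSm : S.Monic := monic_prod_of_monic _ _ fun x _ => monic_X_sub_C x
  have hSd : S.natDegree = nE A := by
    rw [hS, natDegree_prod_of_monic _ _ fun x _ => monic_X_sub_C x]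
    simp [hcard]
  have hSroot : ∀ x, A.charpoly.IsRoot x → S.IsRoot x := by
    intro x hx
    rw [IsRoot.def, hS, eval_prod]
    exact Finset.prod_eq_zero ((hmem x).mpr hx) (by simp)
  have hSnil : ∀ T : L[X], (aeval A (S * T)).trace = 0 := by
    intro T
    apply HAN.trace_zero
    apply HAN.nil_of_vanish
    intro x hx
    rw [IsRoot.def, eval_mul, (hSroot x hx : eval x _ = 0), zero_mul]
  -- the coefficients of `P`
  have hPc : ∀ i : Fin (nE A), P.coeff i = v i := by
    intro i
    rw [hP, finsetSum_coeff]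
    rw [Finset.sum_eq_single i]
    · simp
    · intro b _ hb
      rw [coeff_C_mul, coeff_X_pow, if_neg, mul_zero]
      intro h
      exact hb (Fin.ext h.symm)
    · intro h
      exact absurd (Finset.mem_univ i) h
  have hP0 : P ≠ 0 := by
    intro h
    apply hv0
    funext i
    rw [← hPc i, h]
    simp
  have hPd : P.natDegree < nE A ∨ nE A = 0 := by
    rcases Nat.eq_zero_or_pos (nE A) with h0 | h0
    · exact Or.inr h0
    · left
      have : P.degree < (nE A : ℕ) := by
        rw [hP]
        refine lt_of_le_of_lt (degree_sum_le _ _) ?_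
        rw [Finset.sup_lt_iff (by exact WithBot.bot_lt_coe _)]
        intro i _
        refine lt_of_le_of_lt (degree_C_mul_X_pow_le _ _) ?_
        exact_mod_cast i.2
      exact (natDegree_lt_iff_degree_lt hP0).mpr this
  have hPd' : P.natDegree < nE A := by
    rcases hPd with h | h
    · exact h
    · exfalso
      apply hv0
      funext i
      exact absurd i.2 (by omega)
  -- traces against `X ^ j`
  have htr : ∀ j : Fin (nE A), (aeval A (P * X ^ (j : ℕ))).trace = 0 := by
    intro j
    have h1 := congrFun hv j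
    have h2 : (aeval A (P * X ^ (j : ℕ))).trace
        = ∑ i : Fin (nE A), v i * (aeval A ((X : L[X]) ^ (i : ℕ) * X ^ (j : ℕ))).trace := by
      rw [hP, Finset.sum_mul, map_sum, Matrix.trace_sum]
      refine Finset.sum_congr rfl fun i _ => ?_
      rw [mul_assoc, map_mul, aeval_C, ← Algebra.smul_def, Matrix.trace_smul, smul_eq_mul]
    rw [h2]
    simpa [Matrix.vecMul, dotProduct] using h1
  have htrQ : ∀ Q : L[X], (aeval A (P * Q)).trace = 0 := by
    intro Q
    have h1 : P * Q = P * (Q %ₘ S) + S * (P * (Q /ₘ S)) := by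
      have := modByMonic_add_div Q S
      calc P * Q = P * (Q %ₘ S + S * (Q /ₘ S)) := by rw [this]
        _ = _ := by ring
    rw [h1, map_add, Matrix.trace_add, hSnil, add_zero]
    have hd : (Q %ₘ S).degree < (nE A : ℕ) := by
      have := degree_modByMonic_lt Q hSm
      rwa [degree_eq_natDegree hSm.ne_zero, hSd] at this
    have h2 : Q %ₘ S = ∑ i ∈ Finset.range (nE A), C ((Q %ₘ S).coeff i) * X ^ i := by
      ext k
      rw [finsetSum_coeff]
      simp only [coeff_C_mul, coeff_X_pow]
      by_cases hk : k < nE A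
      · rw [Finset.sum_eq_single k]
        · simp
        · intro b _ hb
          rw [if_neg (Ne.symm hb), mul_zero]
        · intro h
          exact absurd (Finset.mem_range.mpr hk) h
      · rw [coeff_eq_zero_of_degree_lt (lt_of_lt_of_le hd (by exact_mod_cast not_lt.mp hk))]
        symm
        apply Finset.sum_eq_zero
        intro b hb
        rw [if_neg, mul_zero]
        intro h
        rw [Finset.mem_range] at hb
        omega
    rw [h2, Finset.mul_sum, map_sum, Matrix.trace_sum]
    apply Finset.sum_eq_zero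
    intro i hi
    rw [show P * (C ((Q %ₘ S).coeff i) * X ^ i) = C ((Q %ₘ S).coeff i) * (P * X ^ i) by ring,
      map_mul, aeval_C, ← Algebra.smul_def, Matrix.trace_smul,
      htr ⟨i, Finset.mem_range.mp hi⟩, smul_zero]
  -- a root of the characteristic polynomial where `P` does not vanish
  have hex : ∃ x ∈ R, P.eval x ≠ 0 := by
    by_contra hcon
    push Not at hcon
    have h1 : R ⊆ P.roots.toFinset := by
      intro x hx
      rw [Multiset.mem_toFinset, mem_roots hP0]
      exact hcon x hx
    have h2 := Finset.card_le_card h1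
    have h3 : P.roots.toFinset.card ≤ P.natDegree :=
      le_trans (Multiset.toFinset_card_le _) (card_roots' P)
    omega
  obtain ⟨x0, hx0, hPx0⟩ := hex
  set R1 : L[X] := ∏ x ∈ R.erase x0, (X - C x) with hR1
  have hSR : S = (X - C x0) * R1 := (Finset.mul_prod_erase R _ hx0).symm
  have hR1x0 : R1.eval x0 ≠ 0 := by
    rw [hR1, eval_prod]
    refine Finset.prod_ne_zero_iff.mpr fun x hx => ?_
    rw [eval_sub, eval_X, eval_C]
    exact sub_ne_zero.mpr (Ne.symm (Finset.ne_of_mem_erase hx))
  obtain ⟨N0, hN0⟩ := HAN.nil_of_vanish A S hSroot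
  obtain ⟨N, hNpos, hN⟩ : ∃ N : ℕ, 0 < N ∧ aeval A (S ^ N) = 0 :=
    ⟨N0 + 1, Nat.succ_pos _, by rw [pow_succ, map_mul, map_pow, hN0, zero_mul]⟩
  have hcop : IsCoprime (P * R1 ^ N) ((X - C x0) ^ N) := by
    apply IsCoprime.pow_right
    apply IsCoprime.symm
    rw [(irreducible_X_sub_C x0).coprime_iff_not_dvd, dvd_iff_isRoot, IsRoot.def, eval_mul,
      eval_pow]
    exact mul_ne_zero hPx0 (pow_ne_zero _ hR1x0)
  obtain ⟨a, b, hab⟩ := hcop
  set E : Matrix n n L := aeval A (P * (a * R1 ^ N)) with hE
  have hEi : IsIdempotentElem E := by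
    have h1 : (P * (a * R1 ^ N)) * (P * (a * R1 ^ N)) - P * (a * R1 ^ N)
        = S ^ N * (-(P * a * b)) := by
      have h2 : P * (a * R1 ^ N) = 1 - b * (X - C x0) ^ N := by
        rw [← hab]; ring
      have h3 : (P * (a * R1 ^ N)) * (P * (a * R1 ^ N)) - P * (a * R1 ^ N)
          = (P * (a * R1 ^ N)) * (P * (a * R1 ^ N) - 1) := by ring
      have h4 : P * (a * R1 ^ N) - 1 = - (b * (X - C x0) ^ N) := by rw [h2]; ring
      rw [h3, h4, hSR, mul_pow]
      ring
    have h5 : E * E - E = 0 := by
      rw [hE, ← map_mul, ← map_sub, h1, map_mul, hN, zero_mul]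
    exact sub_eq_zero.mp h5
  have hE0 : E = 0 := by
    have h1 : IsIdempotentElem (Matrix.toLin' E) := by
      rw [IsIdempotentElem, Module.End.mul_eq_comp, ← Matrix.toLin'_mul, hEi.eq]
    have h2 : LinearMap.trace L (n → L) (Matrix.toLin' E) = 0 := by
      rw [Matrix.trace_toLin'_eq]
      exact htrQ _
    have h3 := LinearMap.IsIdempotentElem.eq_zero_of_trace_eq_zero h1 h2
    exact (Matrix.toLin').map_eq_zero_iff.mp h3
  have hroot : (P * (a * R1 ^ N)).IsRoot x0 :=
    HAN.vanish_of_nil A _ (by rw [← hE, hE0]; exact IsNilpotent.zero) x0 ((hmem x0).mp hx0)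
  have hEv : (P * (a * R1 ^ N)).eval x0 = 1 := by
    have h2 : P * (a * R1 ^ N) = 1 - b * (X - C x0) ^ N := by
      rw [← hab]; ring
    rw [h2]
    simp [hNpos.ne']
  rw [IsRoot.def, hEv] at hroot
  exact one_ne_zero hroot

end MPb685ZO
end
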