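import Pool.Agent.Lib.MP_b685ef_ag.ZO.HAN

/-!
MP_b685ef_ag, zero-one law, module ORT: first order vanishing of the Hankel determinants gives
`tr (p(A) Y) = 0` for every polynomial `p` with `p(A)` nilpotent.
-/

open Polynomial

namespace MPb685ZO
namespace ORT

variable {L : Type*} [Field L] {n : Type*} [Fintype n] [DecidableEq n]

/-- constant coefficients of a matrix of polynomials -/
noncomputable def E0 : Matrix n n L[X] →+* Matrix n n L := (constantCoeff (R := L)).mapMatrix

/-- coefficients of degree one of a matrix of polynomials -/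
noncomputable def E1 (M : Matrix n n L[X]) : Matrix n n L := M.map (fun x => x.coeff 1)

theorem E0_apply (M : Matrix n n L[X]) (i j : n) : E0 M i j = (M i j).coeff 0 := rfl

theorem E1_apply (M : Matrix n n L[X]) (i j : n) : E1 M i j = (M i j).coeff 1 := rfl

theorem E1_add (M N : Matrix n n L[X]) : E1 (M + N) = E1 M + E1 N := by
  ext i j
  simp [E1_apply]

theorem E1_mul (M N : Matrix n n L[X]) : E1 (M * N) = E0 M * E1 N + E1 M * E0 N := by
  ext i j
  rw [Matrix.add_apply, Matrix.mul_apply, Matrix.mul_apply, E1_apply, Matrix.mul_apply,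
    finsetSum_coeff, ← Finset.sum_add_distrib]
  refine Finset.sum_congr rfl fun k _ => ?_
  rw [mul_coeff_one, E0_apply, E1_apply, E0_apply, E1_apply]

theorem E1_one : E1 (1 : Matrix n n L[X]) = 0 := by
  ext i j
  rw [E1_apply, Matrix.one_apply]
  split_ifs <;> simp [coeff_one]

theorem E1_smul (a : L) (M : Matrix n n L[X]) : E1 (a • M) = a • E1 M := by
  ext i j
  simp [E1_apply]

theorem coeff0_trace (M : Matrix n n L[X]) : M.trace.coeff 0 = (E0 M).trace := by
  simp [Matrix.trace, finsetSum_coeff, E0_apply]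

theorem coeff1_trace (M : Matrix n n L[X]) : M.trace.coeff 1 = (E1 M).trace := by
  simp [Matrix.trace, finsetSum_coeff, E1_apply]

theorem E0_aeval (B : Matrix n n L[X]) (p : L[X]) : E0 (aeval B p) = aeval (E0 B) p := by
  induction p using Polynomial.induction_on' with
  | add p q hp hq => rw [map_add, map_add, hp, hq, map_add]
  | monomial k a =>
    rw [← C_mul_X_pow_eq_monomial]
    simp only [map_mul, map_pow, aeval_X, aeval_C]
    congr 1
    ext i j
    rw [E0_apply, Matrix.algebraMap_matrix_apply, Matrix.algebraMap_matrix_apply]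
    split_ifs <;> simp

theorem trace_pow (A Y : Matrix n n L) (B : Matrix n n L[X]) (h0 : E0 B = A)
    (h1 : E1 B = A * Y) (k j : ℕ) :
    (E1 (B ^ (k + 1)) * A ^ j).trace = ((k : L) + 1) * (A ^ (k + j) * (A * Y)).trace := by
  induction k generalizing j with
  | zero =>
    rw [zero_add, pow_one, h1, Matrix.trace_mul_comm]
    simp
  | succ k ih =>
    rw [pow_succ, E1_mul, h0, h1, map_pow, h0, add_mul, Matrix.trace_add, mul_assoc (E1 _), ← pow_succ',
      ih, mul_assoc, Matrix.trace_mul_comm, mul_assoc, Matrix.trace_mul_comm (A * Y), ← pow_add]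
    push_cast
    rw [show j + (k + 1) = k + 1 + j by ring, show k + (j + 1) = k + 1 + j by ring]
    ring

theorem coeff1_aeval (A Y : Matrix n n L) (B : Matrix n n L[X]) (h0 : E0 B = A)
    (h1 : E1 B = A * Y) (p : L[X]) :
    (aeval B p).trace.coeff 1 = (aeval A (derivative p) * (A * Y)).trace := by
  induction p using Polynomial.induction_on' with
  | add p q hp hq =>
    rw [map_add, Matrix.trace_add, coeff_add, hp, hq, derivative_add, map_add, add_mul,
      Matrix.trace_add]
  | monomial k a =>
    rw [derivative_monomial, aeval_monomial, aeval_monomial, coeff1_trace]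
    rcases k with _ | k
    · have : E1 ((algebraMap L (Matrix n n L[X])) a * B ^ 0) = 0 := by
        rw [pow_zero, mul_one, Algebra.algebraMap_eq_smul_one, E1_smul, E1_one, smul_zero]
      rw [this]
      simp
    · have h2 : E1 ((algebraMap L (Matrix n n L[X])) a * B ^ (k + 1)) = a • E1 (B ^ (k + 1)) := by
        rw [← Algebra.smul_def, E1_smul]
      have h3 := trace_pow A Y B h0 h1 k 0
      rw [pow_zero, mul_one, add_zero] at h3
      rw [h2, Matrix.trace_smul, h3, ← Algebra.smul_def, Matrix.smul_mul, Matrix.trace_smul]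
      simp only [smul_eq_mul, Nat.add_sub_cancel]
      push_cast
      ring

section main

variable [IsAlgClosed L] [CharZero L]

/-- the eigenvalues of `A` -/
noncomputable def eigs (A : Matrix n n L) : Finset L := by
  classical exact A.charpoly.roots.toFinset

theorem mem_eigs (A : Matrix n n L) (x : L) : x ∈ eigs A ↔ A.charpoly.IsRoot x := by
  classical
  rw [eigs, Multiset.mem_toFinset, mem_roots (Matrix.charpoly_monic A).ne_zero]

/-- the product of the `X - x`, `x` an eigenvalue of `A` -/
noncomputable def S (A : Matrix n n L) : L[X] := ∏ x ∈ eigs A, (X - C x)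

theorem S_root (A : Matrix n n L) (x : L) (hx : A.charpoly.IsRoot x) : (S A).IsRoot x := by
  have h : X - C x ∣ S A := Finset.dvd_prod_of_mem _ ((mem_eigs A x).mpr hx)
  exact dvd_iff_isRoot.mp h

theorem S_sep (A : Matrix n n L) : (S A).Separable :=
  (separable_prod_X_sub_C_iff' (f := fun x : L => x)).mpr (fun _ _ _ _ h => h)

theorem S_dvd (A : Matrix n n L) (p : L[X]) (hp : ∀ x, A.charpoly.IsRoot x → p.IsRoot x) :
    S A ∣ p := by
  apply Finset.prod_dvd_of_coprime
  · intro x _ y _ hxy
    exact pairwise_coprime_X_sub_C (s := fun x : L => x) Function.injective_id hxy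
  · intro x hx
    exact dvd_iff_isRoot.mpr (hp x ((mem_eigs A x).mp hx))

theorem S_not_dvd (A : Matrix n n L) (hA : IsUnit A) : ¬ X ∣ S A := by
  intro h
  have h0 : (S A).IsRoot 0 := by
    rw [IsRoot, ← coeff_zero_eq_eval_zero]
    exact X_dvd_iff.mp h
  rw [IsRoot, S, eval_prod, Finset.prod_eq_zero_iff] at h0
  obtain ⟨x, hx, hx0⟩ := h0
  have hx0' : x = 0 := by simpa using hx0
  rw [mem_eigs, hx0', IsRoot, ← coeff_zero_eq_eval_zero] at hx
  have hdet := Matrix.det_eq_sign_charpoly_coeff A
  rw [hx, mul_zero] at hdet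
  exact ((Matrix.isUnit_iff_isUnit_det A).mp hA).ne_zero hdet

theorem coprime_aux (A : Matrix n n L) (hA : IsUnit A) :
    IsCoprime (derivative (S A) * X) (S A) := by
  apply IsCoprime.mul_left
  · exact (S_sep A).symm
  · exact (irreducible_X.coprime_iff_not_dvd).mpr (S_not_dvd A hA)

/-- first order vanishing -/
theorem first_order (A Y : Matrix n n L) (B : Matrix n n L[X]) (h0 : E0 B = A)
    (h1 : E1 B = A * Y)
    (hdet : ∀ P Q : Fin (nE A + 1) → L[X],
      (Matrix.of fun i j => (aeval B (P i * Q j)).trace).det = 0) (h : L[X]) :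
    (aeval A (derivative (S A ^ 2 * h)) * (A * Y)).trace = 0 := by
  have hk := HAN.hankel_ne_zero A
  have hd := hdet (Fin.cons (S A) (fun i => X ^ (i : ℕ)))
    (Fin.cons (S A * h) (fun j => X ^ (j : ℕ)))
  have hc0 : ∀ p : L[X], (aeval B p).trace.coeff 0 = (aeval A p).trace := by
    intro p
    rw [coeff0_trace, E0_aeval, h0]
  have hz : ∀ p : L[X], S A ∣ p → (aeval B p).trace.coeff 0 = 0 := by
    intro p hp
    rw [hc0]
    apply HAN.trace_zero
    apply HAN.nil_of_vanish
    intro x hx
    exact dvd_iff_isRoot.mp ((dvd_iff_isRoot.mpr (S_root A x hx)).trans hp)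
  generalize nE A = r at hk hd
  rw [Matrix.det_succ_row_zero] at hd
  have hd1 := congrArg (fun q : L[X] => q.coeff 1) hd
  simp only [finsetSum_coeff, coeff_zero] at hd1
  rw [Fin.sum_univ_succ] at hd1
  have hrest : ∀ j : Fin r, ((-1 : L[X]) ^ ((j.succ : Fin (r + 1)) : ℕ) *
      (Matrix.of fun i j => (aeval B ((Fin.cons (S A) (fun i => X ^ (i : ℕ)) :
        Fin (r + 1) → L[X]) i * (Fin.cons (S A * h) (fun j => X ^ (j : ℕ)) :
        Fin (r + 1) → L[X]) j)).trace) 0 j.succ *
      ((Matrix.of fun i j => (aeval B ((Fin.cons (S A) (fun i => X ^ (i : ℕ)) :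
        Fin (r + 1) → L[X]) i * (Fin.cons (S A * h) (fun j => X ^ (j : ℕ)) :
        Fin (r + 1) → L[X]) j)).trace).submatrix Fin.succ (j.succ).succAbove).det).coeff 1 = 0 := by
    intro j
    rw [mul_coeff_one, mul_coeff_zero]
    have e1 : ((Matrix.of fun i j => (aeval B ((Fin.cons (S A) (fun i => X ^ (i : ℕ)) :
        Fin (r + 1) → L[X]) i * (Fin.cons (S A * h) (fun j => X ^ (j : ℕ)) :
        Fin (r + 1) → L[X]) j)).trace) 0 j.succ).coeff 0 = 0 := by
      rw [Matrix.of_apply]
      apply hz
      rw [Fin.cons_zero]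
      exact dvd_mul_right _ _
    have e2 : (((Matrix.of fun i j => (aeval B ((Fin.cons (S A) (fun i => X ^ (i : ℕ)) :
        Fin (r + 1) → L[X]) i * (Fin.cons (S A * h) (fun j => X ^ (j : ℕ)) :
        Fin (r + 1) → L[X]) j)).trace).submatrix Fin.succ
          (j.succ).succAbove).det).coeff 0 = 0 := by
      rw [← constantCoeff_apply, RingHom.map_det]
      obtain ⟨z, hz'⟩ := Fin.exists_succAbove_eq (Fin.succ_ne_zero j).symm
      apply Matrix.det_eq_zero_of_column_eq_zero z
      intro i
      rw [RingHom.mapMatrix_apply, Matrix.map_apply, Matrix.submatrix_apply, hz',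
        constantCoeff_apply, Matrix.of_apply]
      apply hz
      rw [Fin.cons_zero]
      exact (dvd_mul_right _ _).trans (dvd_mul_left _ _)
    rw [e1, e2]
    ring
  rw [Finset.sum_eq_zero (fun j _ => hrest j), add_zero, mul_coeff_one] at hd1
  have e3 : ((Matrix.of fun i j => (aeval B ((Fin.cons (S A) (fun i => X ^ (i : ℕ)) :
        Fin (r + 1) → L[X]) i * (Fin.cons (S A * h) (fun j => X ^ (j : ℕ)) :
        Fin (r + 1) → L[X]) j)).trace) 0 0) = (aeval B (S A ^ 2 * h)).trace := by
    rw [Matrix.of_apply, Fin.cons_zero, Fin.cons_zero]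
    congr 2
    ring
  have e4 : (((Matrix.of fun i j => (aeval B ((Fin.cons (S A) (fun i => X ^ (i : ℕ)) :
        Fin (r + 1) → L[X]) i * (Fin.cons (S A * h) (fun j => X ^ (j : ℕ)) :
        Fin (r + 1) → L[X]) j)).trace).submatrix Fin.succ
          (Fin.succAbove 0)).det).coeff 0 =
      (Matrix.of fun i j : Fin r => (aeval A ((X : L[X]) ^ (i : ℕ) * X ^ (j : ℕ))).trace).det := by
    rw [← constantCoeff_apply, RingHom.map_det]
    congr 1
    ext i j
    rw [RingHom.mapMatrix_apply, Matrix.map_apply, Matrix.submatrix_apply,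
      constantCoeff_apply, Matrix.of_apply, Matrix.of_apply, Fin.zero_succAbove, Fin.cons_succ,
      Fin.cons_succ, hc0]
  have e5 : (aeval B (S A ^ 2 * h)).trace.coeff 0 = 0 := by
    apply hz
    rw [sq, mul_assoc]
    exact dvd_mul_right _ _
  rw [e3, e4] at hd1
  simp only [Fin.val_zero, pow_zero, one_mul, e5, zero_mul, zero_add] at hd1
  rw [coeff1_aeval A Y B h0 h1] at hd1
  exact (mul_eq_zero.mp hd1).resolve_right hk

end main

end ORT

theorem specORT {L : Type*} [Field L] [IsAlgClosed L] [CharZero L] {n : Type*} [Fintype n]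
    [DecidableEq n] (A Y : Matrix n n L) (hA : IsUnit A) (B : Matrix n n L[X])
    (hB0 : B.map (fun x => x.coeff 0) = A) (hB1 : B.map (fun x => x.coeff 1) = A * Y)
    (hdet : ∀ P Q : Fin (nE A + 1) → L[X],
      (Matrix.of fun i j => (aeval B (P i * Q j)).trace).det = 0)
    (p : L[X]) (hp : IsNilpotent (aeval A p)) : (aeval A p * Y).trace = 0 := by
  have hfo := ORT.first_order A Y B hB0 hB1 hdet
  obtain ⟨N, hN⟩ := HAN.nil_of_vanish A (ORT.S A) (ORT.S_root A)
  obtain ⟨a, b, hab⟩ := ORT.coprime_aux A hA
  have hadd : ∀ p q : L[X], (aeval A (p + q) * Y).trace =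
      (aeval A p * Y).trace + (aeval A q * Y).trace := by
    intro p q
    rw [map_add, add_mul, Matrix.trace_add]
  have key : ∀ m k : ℕ, 1 ≤ k → k + m = N + 1 → ∀ g : L[X],
      (aeval A (ORT.S A ^ k * g) * Y).trace = 0 := by
    intro m
    induction m with
    | zero =>
      intro k _ hkN g
      rw [add_zero] at hkN
      rw [hkN, map_mul, map_pow, pow_succ, hN]
      simp
    | succ m ih =>
      intro k hk hkN g
      have ih' := ih (k + 1) (by omega) (by omega)
      -- the polynomial `S^(k+1) g'`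
      have h2 : ∀ g' : L[X],
          (aeval A (ORT.S A ^ k * (derivative (ORT.S A) * X * g')) * Y).trace = 0 := by
        intro g'
        obtain ⟨l, rfl⟩ : ∃ l, k = l + 1 := ⟨k - 1, by omega⟩
        have h3 := hfo (ORT.S A ^ l * g')
        have h4 : aeval A (derivative (ORT.S A ^ 2 * (ORT.S A ^ l * g'))) * (A * Y) =
            aeval A (derivative (ORT.S A ^ 2 * (ORT.S A ^ l * g')) * X) * Y := by
          rw [map_mul (aeval A) (derivative (ORT.S A ^ 2 * (ORT.S A ^ l * g'))) X, aeval_X,
            mul_assoc]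
        rw [h4] at h3
        have h5 : derivative (ORT.S A ^ 2 * (ORT.S A ^ l * g')) * X =
            C ((l : L) + 2) * (ORT.S A ^ (l + 1) * (derivative (ORT.S A) * X * g')) +
              ORT.S A ^ (l + 1 + 1) * (derivative g' * X) := by
          rw [show ORT.S A ^ 2 * (ORT.S A ^ l * g') = ORT.S A ^ (l + 2) * g' by ring,
            derivative_mul, derivative_pow]
          simp only [Nat.cast_add, Nat.cast_ofNat, map_add, map_natCast, map_ofNat]
          rw [show l + 2 - 1 = l + 1 by omega]
          ring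
        rw [h5, hadd, ih', add_zero, map_mul, aeval_C, ← Algebra.smul_def, Matrix.smul_mul,
          Matrix.trace_smul, smul_eq_mul] at h3
        rcases mul_eq_zero.mp h3 with h6 | h6
        · exfalso
          have h7 : ((l + 2 : ℕ) : L) ≠ 0 := Nat.cast_ne_zero.mpr (by omega)
          apply h7
          push_cast
          exact h6
        · exact h6
      have h8 : ORT.S A ^ k * g = ORT.S A ^ k * (derivative (ORT.S A) * X * (a * g)) +
          ORT.S A ^ (k + 1) * (b * g) := by
        calc ORT.S A ^ k * g = ORT.S A ^ k * ((a * (derivative (ORT.S A) * X) +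
              b * ORT.S A) * g) := by rw [hab, one_mul]
          _ = _ := by ring
      rw [h8, hadd, h2, ih', add_zero]
  obtain ⟨q, rfl⟩ := ORT.S_dvd A p (HAN.vanish_of_nil A p hp)
  have := key N 1 le_rfl (by omega) q
  rwa [pow_one] at this

end MPb685ZO
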