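import Pool.Agent.Lib.MP_b685ef_ag.ZO.Defs
import Pool.Agent.Lib.MP_b685ef_ag.ZO.HAN
import Pool.Agent.Lib.MP_b685ef_ag.ZO.ORT

section
/-!
MP_b685ef_ag, zero-one law, module KOL: a group of unipotent operators has a common nonzero fixed
vector on every nonzero stable subspace (Kolchin).  So the hypothesis of P1H on fixed vectors
holds when the inertia group acts unipotently.
-/
open Polynomial

namespace MPb685ZO

namespace KOL

variable {K : Type*} [Field K] [CharZero K]

lemma intertwine_mem {S : Type*} [AddCommGroup S] [Module K S] (y : Module.End K S) (v : S)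
    (hv : y v = v) (p : K[X]) : aeval y p v = p.eval 1 • v := by
  have h := Module.End.aeval_apply_of_hasEigenvector (f := y) (p := p) (μ := (1 : K)) (x := v)
  by_cases h0 : v = 0
  · simp [h0]
  · exact h (Module.End.hasEigenvector_iff.mpr ⟨Module.End.mem_eigenspace_iff.mpr (by simpa using hv), h0⟩)

/-- An operator with a nonzero fixed vector has some polynomial multiple of nonzero trace. -/
lemma false_of_fixed {S : Type*} [AddCommGroup S] [Module K S] [FiniteDimensional K S]
    (y : Module.End K S) (v : S) (hv0 : v ≠ 0) (hv : y v = v)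
    (htr : ∀ q : K[X], LinearMap.trace K S (y * aeval y q) = 0) : False := by
  have hm0 : minpoly K y ≠ 0 := minpoly.ne_zero (Algebra.IsIntegral.isIntegral y)
  obtain ⟨r, hr, hndvd⟩ := Polynomial.exists_eq_pow_rootMultiplicity_mul_and_not_dvd
    (minpoly K y) hm0 1
  set n := (minpoly K y).rootMultiplicity 1 with hn
  have hroot : (minpoly K y).eval 1 = 0 := by
    have h1 := intertwine_mem y v hv (minpoly K y)
    rw [minpoly.aeval, LinearMap.zero_apply] at h1
    exact (smul_eq_zero.mp h1.symm).resolve_right hv0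
  have hnpos : 0 < n := by
    rw [hn, Polynomial.rootMultiplicity_pos hm0]
    exact hroot
  have hcop1 : IsCoprime ((X - C (1 : K)) ^ n) r :=
    IsCoprime.pow_left ((Polynomial.irreducible_X_sub_C (1 : K)).coprime_iff_not_dvd.mpr hndvd)
  have hcop2 : IsCoprime ((X - C (1 : K)) ^ n) X := by
    apply IsCoprime.pow_left
    exact ⟨-1, 1, by simp⟩
  obtain ⟨a, b, hab⟩ := hcop2.mul_right hcop1
  set p : K[X] := b * (X * r) with hp
  have hpp : aeval y (p * p) = aeval y p := by
    have h1 : p * p - p = -(b * X * a) * minpoly K y := by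
      rw [hr]
      have h2 : p - 1 = -(a * (X - C (1 : K)) ^ n) := by
        rw [hp]
        linear_combination hab
      have h3 : p * p - p = p * (p - 1) := by ring
      rw [h3, h2, hp]
      ring
    have h2 : aeval y (p * p - p) = 0 := by
      rw [h1, map_mul, minpoly.aeval, mul_zero]
    rw [map_sub, sub_eq_zero] at h2
    exact h2
  have hidem : IsIdempotentElem (aeval y p) := by
    rw [map_mul] at hpp
    exact hpp
  have htr0 : LinearMap.trace K S (aeval y p) = 0 := by
    have h1 : aeval y p = y * aeval y (b * r) := by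
      have : p = X * (b * r) := by rw [hp]; ring
      rw [this, map_mul, aeval_X]
    rw [h1]
    exact htr _
  have hzero : aeval y p = 0 := LinearMap.IsIdempotentElem.eq_zero_of_trace_eq_zero hidem htr0
  have h1 : p.eval 1 = 1 := by
    have h2 : p = 1 - a * (X - C (1 : K)) ^ n := by
      rw [hp]
      linear_combination hab
    rw [h2]
    simp [hnpos.ne']
  have h2 := intertwine_mem y v hv p
  rw [hzero, LinearMap.zero_apply, h1, one_smul] at h2
  exact hv0 h2.symm

/-- trace of a unipotent operator -/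
lemma trace_unip {S : Type*} [AddCommGroup S] [Module K S] [FiniteDimensional K S]
    (x : Module.End K S) (hx : IsNilpotent (x - 1)) :
    LinearMap.trace K S x = Module.finrank K S := by
  have h1 : LinearMap.trace K S (x - 1) = 0 :=
    (LinearMap.isNilpotent_trace_of_isNilpotent hx).eq_zero
  rw [map_sub, sub_eq_zero] at h1
  rw [h1]
  exact LinearMap.trace_one K S

/-- A minimal space: a representation by unipotent operators without proper nonzero stable
subspace is trivial. -/
lemma trivial_of_minimal {S : Type*} [AddCommGroup S] [Module K S] [FiniteDimensional K S]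
    {I : Type*} [Monoid I] (σ : I →* Module.End K S) (hσ : ∀ i, IsNilpotent (σ i - 1))
    (hmin : ∀ U : Submodule K S, (∀ i, ∀ u ∈ U, σ i u ∈ U) → U = ⊥ ∨ U = ⊤) (i : I) (v : S) :
    σ i v = v := by
  classical
  by_contra hne
  set A : Submodule K (Module.End K S) := Submodule.span K (Set.range σ) with hA
  have hmem : ∀ j, σ j ∈ A := fun j => Submodule.subset_span ⟨j, rfl⟩
  have hmul : ∀ x ∈ A, ∀ y ∈ A, x * y ∈ A := by
    intro x hx y hy
    induction hx using Submodule.span_induction with
    | mem x hx =>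
      obtain ⟨j, rfl⟩ := hx
      induction hy using Submodule.span_induction with
      | mem y hy =>
        obtain ⟨k, rfl⟩ := hy
        rw [← map_mul]
        exact hmem _
      | zero => rw [mul_zero]; exact A.zero_mem
      | add a b _ _ ha hb => rw [mul_add]; exact A.add_mem ha hb
      | smul c a _ ha => rw [mul_smul_comm]; exact A.smul_mem c ha
    | zero => rw [zero_mul]; exact A.zero_mem
    | add a b _ _ ha hb => rw [add_mul]; exact A.add_mem ha hb
    | smul c a _ ha => rw [smul_mul_assoc]; exact A.smul_mem c ha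
  have hone : (1 : Module.End K S) ∈ A := by
    rw [← map_one σ]; exact hmem 1
  have htr : ∀ j : I, ∀ b ∈ A, LinearMap.trace K S ((σ j - 1) * b) = 0 := by
    intro j b hb
    induction hb using Submodule.span_induction with
    | mem b hb =>
      obtain ⟨k, rfl⟩ := hb
      rw [sub_mul, one_mul, ← map_mul, map_sub, trace_unip _ (hσ _), trace_unip _ (hσ _), sub_self]
    | zero => rw [mul_zero, map_zero]
    | add a b _ _ ha hb => rw [mul_add, map_add, ha, hb, add_zero]
    | smul c a _ ha => rw [mul_smul_comm, map_smul, ha, smul_zero]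
  set u : S := (σ i - 1) v with hu
  have hu0 : u ≠ 0 := by
    rw [hu, LinearMap.sub_apply, Module.End.one_apply]
    exact sub_ne_zero.mpr hne
  -- the orbit of u
  let U : Submodule K S := A.map (LinearMap.applyₗ u)
  have hUmem : ∀ x, x ∈ U ↔ ∃ a ∈ A, a u = x := by
    intro x
    simp only [U, Submodule.mem_map, LinearMap.applyₗ_apply_apply]
  have hUst : ∀ j, ∀ x ∈ U, σ j x ∈ U := by
    intro j x hx
    rw [hUmem] at hx ⊢
    obtain ⟨a, ha, rfl⟩ := hx
    exact ⟨σ j * a, hmul _ (hmem j) _ ha, rfl⟩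
  have huU : u ∈ U := by
    rw [hUmem]
    exact ⟨1, hone, rfl⟩
  rcases hmin U hUst with hbot | htop
  · rw [hbot, Submodule.mem_bot] at huU
    exact hu0 huU
  · have hvU : v ∈ U := by rw [htop]; trivial
    rw [hUmem] at hvU
    obtain ⟨a, ha, hav⟩ := hvU
    have hv0 : v ≠ 0 := by
      intro h
      apply hne
      rw [h, map_zero]
    have hyA : a * (σ i - 1) ∈ A := hmul _ ha _ (A.sub_mem (hmem i) hone)
    refine false_of_fixed (a * (σ i - 1)) v hv0 ?_ ?_
    · rw [Module.End.mul_apply, ← hu, hav]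
    · intro q
      have hqA : aeval (a * (σ i - 1)) q ∈ A := by
        induction q using Polynomial.induction_on' with
        | add p q hp hq => rw [map_add]; exact A.add_mem hp hq
        | monomial n c =>
          rw [Polynomial.aeval_monomial, ← Algebra.smul_def]
          refine A.smul_mem c ?_
          induction n with
          | zero => rw [pow_zero]; exact hone
          | succ n ih => rw [pow_succ]; exact hmul _ ih _ hyA
      rw [mul_assoc, LinearMap.trace_mul_comm, mul_assoc]
      exact htr i _ (hmul _ hqA _ ha)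

end KOL

/-- **Kolchin.** -/
theorem specKOL {K : Type*} [Field K] [CharZero K] {V : Type*} [AddCommGroup V] [Module K V]
    [FiniteDimensional K V] {G : Type*} [Group G] (ρ : Representation K G V) (I : Subgroup G)
    (hI : ∀ i ∈ I, IsNilpotent (ρ i - 1)) (W : Submodule K V) (hW : Stab ρ (I : Set G) W)
    (hne : W ≠ ⊥) : ∃ w ∈ W, w ≠ 0 ∧ ∀ i ∈ I, ρ i w = w := by
  classical
  -- a minimal nonzero stable subspace
  obtain ⟨S, ⟨hS1, hS2, hS3⟩, hSmin⟩ := wellFounded_lt.has_min
    {S : Submodule K V | S ≤ W ∧ Stab ρ (I : Set G) S ∧ S ≠ ⊥} ⟨W, le_refl W, hW, hne⟩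
  obtain ⟨s, hs, hs0⟩ := Submodule.exists_mem_ne_zero_of_ne_bot hS3
  let σ : I →* Module.End K S :=
    { toFun := fun i => (ρ i).restrict (fun w hw => hS2 i i.2 w hw)
      map_one' := by
        ext w
        simp [LinearMap.restrict_apply]
      map_mul' := by
        intro i j
        ext w
        simp [LinearMap.restrict_apply] }
  have hσ : ∀ (i : I) (w : S), ((σ i w : S) : V) = ρ i w := fun i w => rfl
  have hnil : ∀ i, IsNilpotent (σ i - 1) := by
    intro i
    obtain ⟨n, hn⟩ := hI i i.2
    refine ⟨n, ?_⟩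
    have hpow : ∀ (m : ℕ) (w : S), ((((σ i - 1) ^ m) w : S) : V) = ((ρ i - 1) ^ m) (w : V) := by
      intro m
      induction m with
      | zero => intro w; simp
      | succ m ih =>
        intro w
        rw [pow_succ, pow_succ, Module.End.mul_apply, Module.End.mul_apply, ih]
        congr 1
    ext w
    rw [hpow, hn]
    rfl
  have hmin : ∀ U : Submodule K S, (∀ i, ∀ u ∈ U, σ i u ∈ U) → U = ⊥ ∨ U = ⊤ := by
    intro U hU
    by_contra hcon
    push Not at hcon
    obtain ⟨h1, h2⟩ := hcon
    have hlt : U.map S.subtype < S := by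
      refine lt_of_le_of_ne (Submodule.map_subtype_le S U) ?_
      intro heq
      apply h2
      rw [eq_top_iff]
      rintro ⟨x, hx⟩ _
      have hx' : x ∈ U.map S.subtype := by rw [heq]; exact hx
      obtain ⟨y, hy, hyx⟩ := hx'
      have : y = ⟨x, hx⟩ := Subtype.ext hyx
      rwa [← this]
    refine hSmin (U.map S.subtype) ⟨hlt.le.trans hS1, ?_, ?_⟩ hlt
    · rintro i hi _ ⟨y, hy, rfl⟩
      exact ⟨σ ⟨i, hi⟩ y, hU _ _ hy, rfl⟩
    · intro hbot
      apply h1
      rw [eq_bot_iff]
      intro x hx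
      have h3 : (x : V) ∈ U.map S.subtype := ⟨x, hx, rfl⟩
      rw [hbot, Submodule.mem_bot] at h3
      rw [Submodule.mem_bot]
      exact Subtype.ext h3
  refine ⟨s, hS1 hs, hs0, fun i hi => ?_⟩
  have := KOL.trivial_of_minimal σ hnil hmin ⟨i, hi⟩ ⟨s, hs⟩
  have h2 := congrArg (fun x : S => (x : V)) this
  exact h2

end MPb685ZO
end

section
/-!
MP_b685ef_ag : zero-one law, module P1G (general form of P1).

The element `a` of nonzero degree is only assumed to be semisimple on a subspace `W` (for example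
the invariants of an inertia group at a point of bad reduction) which meets every nonzero
`G0`-stable subspace of `V`.
-/
open Polynomial

namespace MPb685ZO

namespace P1G

section linear

variable {K : Type*} [Field K]

/-- A coset `e0 + D` of a stable subspace on which a semisimple operator acts as a translation
contains a fixed vector. -/
lemma exists_fixed {M : Type*} [AddCommGroup M] [Module K M] (T : Module.End K M)
    (hT : T.IsSemisimple) (D : Submodule K M) (hD : ∀ d ∈ D, T d ∈ D) (e0 : M)
    (he : T e0 - e0 ∈ D) : ∃ d ∈ D, T (e0 - d) = e0 - d := by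
  rw [Module.End.isSemisimple_iff] at hT
  obtain ⟨Q, hQ, hcompl⟩ := hT D (fun d hd => hD d hd)
  have htop : e0 ∈ D ⊔ Q := by rw [hcompl.sup_eq_top]; trivial
  obtain ⟨d, hd, c, hc, hdc⟩ := Submodule.mem_sup.mp htop
  refine ⟨d, hd, ?_⟩
  have h1 : e0 - d = c := by rw [← hdc]; abel
  rw [h1]
  have h2 : T c - c ∈ D := by
    have : T c - c = (T e0 - e0) - (T d - d) := by
      rw [← h1, map_sub]; abel
    rw [this]
    exact D.sub_mem he (D.sub_mem (hD d hd) hd)
  have h3 : T c - c ∈ Q := Q.sub_mem (hQ hc) hc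
  have h4 : T c - c ∈ D ⊓ Q := ⟨h2, h3⟩
  rw [hcompl.inf_eq_bot] at h4
  exact sub_eq_zero.mp ((Submodule.mem_bot K).mp h4)

lemma intertwine {M N : Type*} [AddCommGroup M] [Module K M] [AddCommGroup N] [Module K N]
    (φ : M →ₗ[K] N) (T : Module.End K M) (S : Module.End K N) (h : ∀ x, φ (T x) = S (φ x))
    (p : K[X]) (x : M) : φ (aeval T p x) = aeval S p (φ x) := by
  have hpow : ∀ n : ℕ, ∀ x, φ ((T ^ n) x) = (S ^ n) (φ x) := by
    intro n
    induction n with
    | zero => intro x; simp
    | succ n ih => intro x; rw [pow_succ, pow_succ, Module.End.mul_apply, Module.End.mul_apply,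
        ih, h]
  induction p using Polynomial.induction_on' with
  | add p q hp hq => simp only [map_add, LinearMap.add_apply, hp, hq]
  | monomial n c =>
    simp only [Polynomial.aeval_monomial, Module.End.mul_apply, Module.algebraMap_end_apply,
      map_smul, hpow]

/-- An operator intertwined by an injective map with a semisimple operator of a finite-dimensional
space is semisimple. -/
lemma semisimple_of_injective {M N : Type*} [AddCommGroup M] [Module K M] [AddCommGroup N]
    [Module K N] [FiniteDimensional K N] (φ : M →ₗ[K] N) (hφ : Function.Injective φ)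
    (T : Module.End K M) (S : Module.End K N) (h : ∀ x, φ (T x) = S (φ x))
    (hS : S.IsSemisimple) : T.IsSemisimple := by
  refine Module.End.isSemisimple_of_squarefree_aeval_eq_zero hS.minpoly_squarefree ?_
  ext x
  apply hφ
  rw [intertwine φ T S h, minpoly.aeval]
  simp

lemma aeval_mulLeft {A : Type*} [Ring A] [Algebra K A] (x : A) (p : K[X]) :
    aeval (LinearMap.mulLeft K x) p = LinearMap.mulLeft K (aeval x p) := by
  induction p using Polynomial.induction_on' with
  | add p q hp hq => 
    ext y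
    simp [hp, hq, add_mul]
  | monomial n c =>
    ext y
    simp [Polynomial.aeval_monomial, LinearMap.pow_mulLeft, Module.End.mul_apply,
      Algebra.smul_def, mul_assoc]

lemma aeval_mulRight {A : Type*} [Ring A] [Algebra K A] (x : A) (p : K[X]) :
    aeval (LinearMap.mulRight K x) p = LinearMap.mulRight K (aeval x p) := by
  induction p using Polynomial.induction_on' with
  | add p q hp hq => 
    ext y
    simp [hp, hq, mul_add]
  | monomial n c =>
    ext y
    simp [Polynomial.aeval_monomial, LinearMap.pow_mulRight, Module.End.mul_apply,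
      Algebra.smul_def, ← mul_assoc, Algebra.commutes]
    rw [mul_assoc, mul_assoc, Algebra.commutes]

variable {W : Type*} [AddCommGroup W] [Module K W] [FiniteDimensional K W]

lemma semisimple_mulLeft (x : Module.End K W) (hx : x.IsSemisimple) :
    Module.End.IsSemisimple (LinearMap.mulLeft K x : Module.End K (Module.End K W)) := by
  refine Module.End.isSemisimple_of_squarefree_aeval_eq_zero hx.minpoly_squarefree ?_
  rw [aeval_mulLeft, minpoly.aeval]
  ext; simp

lemma semisimple_mulRight (x : Module.End K W) (hx : x.IsSemisimple) :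
    Module.End.IsSemisimple (LinearMap.mulRight K x : Module.End K (Module.End K W)) := by
  refine Module.End.isSemisimple_of_squarefree_aeval_eq_zero hx.minpoly_squarefree ?_
  rw [aeval_mulRight, minpoly.aeval]
  ext; simp

/-- a subspace stable under an operator of a finite-dimensional space with left inverse is stable
under the left inverse -/
lemma stable_inv (x y : Module.End K W) (hyx : y * x = 1) (U : Submodule K W)
    (hU : ∀ u ∈ U, x u ∈ U) : ∀ u ∈ U, y u ∈ U := by
  have hinj : Function.Injective x := by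
    intro u v huv
    have := congrArg y huv
    rwa [← Module.End.mul_apply, ← Module.End.mul_apply, hyx] at this
  have hle : U.map x ≤ U := by
    rintro _ ⟨u, hu, rfl⟩
    exact hU u hu
  have heq : U.map x = U := by
    exact Submodule.eq_of_le_of_finrank_eq hle
      (LinearEquiv.finrank_eq (Submodule.equivMapOfInjective x hinj U)).symm
  intro u hu
  rw [← heq] at hu
  obtain ⟨v, hv, rfl⟩ := hu
  rw [← Module.End.mul_apply, hyx]
  exact hv

lemma semisimple_inv (x y : Module.End K W) (hyx : y * x = 1) (hx : x.IsSemisimple) :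
    y.IsSemisimple := by
  have hxy : x * y = 1 := mul_eq_one_comm.mp hyx
  rw [Module.End.isSemisimple_iff] at hx ⊢
  intro p hp
  obtain ⟨q, hq, hpq⟩ := hx p (stable_inv y x hxy p (fun u hu => hp hu))
  exact ⟨q, stable_inv x y hyx q (fun u hu => hq hu), hpq⟩

end linear

section rep

variable {K : Type*} [Field K] {V : Type*} [AddCommGroup V] [Module K V]
    {G : Type*} [Group G] (ρ : Representation K G V)

lemma rho_inv_mul (g : G) : ρ g⁻¹ * ρ g = 1 := by rw [← map_mul, inv_mul_cancel, map_one]

lemma rho_mul_inv (g : G) : ρ g * ρ g⁻¹ = 1 := by rw [← map_mul, mul_inv_cancel, map_one]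

lemma rho_inv_apply (g : G) (v : V) : ρ g⁻¹ (ρ g v) = v := by
  rw [← Module.End.mul_apply, rho_inv_mul]; rfl

lemma rho_apply_inv (g : G) (v : V) : ρ g (ρ g⁻¹ v) = v := by
  rw [← Module.End.mul_apply, rho_mul_inv]; rfl

/-- the commutant of `ρ(G0)` -/
def comm (G0 : Subgroup G) : Submodule K (Module.End K V) where
  carrier := {f | ∀ g ∈ G0, f * ρ g = ρ g * f}
  add_mem' := by
    intro f f' hf hf' g hg
    rw [add_mul, mul_add, hf g hg, hf' g hg]
  zero_mem' := by
    intro g _
    rw [zero_mul, mul_zero]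
  smul_mem' := by
    intro c f hf g hg
    rw [smul_mul_assoc, mul_smul_comm, hf g hg]

lemma mem_comm {G0 : Subgroup G} {f : Module.End K V} :
    f ∈ comm ρ G0 ↔ ∀ g ∈ G0, f * ρ g = ρ g * f := Iff.rfl

lemma comm_apply {G0 : Subgroup G} {f : Module.End K V} (hf : f ∈ comm ρ G0) {g : G}
    (hg : g ∈ G0) (v : V) : f (ρ g v) = ρ g (f v) := by
  have := congrArg (fun h : Module.End K V => h v) (hf g hg)
  simpa using this

/-- conjugation by `ρ a` -/
def conj (a : G) : Module.End K (Module.End K V) :=
  LinearMap.mulLeft K (ρ a) * LinearMap.mulRight K (ρ a⁻¹)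

lemma conj_apply (a : G) (f : Module.End K V) : conj ρ a f = ρ a * (f * ρ a⁻¹) := rfl

lemma conj_apply_apply (a : G) (f : Module.End K V) (v : V) :
    conj ρ a f v = ρ a (f (ρ a⁻¹ v)) := rfl

lemma conj_mem {G0 : Subgroup G} [G0.Normal] (a : G) {f : Module.End K V} (hf : f ∈ comm ρ G0) :
    conj ρ a f ∈ comm ρ G0 := by
  intro g hg
  have hg' : a⁻¹ * g * a ∈ G0 := by
    have := (inferInstance : G0.Normal).conj_mem g hg a⁻¹
    simpa using this
  ext v
  simp only [Module.End.mul_apply, conj_apply_apply]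
  have h1 : ρ a⁻¹ (ρ g v) = ρ (a⁻¹ * g * a) (ρ a⁻¹ v) := by
    rw [← Module.End.mul_apply, ← map_mul, ← Module.End.mul_apply, ← map_mul]
    congr 2
    group
  rw [h1, comm_apply ρ hf hg', ← Module.End.mul_apply (ρ a), ← map_mul,
    ← Module.End.mul_apply (ρ g), ← map_mul]
  congr 2
  group

/-- an operator with range in `U` which is the identity on `U` and commutes with `ρ g` when
`U` and the kernel are stable. -/
lemma commute_of_stable (e : Module.End K V) (U : Submodule K V) (hr : ∀ v, e v ∈ U)
    (hid : ∀ u ∈ U, e u = u) (g : G) (hU : ∀ u ∈ U, ρ g u ∈ U)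
    (hker : ∀ v, e v = 0 → e (ρ g v) = 0) (v : V) : e (ρ g v) = ρ g (e v) := by
  have h1 : e (v - e v) = 0 := by rw [map_sub, hid _ (hr v), sub_self]
  have h2 := hker _ h1
  rw [map_sub, map_sub, hid _ (hU _ (hr v)), sub_eq_zero] at h2
  exact h2

variable [CharZero K] [FiniteDimensional K V]

/-- Step (1): the projection onto a stable subspace can be chosen to commute with `G0` and `a`. -/
theorem exists_proj (G0 : Subgroup G) [G0.Normal] (h0 : SSOn ρ (G0 : Set G)) (a : G)
    (W : Submodule K V) (hWa : ∀ w ∈ W, ρ a w ∈ W)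
    (hWc : ∀ f ∈ comm ρ G0, ∀ w ∈ W, f w ∈ W)
    (hWne : ∀ U : Submodule K V, Stab ρ (G0 : Set G) U → U ≠ ⊥ → ∃ v ∈ U, v ∈ W ∧ v ≠ 0)
    (ha : Module.End.IsSemisimple ((ρ a).restrict hWa)) (U : Submodule K V)
    (hU0 : Stab ρ (G0 : Set G) U) (hUa : ∀ u ∈ U, ρ a u ∈ U) :
    ∃ e ∈ comm ρ G0, (∀ v, e (ρ a v) = ρ a (e v)) ∧ (∀ v, e v ∈ U) ∧ (∀ u ∈ U, e u = u) := by
  classical
  have hWa' : ∀ w ∈ W, ρ a⁻¹ w ∈ W := stable_inv (ρ a) (ρ a⁻¹) (rho_inv_mul ρ a) W hWa
  have hUa' : ∀ u ∈ U, ρ a⁻¹ u ∈ U := stable_inv (ρ a) (ρ a⁻¹) (rho_inv_mul ρ a) U hUa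
  -- the restricted operators
  set A : Module.End K W := (ρ a).restrict hWa with hA
  set B : Module.End K W := (ρ a⁻¹).restrict hWa' with hB
  have hBA : B * A = 1 := by
    ext w
    simp [hA, hB, LinearMap.restrict_apply, rho_inv_apply]
  have hBs : B.IsSemisimple := semisimple_inv A B hBA ha
  set S : Module.End K (Module.End K W) := LinearMap.mulLeft K A * LinearMap.mulRight K B with hS
  have hSs : S.IsSemisimple :=
    Module.End.IsSemisimple.mul_of_commute (LinearMap.commute_mulLeft_right A B)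
      (semisimple_mulLeft A ha) (semisimple_mulRight B hBs)
  -- the operator on the commutant
  set T : Module.End K (comm ρ G0) := (conj ρ a).restrict (fun f hf => conj_mem ρ a hf) with hT
  -- restriction to W
  let φ : comm ρ G0 →ₗ[K] Module.End K W :=
    { toFun := fun f => (f : Module.End K V).restrict (hWc f f.2)
      map_add' := by
        intro f f'
        ext w
        simp [LinearMap.restrict_apply]
      map_smul' := by
        intro c f
        ext w
        simp [LinearMap.restrict_apply] }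
  have hφ : ∀ (f : comm ρ G0) (w : W), ((φ f w : W) : V) = (f : Module.End K V) w := fun f w => rfl
  have hφT : ∀ f, φ (T f) = S (φ f) := by
    intro f
    ext w
    rfl
  have hφinj : Function.Injective φ := by
    rw [injective_iff_map_eq_zero]
    intro f hf
    have hst : Stab ρ (G0 : Set G) (LinearMap.ker (f : Module.End K V)) := by
      intro g hg v hv
      rw [LinearMap.mem_ker] at hv ⊢
      rw [comm_apply ρ f.2 hg, hv, map_zero]
    obtain ⟨V', hV', hcompl⟩ := h0 _ hst
    have hbot : V' = ⊥ := by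
      by_contra hne
      obtain ⟨v, hv, hvW, hv0⟩ := hWne V' hV' hne
      apply hv0
      have h1 : (f : Module.End K V) v = 0 := by
        have := congrArg (fun h : Module.End K W => ((h ⟨v, hvW⟩ : W) : V)) hf
        simpa [hφ] using this
      have h2 : v ∈ LinearMap.ker (f : Module.End K V) ⊓ V' := ⟨h1, hv⟩
      rw [hcompl.inf_eq_bot] at h2
      exact (Submodule.mem_bot K).mp h2
    have htop : LinearMap.ker (f : Module.End K V) = ⊤ := by
      have := hcompl.sup_eq_top
      rwa [hbot, sup_bot_eq] at this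
    apply Subtype.ext
    rw [LinearMap.ker_eq_top] at htop
    rw [htop]
    rfl
  have hTs : T.IsSemisimple := semisimple_of_injective φ hφinj T S hφT hSs
  -- the projection
  obtain ⟨U', hU', hcompl⟩ := h0 U hU0
  set p : Module.End K V := U.projection U' hcompl with hp
  have hpr : ∀ v, p v ∈ U := fun v => Submodule.projection_apply_mem hcompl v
  have hpid : ∀ u ∈ U, p u = u := fun u hu => Submodule.projection_apply_of_mem_left hcompl hu
  have hpker : ∀ v, p v = 0 → v ∈ U' := fun v hv =>
    (Submodule.projection_apply_eq_zero_iff hcompl).mp hv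
  have hpker' : ∀ v ∈ U', p v = 0 := fun v hv =>
    (Submodule.projection_apply_eq_zero_iff hcompl).mpr hv
  have hpc : p ∈ comm ρ G0 := by
    intro g hg
    ext v
    simp only [Module.End.mul_apply]
    exact commute_of_stable ρ p U hpr hpid g (hU0 g hg)
      (fun w hw => hpker' _ (hU' g hg w (hpker w hw))) v
  let D : Submodule K (comm ρ G0) :=
    { carrier := {f | (∀ v, (f : Module.End K V) v ∈ U) ∧ ∀ u ∈ U, (f : Module.End K V) u = 0}
      add_mem' := by
        intro f f' hf hf'
        refine ⟨fun v => ?_, fun u hu => ?_⟩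
        · simpa using U.add_mem (hf.1 v) (hf'.1 v)
        · simp [hf.2 u hu, hf'.2 u hu]
      zero_mem' := ⟨fun v => by simp, fun u _ => by simp⟩
      smul_mem' := by
        intro c f hf
        refine ⟨fun v => ?_, fun u hu => ?_⟩
        · simpa using U.smul_mem c (hf.1 v)
        · simp [hf.2 u hu] }
  have hTapp : ∀ (f : comm ρ G0) (v : V), ((T f : comm ρ G0) : Module.End K V) v =
      ρ a ((f : Module.End K V) (ρ a⁻¹ v)) := fun f v => rfl
  have hDT : ∀ d ∈ D, T d ∈ D := by
    intro d hd
    refine ⟨fun v => ?_, fun u hu => ?_⟩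
    · rw [hTapp]; exact hUa _ (hd.1 _)
    · rw [hTapp, hd.2 _ (hUa' u hu), map_zero]
  have he0 : T ⟨p, hpc⟩ - ⟨p, hpc⟩ ∈ D := by
    refine ⟨fun v => ?_, fun u hu => ?_⟩
    · have : ((T ⟨p, hpc⟩ - ⟨p, hpc⟩ : comm ρ G0) : Module.End K V) v =
        ρ a (p (ρ a⁻¹ v)) - p v := rfl
      rw [this]
      exact U.sub_mem (hUa _ (hpr _)) (hpr _)
    · have : ((T ⟨p, hpc⟩ - ⟨p, hpc⟩ : comm ρ G0) : Module.End K V) u =
        ρ a (p (ρ a⁻¹ u)) - p u := rfl
      rw [this, hpid _ (hUa' u hu), hpid u hu, rho_apply_inv, sub_self]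
  obtain ⟨d, hd, hfix⟩ := exists_fixed T hTs D hDT ⟨p, hpc⟩ he0
  refine ⟨((⟨p, hpc⟩ - d : comm ρ G0) : Module.End K V), (⟨p, hpc⟩ - d : comm ρ G0).2,
    fun v => ?_, fun v => ?_, fun u hu => ?_⟩
  · have h1 := hTapp (⟨p, hpc⟩ - d) (ρ a v)
    rw [hfix, rho_inv_apply] at h1
    exact h1
  · have : ((⟨p, hpc⟩ - d : comm ρ G0) : Module.End K V) v = p v - (d : Module.End K V) v := rfl
    rw [this]
    exact U.sub_mem (hpr v) (hd.1 v)
  · have : ((⟨p, hpc⟩ - d : comm ρ G0) : Module.End K V) u = p u - (d : Module.End K V) u := rfl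
    rw [this, hpid u hu, hd.2 u hu, sub_zero]

omit [FiniteDimensional K V] in
/-- averaging over a subgroup of finite index -/
theorem average (G1 : Subgroup G) [G1.FiniteIndex] (U : Submodule K V)
    (hU : Stab ρ Set.univ U) (e : Module.End K V)
    (he : ∀ g ∈ G1, ∀ v, e (ρ g v) = ρ g (e v)) (hr : ∀ v, e v ∈ U) (hid : ∀ u ∈ U, e u = u) :
    ∃ U' : Submodule K V, Stab ρ Set.univ U' ∧ IsCompl U U' := by
  classical
  haveI : Fintype (G ⧸ G1) := Subgroup.fintypeQuotientOfFiniteIndex
  have hconj : ∀ g h : G, g⁻¹ * h ∈ G1 → ∀ v, ρ g (e (ρ g⁻¹ v)) = ρ h (e (ρ h⁻¹ v)) := by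
    intro g h hgh v
    have h1 : ρ h⁻¹ v = ρ (g⁻¹ * h)⁻¹ (ρ g⁻¹ v) := by
      rw [← Module.End.mul_apply, ← map_mul]
      congr 2
      group
    rw [h1, he _ (G1.inv_mem hgh), ← Module.End.mul_apply (ρ h), ← map_mul]
    congr 2
    group
  let c : G ⧸ G1 → Module.End K V := fun x => conj ρ x.out e
  have hc : ∀ (x : G ⧸ G1) (v : V), c x v = ρ x.out (e (ρ x.out⁻¹ v)) := fun x v => rfl
  have hcg : ∀ (g : G) (x : G ⧸ G1) (v : V), ρ g (c x v) = c (g • x) (ρ g v) := by
    intro g x v
    rw [hc, hc, ← Module.End.mul_apply (ρ g), ← map_mul]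
    have h1 : ρ (g * x.out) (e (ρ x.out⁻¹ v)) =
        ρ (g * x.out) (e (ρ (g * x.out)⁻¹ (ρ g v))) := by
      congr 2
      rw [← Module.End.mul_apply, ← map_mul]
      congr 2
      group
    rw [h1]
    apply hconj
    rw [← QuotientGroup.eq]
    rw [QuotientGroup.out_eq']
    conv_rhs => rw [← QuotientGroup.out_eq' x]
    rfl
  have hn : (Fintype.card (G ⧸ G1) : K) ≠ 0 := by
    have : Fintype.card (G ⧸ G1) ≠ 0 := Fintype.card_ne_zero
    exact_mod_cast this
  let q : Module.End K V := (Fintype.card (G ⧸ G1) : K)⁻¹ • ∑ x, c x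
  have hq : ∀ v, q v = (Fintype.card (G ⧸ G1) : K)⁻¹ • ∑ x, c x v := by
    intro v
    simp [q]
  have hqU : ∀ v, q v ∈ U := by
    intro v
    rw [hq]
    refine U.smul_mem _ (U.sum_mem fun x _ => ?_)
    rw [hc]
    exact hU _ (Set.mem_univ _) _ (hr _)
  have hqid : ∀ u ∈ U, q u = u := by
    intro u hu
    rw [hq]
    have : ∀ x ∈ (Finset.univ : Finset (G ⧸ G1)), c x u = u := by
      intro x _
      rw [hc, hid _ (hU _ (Set.mem_univ _) _ hu), rho_apply_inv]
    rw [Finset.sum_congr rfl this, Finset.sum_const, Finset.card_univ,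
      ← Nat.cast_smul_eq_nsmul K, smul_smul, inv_mul_cancel₀ hn, one_smul]
  have hqc : ∀ (g : G) (v : V), ρ g (q v) = q (ρ g v) := by
    intro g v
    rw [hq, hq, map_smul, map_sum]
    congr 1
    rw [Finset.sum_congr rfl (fun x _ => hcg g x v)]
    exact Equiv.sum_comp (MulAction.toPerm g) (fun x => c x (ρ g v))
  refine ⟨LinearMap.ker q, ?_, ?_⟩
  · intro g _ v hv
    rw [LinearMap.mem_ker] at hv ⊢
    rw [← hqc, hv, map_zero]
  · constructor
    · rw [disjoint_iff, eq_bot_iff]
      rintro v ⟨hv, hv'⟩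
      rw [Submodule.mem_bot, ← hqid v hv]
      exact hv'
    · rw [codisjoint_iff, eq_top_iff]
      intro v _
      rw [Submodule.mem_sup]
      refine ⟨q v, hqU v, v - q v, ?_, by abel⟩
      rw [LinearMap.mem_ker, map_sub, hqid _ (hqU v), sub_self]

/-- **General form of P1.**  `V` is semisimple for `G` as soon as it is semisimple for `G0` and
one element `a` acts semisimply on a subspace `W` which is stable under the commutant of `G0` and
meets every nonzero `G0`-stable subspace. -/
theorem main (G0 : Subgroup G) [G0.Normal] (h0 : SSOn ρ (G0 : Set G)) (a : G)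
    (W : Submodule K V) (hWa : ∀ w ∈ W, ρ a w ∈ W)
    (hWc : ∀ f ∈ comm ρ G0, ∀ w ∈ W, f w ∈ W)
    (hWne : ∀ U : Submodule K V, Stab ρ (G0 : Set G) U → U ≠ ⊥ → ∃ v ∈ U, v ∈ W ∧ v ≠ 0)
    (ha : Module.End.IsSemisimple ((ρ a).restrict hWa)) (G1 : Subgroup G) [G1.FiniteIndex]
    (h1 : ∀ U : Submodule K V, Stab ρ (G0 : Set G) U → Stab ρ {a} U → Stab ρ (G1 : Set G) U) :
    SSOn ρ Set.univ := by
  intro U hU
  obtain ⟨e, hec, hea, her, hei⟩ := exists_proj ρ G0 h0 a W hWa hWc hWne ha U
    (fun g _ => hU g (Set.mem_univ _)) (hU a (Set.mem_univ _))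
  have hkst : Stab ρ (G1 : Set G) (LinearMap.ker e) := by
    apply h1
    · intro g hg v hv
      rw [LinearMap.mem_ker] at hv ⊢
      rw [comm_apply ρ hec hg, hv, map_zero]
    · intro g hg v hv
      rw [Set.mem_singleton_iff] at hg
      subst hg
      rw [LinearMap.mem_ker] at hv ⊢
      rw [hea, hv, map_zero]
  exact average ρ G1 U hU e (fun g hg v => commute_of_stable ρ e U her hei g
    (hU g (Set.mem_univ _)) (fun v hv => hkst g hg v hv) v) her hei

/-- the subspace of vectors fixed by all `ρ h`, `h ∈ I` -/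
def inv (I : Set G) : Submodule K V where
  carrier := {v | ∀ h ∈ I, ρ h v = v}
  add_mem' := by
    intro v w hv hw h hh
    rw [map_add, hv h hh, hw h hh]
  zero_mem' := fun h _ => map_zero _
  smul_mem' := by
    intro c v hv h hh
    rw [map_smul, hv h hh]

end rep

end P1G

/-- **P1 at a point of bad reduction.**  `I` (the inertia group) is contained in `G0` and
normalized by `a`, every nonzero `G0`-stable subspace contains a nonzero `I`-fixed vector (for
example when `I` acts unipotently), and `a` acts semisimply on the subspace of the `I`-fixed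
vectors.  Then `V` is semisimple for `G`. -/
theorem specP1I {K : Type*} [Field K] [CharZero K] {V : Type*} [AddCommGroup V] [Module K V]
    [FiniteDimensional K V] {G : Type*} [Group G] (ρ : Representation K G V)
    (G0 : Subgroup G) [G0.Normal] (h0 : SSOn ρ (G0 : Set G)) (a : G)
    (I : Set G) (hI : I ⊆ G0) (hIa : ∀ h ∈ I, a⁻¹ * h * a ∈ I)
    (hfix : ∀ U : Submodule K V, Stab ρ (G0 : Set G) U → U ≠ ⊥ →
      ∃ v ∈ U, v ≠ 0 ∧ ∀ h ∈ I, ρ h v = v)
    (ha : ∀ U : Submodule K V, Stab ρ {a} U → U ≤ P1G.inv ρ I →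
      ∃ U' : Submodule K V, Stab ρ {a} U' ∧ U ⊓ U' = ⊥ ∧ U ⊔ U' = P1G.inv ρ I)
    (G1 : Subgroup G) [G1.FiniteIndex]
    (h1 : ∀ U : Submodule K V, Stab ρ (G0 : Set G) U → Stab ρ {a} U → Stab ρ (G1 : Set G) U) :
    SSOn ρ Set.univ := by
  have hWa : ∀ w ∈ P1G.inv ρ I, ρ a w ∈ P1G.inv ρ I := by
    intro w hw h hh
    have h2 := hw _ (hIa h hh)
    have h3 : ρ h (ρ a w) = ρ a (ρ (a⁻¹ * h * a) w) := by
      rw [← Module.End.mul_apply, ← map_mul, ← Module.End.mul_apply, ← map_mul]
      congr 2
      group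
    rw [h3, h2]
  refine P1G.main ρ G0 h0 a (P1G.inv ρ I) hWa ?_ ?_ ?_ G1 h1
  · intro f hf w hw h hh
    rw [← P1G.comm_apply ρ hf (hI hh), hw h hh]
  · intro U hU hne
    obtain ⟨v, hv, hv0, hvI⟩ := hfix U hU hne
    exact ⟨v, hv, hvI, hv0⟩
  · rw [Module.End.isSemisimple_restrict_iff _ (fun w hw => hWa w hw)]
    intro q hq hqle
    obtain ⟨U', hU', hinf, hsup⟩ := ha q (by
      intro g hg w hw
      rw [Set.mem_singleton_iff] at hg
      subst hg
      exact hq hw) hqle
    refine ⟨U', ?_, fun w hw => hU' a (Set.mem_singleton a) w hw, ?_, hsup⟩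
    · rw [← hsup]; exact le_sup_right
    · rw [disjoint_iff]; exact hinf

/-- P1 (good reduction). -/
theorem specP1' {K : Type*} [Field K] [CharZero K] {V : Type*} [AddCommGroup V] [Module K V]
    [FiniteDimensional K V] {G : Type*} [Group G] (ρ : Representation K G V)
    (G0 : Subgroup G) [G0.Normal] (h0 : SSOn ρ (G0 : Set G))
    (a : G) (ha : Module.End.IsSemisimple (ρ a)) (G1 : Subgroup G) [G1.FiniteIndex]
    (h1 : ∀ W : Submodule K V, Stab ρ (G0 : Set G) W → Stab ρ {a} W → Stab ρ (G1 : Set G) W) :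
    SSOn ρ Set.univ := by
  refine P1G.main ρ G0 h0 a ⊤ (fun w _ => trivial) (fun f _ w _ => trivial) ?_ ?_ G1 h1
  · intro U _ hne
    obtain ⟨v, hv, hv0⟩ := Submodule.exists_mem_ne_zero_of_ne_bot hne
    exact ⟨v, hv, trivial, hv0⟩
  · exact Module.End.IsSemisimple.restrict (p := (⊤ : Submodule K V))
      (show (⊤ : Submodule K V) ∈ Module.End.invtSubmodule (ρ a) from fun w _ => trivial) ha

end MPb685ZO
end

section
/-!
MP_b685ef_ag, zero-one law, module GP: the generic power of an invertible matrix.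

`R0 L` is the ring of exponential polynomials: the group algebra of `Lˣ` over `L[X]`; the element
`p [θ]` stands for the function `k ↦ p(k) θ^k`.
-/
open Polynomial

namespace MPb685ZO
namespace GP

/-- the ring of exponential polynomials over `L` -/
abbrev R0 (L : Type*) [Field L] := MonoidAlgebra L[X] Lˣ

section ring
variable (L : Type*) [Field L]

/-- the value at the natural number `k` -/
noncomputable def ev (k : ℕ) : R0 L →ₐ[L] L :=
  MonoidAlgebra.liftNCAlgHom (Polynomial.aeval (k : L))
    ((Units.coeHom L).comp (powMonoidHom k)) (fun _ _ => Commute.all _ _)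

/-- the map `[θ] ↦ 1` -/
noncomputable def tau : R0 L →ₐ[L] L[X] :=
  MonoidAlgebra.liftNCAlgHom (AlgHom.id L L[X]) 1 (fun _ _ => Commute.all _ _)

variable {L}

lemma ev_single (k : ℕ) (θ : Lˣ) (p : L[X]) :
    ev L k (MonoidAlgebra.single θ p) = p.eval (k : L) * (θ : L) ^ k := by
  simp [ev, MonoidAlgebra.liftNCAlgHom]

lemma tau_single (θ : Lˣ) (p : L[X]) : tau L (MonoidAlgebra.single θ p) = p := by
  simp [tau, MonoidAlgebra.liftNCAlgHom]

lemma ev_eq_sum (k : ℕ) (x : R0 L) :
    ev L k x = ∑ θ ∈ x.coeff.support, (x.coeff θ).eval (k : L) * (θ : L) ^ k := by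
  conv_lhs => rw [← MonoidAlgebra.sum_coeff_single x]
  rw [Finsupp.sum, map_sum]
  exact Finset.sum_congr rfl fun θ _ => ev_single k θ _

/-- the shift on sequences -/
noncomputable def shift (L : Type*) [Field L] : Module.End L (ℕ → L) :=
  LinearMap.funLeft L L Nat.succ

lemma shift_apply (f : ℕ → L) (k : ℕ) : shift L f k = f (k + 1) := rfl

/-- the exponential polynomial `k ↦ p(k) θ^k` -/
noncomputable def ep (θ : L) (p : L[X]) : ℕ → L := fun k => p.eval (k : L) * θ ^ k

lemma shift_ep (θ : L) (p : L[X]) :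
    (shift L - θ • (1 : Module.End L (ℕ → L))) (ep θ p)
      = ep θ (C θ * (p.comp (X + 1) - p)) := by
  funext k
  simp [shift_apply, ep, pow_succ, eval_comp]
  ring

lemma natDegree_comp_sub_lt (p : L[X]) (hp : p.natDegree ≠ 0) :
    (p.comp (X + 1) - p).natDegree < p.natDegree := by
  have h1 : (p.comp (X + 1)).natDegree = p.natDegree := by
    rw [natDegree_comp]
    have : (X + 1 : L[X]).natDegree = 1 := by
      rw [← C_1, natDegree_X_add_C]
    rw [this, mul_one]
  have hp0 : p ≠ 0 := by
    rintro rfl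
    simp at hp
  have h2 : (p.comp (X + 1)).leadingCoeff = p.leadingCoeff := by
    rw [leadingCoeff_comp]
    · have : (X + 1 : L[X]).leadingCoeff = 1 := by
        rw [← C_1, leadingCoeff_X_add_C]
      rw [this]
      simp
    · rw [← C_1, natDegree_X_add_C]
      exact one_ne_zero
  by_cases h0 : p.comp (X + 1) - p = 0
  · rw [h0, natDegree_zero]
    exact Nat.pos_of_ne_zero hp
  have hc : p.comp (X + 1) ≠ 0 := by
    intro h
    rw [h, leadingCoeff_zero] at h2
    exact hp0 (leadingCoeff_eq_zero.mp h2.symm)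
  have hd : (p.comp (X + 1)).degree = p.degree := by
    rw [degree_eq_natDegree hc, degree_eq_natDegree hp0, h1]
  have := degree_sub_lt_left hd hc h2
  rw [hd] at this
  exact natDegree_lt_natDegree h0 this

lemma ep_zero (θ : L) : ep θ (0 : L[X]) = 0 := by
  funext k
  simp [ep]

lemma ep_mem (θ : L) (p : L[X]) : ep θ p ∈ (shift L).maxGenEigenspace θ := by
  have key : ∀ n (p : L[X]), p.natDegree ≤ n →
      ((shift L - θ • (1 : Module.End L (ℕ → L))) ^ (n + 1)) (ep θ p) = 0 := by
    intro n
    induction n with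
    | zero =>
      intro p hp
      have hp0 : p.natDegree = 0 := Nat.le_zero.mp hp
      rw [zero_add, pow_one, shift_ep, eq_C_of_natDegree_eq_zero hp0, C_comp, sub_self, mul_zero,
        ep_zero]
    | succ n ih =>
      intro p hp
      rw [pow_succ, Module.End.mul_apply, shift_ep]
      apply ih
      by_cases h0 : p.natDegree = 0
      · rw [eq_C_of_natDegree_eq_zero h0, C_comp, sub_self, mul_zero, natDegree_zero]
        exact Nat.zero_le _
      · have := natDegree_comp_sub_lt p h0
        have h3 := natDegree_C_mul_le θ (p.comp (X + 1) - p)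
        omega
  rw [Module.End.mem_maxGenEigenspace]
  exact ⟨p.natDegree + 1, key _ p le_rfl⟩

variable [CharZero L]

theorem eq_zero_of_ev (x : R0 L) (h : ∀ k, ev L k x = 0) : x = 0 := by
  have hind : iSupIndep (fun θ : Lˣ => (shift L).maxGenEigenspace (θ : L)) :=
    ((shift L).independent_maxGenEigenspace).comp Units.val_injective
  rw [iSupIndep_iff_finsetSum_eq_zero_imp_eq_zero] at hind
  have h1 := hind x.coeff.support (fun θ => ep (θ : L) (x.coeff θ)) (fun θ _ => ep_mem _ _) (by
    funext k
    rw [Finset.sum_apply]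
    have := h k
    rw [ev_eq_sum] at this
    exact this)
  apply MonoidAlgebra.coeff_injective
  ext θ : 1
  by_contra hne
  have hmem : θ ∈ x.coeff.support := by
    rw [Finsupp.mem_support_iff]
    exact hne
  have h2 := h1 θ hmem
  apply hne
  have h3 : ∀ k : ℕ, (x.coeff θ).eval (k : L) = 0 := by
    intro k
    have := congrFun h2 k
    simp only [ep, Pi.zero_apply] at this
    rcases mul_eq_zero.mp this with h4 | h4
    · exact h4
    · exact absurd h4 (pow_ne_zero k θ.ne_zero)
  rw [MonoidAlgebra.coeff_zero, Finsupp.zero_apply]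
  apply Polynomial.eq_zero_of_infinite_isRoot
  refine (Set.infinite_range_of_injective (Nat.cast_injective (R := L))).mono ?_
  rintro _ ⟨k, rfl⟩
  exact h3 k

end ring

section matrix
variable {L : Type*} [Field L] [DecidableEq Lˣ] {n : Type*} [Fintype n] [DecidableEq n]

lemma nodal_dvd (Θ : Finset Lˣ) (p : L[X]) :
    Lagrange.nodal Θ (Units.val : Lˣ → L) ∣
      p - ∑ θ ∈ Θ, C (p.eval (θ : L)) * Lagrange.basis Θ (Units.val : Lˣ → L) θ := by
  have hmon : (Lagrange.nodal Θ (Units.val : Lˣ → L)).Monic := Lagrange.nodal_monic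
  have hr : p %ₘ (Lagrange.nodal Θ (Units.val : Lˣ → L)) =
      Lagrange.interpolate Θ (Units.val : Lˣ → L) (fun θ => p.eval (θ : L)) := by
    apply Lagrange.eq_interpolate_of_eval_eq
    · exact Units.val_injective.injOn
    · rw [← Lagrange.degree_nodal (s := Θ) (v := (Units.val : Lˣ → L))]
      exact degree_modByMonic_lt _ hmon
    · intro θ hθ
      conv_rhs => rw [← modByMonic_add_div p (Lagrange.nodal Θ (Units.val : Lˣ → L))]
      rw [eval_add, eval_mul, Lagrange.eval_nodal_at_node hθ, zero_mul, add_zero]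
  rw [Lagrange.interpolate_apply] at hr
  rw [← hr]
  refine ⟨p /ₘ Lagrange.nodal Θ (Units.val : Lˣ → L), ?_⟩
  rw [sub_eq_iff_eq_add']
  exact (modByMonic_add_div p _).symm

lemma aeval_eq_sum (s : Matrix n n L) (Θ : Finset Lˣ)
    (h0 : aeval s (Lagrange.nodal Θ (Units.val : Lˣ → L)) = 0) (p : L[X]) :
    aeval s p = ∑ θ ∈ Θ, p.eval (θ : L) •
      aeval s (Lagrange.basis Θ (Units.val : Lˣ → L) θ) := by
  obtain ⟨q, hq⟩ := nodal_dvd Θ p
  have : aeval s (p - ∑ θ ∈ Θ, C (p.eval (θ : L)) * Lagrange.basis Θ (Units.val : Lˣ → L) θ)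
      = 0 := by
    rw [hq, map_mul, h0, zero_mul]
  rw [map_sub, sub_eq_zero, map_sum] at this
  rw [this]
  refine Finset.sum_congr rfl fun θ _ => ?_
  rw [map_mul, aeval_C, Algebra.smul_def]

omit [DecidableEq Lˣ] in
lemma mapMatrix_smul_map {A : Type*} [CommRing A] [Algebra L A] (φ : R0 L →ₐ[L] A) (r : R0 L)
    (M : Matrix n n L) :
    φ.mapMatrix (r • M.map (algebraMap L (R0 L))) = φ r • M.map (algebraMap L A) := by
  ext i j
  rw [AlgHom.mapMatrix_apply, Matrix.map_apply, Matrix.smul_apply, Matrix.map_apply,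
    Matrix.smul_apply, Matrix.map_apply, smul_eq_mul, smul_eq_mul, map_mul, AlgHom.commutes]

lemma exists_ss (s : Matrix n n L) (Θ : Finset Lˣ)
    (h0 : aeval s (Lagrange.nodal Θ (Units.val : Lˣ → L)) = 0) :
    ∃ P : Matrix n n (R0 L), (∀ k, (ev L k).mapMatrix P = s ^ k) ∧ (tau L).mapMatrix P = 1 := by
  refine ⟨∑ θ ∈ Θ, (MonoidAlgebra.single θ (1 : L[X]) : R0 L) •
    (aeval s (Lagrange.basis Θ (Units.val : Lˣ → L) θ)).map (algebraMap L (R0 L)), ?_, ?_⟩
  · intro k
    rw [map_sum]
    have := aeval_eq_sum s Θ h0 (X ^ k)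
    rw [map_pow, aeval_X] at this
    rw [this]
    refine Finset.sum_congr rfl fun θ _ => ?_
    rw [mapMatrix_smul_map, ev_single]
    simp
  · rw [map_sum]
    have := aeval_eq_sum s Θ h0 1
    have h2 : ∀ θ ∈ Θ, (tau L).mapMatrix ((MonoidAlgebra.single θ (1 : L[X]) : R0 L) •
        (aeval s (Lagrange.basis Θ (Units.val : Lˣ → L) θ)).map (algebraMap L (R0 L)))
        = (Algebra.ofId L L[X]).mapMatrix (aeval s (Lagrange.basis Θ (Units.val : Lˣ → L) θ)) := by
      intro θ _
      rw [mapMatrix_smul_map, tau_single, one_smul]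
      rfl
    rw [Finset.sum_congr rfl h2, ← map_sum]
    simp only [eval_one, one_smul, map_one] at this
    rw [← this, map_one]

omit [DecidableEq Lˣ] in
/-- the binomial polynomial `binom(X, j)` -/
noncomputable def bp (L : Type*) [Field L] (j : ℕ) : L[X] :=
  C ((j.factorial : L)⁻¹) * descPochhammer L j

omit [DecidableEq Lˣ] in
lemma bp_eval [CharZero L] (j k : ℕ) : (bp L j).eval (k : L) = (k.choose j : L) := by
  have hf : (j.factorial : L) ≠ 0 := Nat.cast_ne_zero.mpr (Nat.factorial_ne_zero j)
  rw [bp, eval_mul, eval_C, descPochhammer_eval_eq_descFactorial, Nat.descFactorial_eq_factorial_mul_choose,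
    Nat.cast_mul, ← mul_assoc, inv_mul_cancel₀ hf, one_mul]

omit [DecidableEq Lˣ] in
lemma bp_zero : bp L 0 = 1 := by simp [bp]

omit [DecidableEq Lˣ] in
lemma bp_one : bp L 1 = X := by simp [bp]

omit [DecidableEq Lˣ] in
lemma bp_coeff_zero (j : ℕ) : (bp L (j + 1)).coeff 0 = 0 := by
  rw [coeff_zero_eq_eval_zero, bp, eval_mul, descPochhammer_ne_zero_eval_zero L (Nat.succ_ne_zero j),
    mul_zero]

omit [DecidableEq Lˣ] in
lemma bp_map {K : Type*} [Field K] (f : K →+* L) (j : ℕ) : (bp K j).map f = bp L j := by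
  rw [bp, bp, Polynomial.map_mul, descPochhammer_map, map_C, map_inv₀, map_natCast]

omit [DecidableEq Lˣ] in
lemma exists_unip [CharZero L] (ν : Matrix n n L) (m : ℕ) (hν : ν ^ (m + 1) = 0) :
    ∃ P : Matrix n n (R0 L), (∀ k, (ev L k).mapMatrix P = (1 + ν) ^ k) ∧
      (tau L).mapMatrix P = ∑ j ∈ Finset.range (m + 1), bp L j • (ν ^ j).map (algebraMap L L[X]) := by
  refine ⟨∑ j ∈ Finset.range (m + 1), (MonoidAlgebra.single (1 : Lˣ) (bp L j) : R0 L) •
    (ν ^ j).map (algebraMap L (R0 L)), ?_, ?_⟩
  · intro k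
    rw [map_sum, add_comm 1 ν, (Commute.one_right ν).add_pow]
    have h1 : ∀ j ∈ Finset.range (m + 1), (ev L k).mapMatrix
        ((MonoidAlgebra.single (1 : Lˣ) (bp L j) : R0 L) • (ν ^ j).map (algebraMap L (R0 L)))
        = ν ^ j * (k.choose j : Matrix n n L) := by
      intro j _
      rw [mapMatrix_smul_map, ev_single, bp_eval]
      simp only [Units.val_one, one_pow, mul_one]
      rw [← nsmul_eq_mul', Nat.cast_smul_eq_nsmul]
      congr 1
    rw [Finset.sum_congr rfl h1]
    have h2 : ∀ j ∈ Finset.range (k + 1), ν ^ j * 1 ^ (k - j) * (k.choose j : Matrix n n L)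
        = ν ^ j * (k.choose j : Matrix n n L) := by
      intro j _
      rw [one_pow, mul_one]
    rw [Finset.sum_congr rfl h2]
    have e1 : ∑ j ∈ Finset.range (m + 1), ν ^ j * (k.choose j : Matrix n n L) =
        ∑ j ∈ Finset.range (m + 1 + (k + 1)), ν ^ j * (k.choose j : Matrix n n L) := by
      apply Finset.sum_subset (Finset.range_mono (by omega))
      intro j _ hj
      have : m + 1 ≤ j := by simpa using hj
      rw [pow_eq_zero_of_le this hν, zero_mul]
    have e2 : ∑ j ∈ Finset.range (k + 1), ν ^ j * (k.choose j : Matrix n n L) =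
        ∑ j ∈ Finset.range (m + 1 + (k + 1)), ν ^ j * (k.choose j : Matrix n n L) := by
      apply Finset.sum_subset (Finset.range_mono (by omega))
      intro j _ hj
      have : k < j := by
        rw [Finset.mem_range, not_lt] at hj
        omega
      rw [Nat.choose_eq_zero_of_lt this, Nat.cast_zero, mul_zero]
    rw [e1, e2]
  · rw [map_sum]
    refine Finset.sum_congr rfl fun j _ => ?_
    rw [mapMatrix_smul_map, tau_single]

end matrix

section log
variable {K : Type*} [Field K] {n : Type*} [Fintype n] [DecidableEq n]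

/-- `Y` is the logarithm of the unipotent part of `h`. -/
def IsLog (L : Type*) [Field L] [Algebra K L] (h Y : Matrix n n K) : Prop :=
  ∃ P : Matrix n n (R0 L), (∀ k, (ev L k).mapMatrix P = (h.map (algebraMap K L)) ^ k) ∧
    P.map (fun x => (tau L x).coeff 0) = 1 ∧
    P.map (fun x => (tau L x).coeff 1) = Y.map (algebraMap K L)

variable {L : Type*} [Field L] [Algebra K L] [CharZero L]

lemma eq_of_ev {P Q : Matrix n n (R0 L)} (h : ∀ k, (ev L k).mapMatrix P = (ev L k).mapMatrix Q) :
    P = Q := by
  ext i j : 1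
  rw [← sub_eq_zero]
  apply eq_zero_of_ev
  intro k
  have := congrFun (congrFun (h k) i) j
  rw [map_sub, sub_eq_zero]
  exact this

lemma IsLog.unique {h Y Y' : Matrix n n K} (h1 : IsLog L h Y) (h2 : IsLog L h Y') : Y = Y' := by
  obtain ⟨P, hP, -, hY⟩ := h1
  obtain ⟨Q, hQ, -, hY'⟩ := h2
  have : P = Q := eq_of_ev fun k => by rw [hP, hQ]
  subst this
  rw [hY] at hY'
  ext i j
  have := congrFun (congrFun hY' i) j
  exact (algebraMap K L).injective this

/-- in a finite-dimensional algebra, the inverse of a unit lies in every subalgebra containing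
the unit -/
lemma exists_inv_mem {A : Type*} [Ring A] [Algebra K A] [FiniteDimensional K A]
    (B : Subalgebra K A) (s : A) (hs : s ∈ B) (hu : IsUnit s) : ∃ t ∈ B, s * t = 1 ∧ t * s = 1 := by
  let f : B →ₗ[K] B := LinearMap.mulLeft K (⟨s, hs⟩ : B)
  have hinj : Function.Injective f := by
    rw [injective_iff_map_eq_zero]
    intro x hx
    have h1 : s * (x : A) = 0 := congrArg Subtype.val hx
    have h2 : (x : A) = 0 := by
      rw [← hu.mul_right_eq_zero]
      exact h1
    exact Subtype.ext h2
  obtain ⟨t, ht⟩ := (LinearMap.injective_iff_surjective.mp hinj) 1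
  have ht1 : s * (t : A) = 1 := congrArg Subtype.val ht
  refine ⟨t, t.2, ht1, ?_⟩
  obtain ⟨u, rfl⟩ := hu
  have : (t : A) = ((u⁻¹ : Aˣ) : A) := by
    calc (t : A) = ((u⁻¹ : Aˣ) : A) * (u * (t : A)) := by rw [← mul_assoc, Units.inv_mul, one_mul]
      _ = _ := by rw [ht1, mul_one]
  rw [this, Units.inv_mul]

omit [CharZero L] in
lemma aeval_nodal_of_isSemisimple [CharZero K] [IsAlgClosed L] (s : Matrix n n K) (hu : IsUnit s)
    (hs : Module.End.IsSemisimple (Matrix.toLinAlgEquiv' s : Module.End K (n → K))) :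
    ∃ Θ : Finset Lˣ, aeval (s.map (algebraMap K L)) (Lagrange.nodal Θ (Units.val : Lˣ → L)) = 0 := by
  classical
  set q := minpoly K (Matrix.toLinAlgEquiv' s : Module.End K (n → K)) with hq
  have hsep : q.Separable := PerfectField.separable_iff_squarefree.mpr hs.minpoly_squarefree
  have hq0 : aeval s q = 0 := by
    have h1 : aeval (Matrix.toLinAlgEquiv' s : Module.End K (n → K)) q = 0 := minpoly.aeval _ _
    have h2 := Polynomial.aeval_algHom_apply (Matrix.toLinAlgEquiv' (R := K) (n := n)).toAlgHom s q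
    have h3 : (Matrix.toLinAlgEquiv' (R := K) (n := n)) (aeval s q) = 0 := by
      rw [← h1]
      exact h2.symm
    exact (map_eq_zero_iff _ (Matrix.toLinAlgEquiv' (R := K) (n := n)).injective).mp h3
  have hqL : aeval (s.map (algebraMap K L)) (q.map (algebraMap K L)) = 0 := by
    rw [Polynomial.aeval_map_algebraMap]
    have h2 := Polynomial.aeval_algHom_apply ((Algebra.ofId K L).mapMatrix (m := n)) s q
    rw [hq0, map_zero] at h2
    exact h2
  set R := (q.map (algebraMap K L)).roots.toFinset with hR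
  have hprod : q.map (algebraMap K L) = ∏ a ∈ R, (X - C a) := by
    have hspl : (q.map (algebraMap K L)).Splits := IsAlgClosed.splits _
    have hmon : (q.map (algebraMap K L)).Monic :=
      (minpoly.monic (Algebra.IsIntegral.isIntegral _)).map _
    have hnd : (q.map (algebraMap K L)).roots.Nodup := nodup_roots (hsep.map)
    have := hspl.eq_prod_roots_of_monic hmon
    conv_lhs => rw [this]
    rw [hR, Finset.prod, Multiset.toFinset_val, Multiset.dedup_eq_self.mpr hnd]
  refine ⟨R.preimage Units.val Units.val_injective.injOn, ?_⟩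
  set Θ := R.preimage (Units.val : Lˣ → L) Units.val_injective.injOn with hΘ
  have hmap : R.erase 0 = Θ.map ⟨Units.val, Units.val_injective⟩ := by
    ext a
    simp only [Finset.mem_erase, Finset.mem_map, hΘ, Finset.mem_preimage, Function.Embedding.coeFn_mk]
    constructor
    · rintro ⟨h0, h1⟩
      exact ⟨Units.mk0 a h0, h1, rfl⟩
    · rintro ⟨θ, h1, rfl⟩
      exact ⟨θ.ne_zero, h1⟩
  have hdvd : q.map (algebraMap K L) ∣ X * Lagrange.nodal Θ (Units.val : Lˣ → L) := by
    have h1 : Lagrange.nodal Θ (Units.val : Lˣ → L) = ∏ a ∈ R.erase 0, (X - C a) := by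
      rw [hmap, Finset.prod_map, Lagrange.nodal_eq]
      rfl
    rw [hprod, h1]
    by_cases h0 : (0 : L) ∈ R
    · rw [← Finset.mul_prod_erase R (fun a => X - C a) h0]
      simp
    · rw [Finset.erase_eq_of_notMem h0]
      exact Dvd.intro_left X rfl
  obtain ⟨c, hc⟩ := hdvd
  have h3 : s.map (algebraMap K L) * aeval (s.map (algebraMap K L))
      (Lagrange.nodal Θ (Units.val : Lˣ → L)) = 0 := by
    have := congrArg (aeval (s.map (algebraMap K L))) hc
    rw [map_mul, map_mul, hqL, zero_mul, aeval_X] at this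
    exact this
  have huL : IsUnit (s.map (algebraMap K L)) := by
    have := hu.map ((algebraMap K L).mapMatrix (m := n))
    exact this
  rwa [huL.mul_right_eq_zero] at h3

theorem exists_log [CharZero K] [IsAlgClosed L] (h : Matrix n n K) (hu : IsUnit h) :
    ∃ Y : Matrix n n K, IsLog L h Y ∧ Y ∈ Algebra.adjoin K {h} ∧ IsNilpotent Y ∧
      (Y = 0 → Module.End.IsSemisimple (Matrix.toLinAlgEquiv' h : Module.End K (n → K))) := by
  classical
  set e := (Matrix.toLinAlgEquiv' (R := K) (n := n)) with he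
  set f : Module.End K (n → K) := e h with hf
  obtain ⟨N', hN'a, s', hs'a, hN'n, hs'ss, hfs⟩ := f.exists_isNilpotent_isSemisimple
  set N := e.symm N' with hN
  set s := e.symm s' with hs
  have hmem : ∀ x ∈ Algebra.adjoin K {f}, e.symm x ∈ Algebra.adjoin K {h} := by
    intro x hx
    have h1 : e.symm.toAlgHom x ∈ (Algebra.adjoin K {f}).map e.symm.toAlgHom :=
      Subalgebra.mem_map.mpr ⟨x, hx, rfl⟩
    rw [AlgHom.map_adjoin_singleton] at h1
    have h2 : e.symm.toAlgHom f = h := e.symm_apply_apply h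
    rw [h2] at h1
    exact h1
  have hNa : N ∈ Algebra.adjoin K {h} := hmem _ hN'a
  have hsa : s ∈ Algebra.adjoin K {h} := hmem _ hs'a
  have hNn : IsNilpotent N := hN'n.map e.symm
  have hh : h = N + s := by
    rw [hN, hs, ← map_add, ← hfs, hf, e.symm_apply_apply]
  have hcomm : ∀ x ∈ Algebra.adjoin K {h}, ∀ y ∈ Algebra.adjoin K {h}, Commute x y := by
    intro x hx y hy
    have := Algebra.isMulCommutative_adjoin (R := K) (s := {h}) (by simp)
    have h3 := congrArg Subtype.val (this.is_comm.comm (⟨x, hx⟩ : Algebra.adjoin K {h}) ⟨y, hy⟩)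
    exact h3
  have hha : h ∈ Algebra.adjoin K {h} := Algebra.self_mem_adjoin_singleton K h
  have hsu : IsUnit s := by
    have h1 : s = h + (-N) := by rw [hh]; abel
    rw [h1]
    exact hNn.neg.isUnit_add_left_of_commute hu ((hcomm _ (Subalgebra.neg_mem _ hNa) _ hha))
  obtain ⟨t, hta, hst, hts⟩ := exists_inv_mem (Algebra.adjoin K {h}) s hsa hsu
  set ν := t * N with hν
  have hνa : ν ∈ Algebra.adjoin K {h} := Subalgebra.mul_mem _ hta hNa
  have hνn : IsNilpotent ν := (hcomm _ hta _ hNa).isNilpotent_mul_left hNn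
  have hsν : s * ν = N := by rw [hν, ← mul_assoc, hst, one_mul]
  have hh2 : h = s * (1 + ν) := by rw [mul_add, mul_one, hsν, add_comm, ← hh]
  obtain ⟨m, hm⟩ := hνn
  have hm1 : ν ^ (m + 2) = 0 := by rw [pow_add, hm, zero_mul]
  set Y := ∑ j ∈ Finset.range (m + 2), (bp K j).coeff 1 • ν ^ j with hY
  have hYa : Y ∈ Algebra.adjoin K {h} :=
    Subalgebra.sum_mem _ fun j _ => Subalgebra.smul_mem _ (Subalgebra.pow_mem _ hνa j) _
  have hYν : Y = ν * (1 + ν * ∑ j ∈ Finset.range m, (bp K (j + 2)).coeff 1 • ν ^ j) := by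
    rw [hY, Finset.sum_range_succ', Finset.sum_range_succ', bp_zero, zero_add, bp_one, coeff_X_one,
      one_smul, pow_one, coeff_one]
    simp only [one_ne_zero, if_false, zero_smul, add_zero]
    rw [mul_add, mul_one, Finset.mul_sum, Finset.mul_sum, add_comm]
    congr 1
    refine Finset.sum_congr rfl fun j _ => ?_
    rw [mul_smul_comm, mul_smul_comm, ← mul_assoc, ← pow_two, ← pow_add]
    congr 2
    omega
  have hwa : ∑ j ∈ Finset.range m, (bp K (j + 2)).coeff 1 • ν ^ j ∈ Algebra.adjoin K {h} :=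
    Subalgebra.sum_mem _ fun j _ => Subalgebra.smul_mem _ (Subalgebra.pow_mem _ hνa j) _
  have hνn' : IsNilpotent ν := ⟨m, hm⟩
  have hYn : IsNilpotent Y := by
    rw [hYν]
    refine Commute.isNilpotent_mul_right ?_ hνn'
    exact hcomm _ hνa _ (Subalgebra.add_mem _ (Subalgebra.one_mem _) (Subalgebra.mul_mem _ hνa hwa))
  refine ⟨Y, ?_, hYa, hYn, ?_⟩
  · obtain ⟨Θ, hΘ⟩ := aeval_nodal_of_isSemisimple (L := L) s hsu (by
      have : (Matrix.toLinAlgEquiv' s : Module.End K (n → K)) = s' := e.apply_symm_apply s'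
      rw [this]
      exact hs'ss)
    obtain ⟨P₁, hP₁, hT₁⟩ := exists_ss (s.map (algebraMap K L)) Θ hΘ
    have hνL : (ν.map (algebraMap K L)) ^ (m + 2) = 0 := by
      have := map_pow ((algebraMap K L).mapMatrix (m := n)) ν (m + 2)
      rw [hm1, map_zero] at this
      exact this.symm
    obtain ⟨P₂, hP₂, hT₂⟩ := exists_unip (ν.map (algebraMap K L)) (m + 1) hνL
    have hT : (tau L).mapMatrix (P₁ * P₂) = ∑ j ∈ Finset.range (m + 2),
        bp L j • ((ν.map (algebraMap K L)) ^ j).map (algebraMap L L[X]) := by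
      rw [map_mul, hT₁, one_mul, hT₂]
    have hent : ∀ a i j, ((P₁ * P₂).map (fun x => (tau L x).coeff a)) i j
        = ∑ l ∈ Finset.range (m + 2), (bp L l).coeff a * ((ν ^ l).map (algebraMap K L)) i j := by
      intro a i j
      have h1 := congrFun (congrFun hT i) j
      rw [Matrix.map_apply]
      have h2 : (tau L) ((P₁ * P₂) i j) = ∑ l ∈ Finset.range (m + 2),
          bp L l * C (((ν ^ l).map (algebraMap K L)) i j) := by
        rw [AlgHom.mapMatrix_apply, Matrix.map_apply] at h1
        rw [h1, Matrix.sum_apply]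
        refine Finset.sum_congr rfl fun l _ => ?_
        rw [Matrix.smul_apply, smul_eq_mul, Matrix.map_apply]
        have h3 := map_pow ((algebraMap K L).mapMatrix (m := n)) ν l
        rw [RingHom.mapMatrix_apply, RingHom.mapMatrix_apply] at h3
        rw [← h3]
        rfl
      rw [h2, finsetSum_coeff]
      exact Finset.sum_congr rfl fun l _ => coeff_mul_C _ _ _
    refine ⟨P₁ * P₂, ?_, ?_, ?_⟩
    · intro k
      rw [map_mul, hP₁, hP₂, hh2]
      have h4 := map_mul ((algebraMap K L).mapMatrix (m := n)) s (1 + ν)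
      have h5 := map_add ((algebraMap K L).mapMatrix (m := n)) 1 ν
      rw [map_one] at h5
      rw [h5] at h4
      rw [RingHom.mapMatrix_apply, RingHom.mapMatrix_apply, RingHom.mapMatrix_apply] at h4
      rw [h4]
      have hc : Commute (s.map (algebraMap K L)) (1 + ν.map (algebraMap K L)) := by
        have h6 := (hcomm s hsa (1 + ν) (Subalgebra.add_mem _ (Subalgebra.one_mem _) hνa)).map
          ((algebraMap K L).mapMatrix (m := n))
        rw [h5] at h6
        exact h6
      rw [hc.mul_pow]
    · ext i j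
      rw [hent, Finset.sum_range_succ', bp_zero, coeff_one_zero, one_mul, pow_zero]
      rw [Finset.sum_eq_zero (fun l _ => by rw [bp_coeff_zero, zero_mul]), zero_add]
      simp [Matrix.one_apply, Matrix.map_apply]
    · ext i j
      rw [hent, hY, Matrix.map_apply, Matrix.sum_apply, map_sum]
      refine Finset.sum_congr rfl fun l _ => ?_
      rw [Matrix.smul_apply, smul_eq_mul, map_mul, Matrix.map_apply, ← bp_map (algebraMap K L) l,
        coeff_map]
  · intro hY0
    rw [hYν] at hY0
    have hwu : IsUnit (1 + ν * ∑ j ∈ Finset.range m, (bp K (j + 2)).coeff 1 • ν ^ j) :=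
      ((hcomm _ hνa _ hwa).isNilpotent_mul_right hνn').isUnit_one_add
    rw [hwu.mul_left_eq_zero] at hY0
    have hN0 : N = 0 := by rw [← hsν, hY0, mul_zero]
    have hN'0 : N' = 0 := by
      rw [hN] at hN0
      exact (map_eq_zero_iff _ e.symm.injective).mp hN0
    rw [hfs, hN'0, zero_add]
    exact hs'ss

end log
end GP
end MPb685ZO
end

section
/-!
MP_b685ef_ag, zero-one law, module GP2: properties of the logarithm `IsLog`.
-/
open Polynomial

namespace MPb685ZO
namespace GP

section ring
variable {L : Type*} [Field L]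

/-- the substitution `X ↦ m X`, `[θ] ↦ [θ ^ m]` -/
noncomputable def sig (L : Type*) [Field L] (m : ℕ) : R0 L →ₐ[L] R0 L :=
  MonoidAlgebra.liftNCAlgHom
    ((MonoidAlgebra.singleOneAlgHom (R := L) (A := L[X]) (M := Lˣ)).comp
      (Polynomial.aeval (C (m : L) * X)))
    ((MonoidAlgebra.of L[X] Lˣ).comp (powMonoidHom m)) (fun _ _ => Commute.all _ _)

lemma sig_single (m : ℕ) (θ : Lˣ) (p : L[X]) :
    sig L m (MonoidAlgebra.single θ p) = MonoidAlgebra.single (θ ^ m) (p.comp (C (m : L) * X)) := by
  simp [sig, MonoidAlgebra.liftNCAlgHom, MonoidAlgebra.single_mul_single, Polynomial.aeval_def,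
    Polynomial.comp]

lemma ext_single {A : Type*} [CommRing A] [Algebra L A] (φ ψ : R0 L →ₐ[L] A)
    (h : ∀ θ p, φ (MonoidAlgebra.single θ p) = ψ (MonoidAlgebra.single θ p)) : φ = ψ := by
  refine AlgHom.ext fun x => ?_
  rw [← MonoidAlgebra.sum_coeff_single x, Finsupp.sum, map_sum, map_sum]
  exact Finset.sum_congr rfl fun θ _ => h θ _

lemma ev_sig (m k : ℕ) (x : R0 L) : ev L k (sig L m x) = ev L (m * k) x := by
  have : (ev L k).comp (sig L m) = ev L (m * k) := by
    apply ext_single
    intro θ p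
    rw [AlgHom.comp_apply, sig_single, ev_single, ev_single, eval_comp]
    simp [pow_mul]
  exact congrArg (fun f => f x) this

lemma tau_sig (m : ℕ) (x : R0 L) : tau L (sig L m x) = (tau L x).comp (C (m : L) * X) := by
  have : (tau L).comp (sig L m) = (Polynomial.aeval (C (m : L) * X)).comp (tau L) := by
    apply ext_single
    intro θ p
    rw [AlgHom.comp_apply, sig_single, tau_single, AlgHom.comp_apply, tau_single]
    rfl
  exact congrArg (fun f => f x) this

end ring

section coeff
variable {L : Type*} [Field L] {n : Type*} [Fintype n] [DecidableEq n]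

omit [DecidableEq n] in
lemma map_c0_mul (P Q : Matrix n n (R0 L)) :
    (P * Q).map (fun x => (tau L x).coeff 0)
      = P.map (fun x => (tau L x).coeff 0) * Q.map (fun x => (tau L x).coeff 0) := by
  ext i j
  simp only [Matrix.map_apply, Matrix.mul_apply, map_sum, map_mul, finsetSum_coeff,
    mul_coeff_zero]

omit [DecidableEq n] in
lemma map_c1_mul (P Q : Matrix n n (R0 L)) :
    (P * Q).map (fun x => (tau L x).coeff 1)
      = P.map (fun x => (tau L x).coeff 0) * Q.map (fun x => (tau L x).coeff 1)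
        + P.map (fun x => (tau L x).coeff 1) * Q.map (fun x => (tau L x).coeff 0) := by
  ext i j
  simp only [Matrix.map_apply, Matrix.mul_apply, map_sum, map_mul, finsetSum_coeff,
    Matrix.add_apply, mul_coeff_one, Finset.sum_add_distrib]

omit [Fintype n] [DecidableEq n] in
lemma map_c0_const (M : Matrix n n L) :
    (M.map (algebraMap L (R0 L))).map (fun x => (tau L x).coeff 0) = M := by
  ext i j
  rw [Matrix.map_apply, Matrix.map_apply, AlgHom.commutes]
  simp

omit [Fintype n] [DecidableEq n] in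
lemma map_c1_const (M : Matrix n n L) :
    (M.map (algebraMap L (R0 L))).map (fun x => (tau L x).coeff 1) = 0 := by
  ext i j
  rw [Matrix.map_apply, Matrix.map_apply, AlgHom.commutes]
  exact coeff_C_succ

lemma ev_const (k : ℕ) (M : Matrix n n L) :
    (ev L k).mapMatrix (M.map (algebraMap L (R0 L))) = M := by
  ext i j
  rw [AlgHom.mapMatrix_apply, Matrix.map_apply, Matrix.map_apply, AlgHom.commutes]
  rfl

end coeff

section log
variable {K : Type*} [Field K] {n : Type*} [Fintype n] [DecidableEq n]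
  {L : Type*} [Field L] [Algebra K L]

lemma map_mul' (M N : Matrix n n K) :
    (M * N).map (algebraMap K L) = M.map (algebraMap K L) * N.map (algebraMap K L) :=
  map_mul ((algebraMap K L).mapMatrix (m := n)) M N

lemma map_one' : (1 : Matrix n n K).map (algebraMap K L) = 1 :=
  map_one ((algebraMap K L).mapMatrix (m := n))

lemma map_pow' (M : Matrix n n K) (k : ℕ) :
    (M ^ k).map (algebraMap K L) = (M.map (algebraMap K L)) ^ k :=
  map_pow ((algebraMap K L).mapMatrix (m := n)) M k

/-- conjugation -/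
lemma IsLog.conj {h Y : Matrix n n K} (hl : IsLog L h Y) (b c : Matrix n n K) (hbc : c * b = 1)
    (hcb : b * c = 1) : IsLog L (b * h * c) (b * Y * c) := by
  obtain ⟨P, hP, h0, h1⟩ := hl
  refine ⟨(b.map (algebraMap K L)).map (algebraMap L (R0 L)) * P *
    (c.map (algebraMap K L)).map (algebraMap L (R0 L)), ?_, ?_, ?_⟩
  · intro k
    rw [map_mul, map_mul, ev_const, ev_const, hP, ← map_pow', ← map_pow', ← map_mul', ← map_mul']
    congr 1
    induction k with
    | zero => rw [pow_zero, pow_zero, mul_one, hcb]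
    | succ k ih =>
      rw [pow_succ, pow_succ, ← ih]
      calc b * (h ^ k * h) * c = b * h ^ k * (1 * (h * c)) := by noncomm_ring
        _ = b * h ^ k * (c * b * (h * c)) := by rw [hbc]
        _ = _ := by noncomm_ring
  · rw [map_c0_mul, map_c0_mul, map_c0_const, map_c0_const, h0, mul_one, ← map_mul', hcb, map_one']
  · rw [map_c1_mul, map_c1_mul, map_c0_mul, map_c0_const, map_c0_const, map_c1_const, map_c1_const,
      h0, h1, mul_zero, zero_add, zero_mul, add_zero, ← map_mul', ← map_mul']

/-- powers -/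
lemma IsLog.pow {h Y : Matrix n n K} (hl : IsLog L h Y) (m : ℕ) :
    IsLog L (h ^ m) ((m : K) • Y) := by
  obtain ⟨P, hP, h0, h1⟩ := hl
  refine ⟨P.map (sig L m), ?_, ?_, ?_⟩
  · intro k
    rw [map_pow', ← pow_mul, ← hP]
    ext i j
    rw [AlgHom.mapMatrix_apply, AlgHom.mapMatrix_apply, Matrix.map_apply, Matrix.map_apply,
      Matrix.map_apply, ev_sig]
  · rw [← h0]
    ext i j
    rw [Matrix.map_apply, Matrix.map_apply, Matrix.map_apply, tau_sig, coeff_zero_eq_eval_zero,
      coeff_zero_eq_eval_zero, eval_comp]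
    simp
  · ext i j
    have h2 := congrFun (congrFun h1 i) j
    rw [Matrix.map_apply, Matrix.map_apply] at h2
    rw [Matrix.map_apply, Matrix.map_apply, Matrix.map_apply, tau_sig, comp_C_mul_X_coeff,
      Matrix.smul_apply, smul_eq_mul, map_mul, ← h2, map_natCast]
    ring

variable [CharZero L]

lemma IsLog.inv {h h' Y Y' : Matrix n n K} (hl : IsLog L h Y) (hl' : IsLog L h' Y')
    (hh : h * h' = 1) (hh' : h' * h = 1) : Y' = -Y := by
  obtain ⟨P, hP, h0, h1⟩ := hl
  obtain ⟨P', hP', h0', h1'⟩ := hl'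
  have hPP : P * P' = 1 := by
    apply eq_of_ev
    intro k
    have hc : Commute h h' := by rw [Commute, SemiconjBy, hh, hh']
    rw [map_mul, hP, hP', map_one, ← map_pow', ← map_pow', ← map_mul', ← hc.mul_pow, hh, one_pow,
      map_one']
  have h2 := map_c1_mul P P'
  rw [hPP, h0, h0', h1, h1', one_mul, mul_one] at h2
  have h3 : (1 : Matrix n n (R0 L)).map (fun x => (tau L x).coeff 1) = 0 := by
    ext i j
    rw [Matrix.map_apply, Matrix.one_apply]
    split_ifs
    · simp [coeff_one]
    · simp
  rw [h3] at h2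
  ext i j
  have h4 := congrFun (congrFun h2 i) j
  rw [Matrix.zero_apply, Matrix.add_apply, Matrix.map_apply, Matrix.map_apply, ← map_add] at h4
  have h5 : Y' i j + Y i j = 0 := by
    apply (algebraMap K L).injective
    rw [← h4, map_zero]
  rw [Matrix.neg_apply]
  exact eq_neg_of_add_eq_zero_left h5

/-- A subspace of matrices which is stable under conjugation by `h` is stable under the bracket
with the logarithm of `h`. -/
lemma IsLog.bracket {h h' Y Y' : Matrix n n K} (hl : IsLog L h Y) (hl' : IsLog L h' Y')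
    (hh : h * h' = 1) (hh' : h' * h = 1) (S : Submodule K (Matrix n n K))
    (hS : ∀ x ∈ S, h * x * h' ∈ S) : ∀ x ∈ S, Y * x - x * Y ∈ S := by
  have hY' : Y' = -Y := hl.inv hl' hh hh'
  obtain ⟨P, hP, h0, h1⟩ := hl
  obtain ⟨P', hP', h0', h1'⟩ := hl'
  intro x hx
  by_contra hne
  obtain ⟨ψ, hψ, hψS⟩ := Submodule.exists_le_ker_of_notMem hne
  have hxk : ∀ k : ℕ, h ^ k * x * h' ^ k ∈ S := by
    intro k
    induction k with
    | zero => simpa using hx
    | succ k ih =>
      have := hS _ ih
      rw [pow_succ' h, pow_succ h']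
      convert this using 1
      noncomm_ring
  have hψe : ∀ M : Matrix n n K, ψ M = ∑ i, ∑ j, ψ (Matrix.single i j 1) * M i j := by
    intro M
    conv_lhs => rw [Matrix.matrix_eq_sum_single M]
    rw [map_sum]
    refine Finset.sum_congr rfl fun i _ => ?_
    rw [map_sum]
    refine Finset.sum_congr rfl fun j _ => ?_
    have : Matrix.single i j (M i j) = M i j • Matrix.single i j (1 : K) := by
      rw [Matrix.smul_single, smul_eq_mul, mul_one]
    rw [this, map_smul, smul_eq_mul, mul_comm]
  set Q := P * (x.map (algebraMap K L)).map (algebraMap L (R0 L)) * P' with hQ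
  set z : R0 L := ∑ i, ∑ j, algebraMap L (R0 L) (algebraMap K L (ψ (Matrix.single i j 1))) * Q i j
    with hz
  have hz0 : z = 0 := by
    apply eq_zero_of_ev
    intro k
    have h6 : (ev L k).mapMatrix Q = (h ^ k * x * h' ^ k).map (algebraMap K L) := by
      rw [hQ, map_mul, map_mul, hP, hP', ev_const, ← map_pow', ← map_pow', ← map_mul', ← map_mul']
    have h7 : ψ (h ^ k * x * h' ^ k) = 0 := hψS (hxk k)
    rw [hz, map_sum]
    have h8 : ∀ i ∈ Finset.univ, ev L k (∑ j, algebraMap L (R0 L) (algebraMap K L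
        (ψ (Matrix.single i j 1))) * Q i j) =
        algebraMap K L (∑ j, ψ (Matrix.single i j 1) * (h ^ k * x * h' ^ k) i j) := by
      intro i _
      rw [map_sum, map_sum]
      refine Finset.sum_congr rfl fun j _ => ?_
      rw [map_mul, AlgHom.commutes, map_mul]
      have h9 := congrFun (congrFun h6 i) j
      rw [AlgHom.mapMatrix_apply, Matrix.map_apply, Matrix.map_apply] at h9
      rw [h9]
      rfl
    rw [Finset.sum_congr rfl h8, ← map_sum, ← hψe, h7, map_zero]
  have hQ1 : Q.map (fun x => (tau L x).coeff 1) = (Y * x - x * Y).map (algebraMap K L) := by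
    have e1 : (-Y).map (algebraMap K L) = -(Y.map (algebraMap K L)) :=
      map_neg ((algebraMap K L).mapMatrix (m := n)) Y
    have e2 : (Y * x - x * Y).map (algebraMap K L) = Y.map (algebraMap K L) *
        x.map (algebraMap K L) - x.map (algebraMap K L) * Y.map (algebraMap K L) := by
      rw [← map_mul', ← map_mul']
      exact map_sub ((algebraMap K L).mapMatrix (m := n)) (Y * x) (x * Y)
    rw [hQ, map_c1_mul, map_c1_mul, map_c0_mul, map_c0_const, map_c1_const, h0, h0', h1, h1', hY',
      mul_zero, zero_add, one_mul, mul_one, e1, e2, mul_neg]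
    abel
  have hz1 : (tau L z).coeff 1 = algebraMap K L (ψ (Y * x - x * Y)) := by
    rw [hψe, hz, map_sum, finsetSum_coeff, map_sum]
    refine Finset.sum_congr rfl fun i _ => ?_
    rw [map_sum, finsetSum_coeff, map_sum]
    refine Finset.sum_congr rfl fun j _ => ?_
    have h9 := congrFun (congrFun hQ1 i) j
    rw [Matrix.map_apply, Matrix.map_apply] at h9
    rw [map_mul, AlgHom.commutes, map_mul, ← h9, Polynomial.algebraMap_apply, coeff_C_mul]
    rfl
  rw [hz0, map_zero, coeff_zero] at hz1
  apply hψ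
  apply (algebraMap K L).injective
  rw [← hz1, map_zero]

end log
end GP
end MPb685ZO
end

section
/-!
MP_b685ef_ag, zero-one law, module TA: Theorem A.
-/
open Polynomial

namespace MPb685ZO

namespace TA

open GP

section
variable {K : Type*} [Field K] [CharZero K] {V : Type*} [AddCommGroup V] [Module K V]
  [FiniteDimensional K V] {n : Type*} [Fintype n] [DecidableEq n]

omit [CharZero K] in
lemma nEig_eq (b : Module.Basis n K V) (f : Module.End K V) :
    nEig f = nE (((Matrix.toLinAlgEquiv b).symm f).map (algebraMap K (AlgebraicClosure K))) := by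
  have h1 : ((Matrix.toLinAlgEquiv b).symm f).charpoly = LinearMap.charpoly f := by
    rw [← LinearMap.charpoly_toMatrix f b]
    rfl
  have h2 : (((Matrix.toLinAlgEquiv b).symm f).map
      (algebraMap K (AlgebraicClosure K))).charpoly =
      (LinearMap.charpoly f).map (algebraMap K (AlgebraicClosure K)) := by
    rw [← h1]
    exact Matrix.charpoly_map _ _
  rw [nEig, nE, h2]
  congr 1
  ext x
  have hne : LinearMap.charpoly f ≠ 0 := (LinearMap.charpoly_monic f).ne_zero
  rw [mem_rootSet, Set.mem_ofPred_eq, IsRoot.def, eval_map_algebraMap]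
  exact ⟨fun h => h.2, fun h => ⟨hne, h⟩⟩

omit [CharZero K] in
lemma nEig_conj (f a c : Module.End K V) (hac : a * c = 1) (hca : c * a = 1) :
    nEig (a * f * c) = nEig f := by
  have h : LinearMap.charpoly (a * f * c) = LinearMap.charpoly f := by
    let u : (Module.End K V)ˣ := ⟨a, c, hac, hca⟩
    let w : V ≃ₗ[K] V := LinearMap.GeneralLinearGroup.toLinearEquiv u
    have := LinearEquiv.charpoly_conj w f
    rw [← this]
    rfl
  rw [nEig, nEig, h]

end

section
variable {L : Type*} [Field L] [CharZero L] [IsAlgClosed L] {n : Type*} [Fintype n] [DecidableEq n]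

omit [CharZero L] [IsAlgClosed L] in
lemma det_nat {R R' : Type*} [CommRing R] [CommRing R'] [Algebra L R] [Algebra L R']
    (φ : R →ₐ[L] R') (B : Matrix n n R) (r : ℕ) (P Q : Fin r → L[X]) :
    φ (Matrix.of fun i j => (aeval B (P i * Q j)).trace).det
      = (Matrix.of fun i j => (aeval (φ.mapMatrix B) (P i * Q j)).trace).det := by
  rw [AlgHom.map_det]
  congr 1
  ext i j
  rw [AlgHom.mapMatrix_apply, Matrix.map_apply, Matrix.of_apply, Matrix.of_apply,
    Polynomial.aeval_algHom_apply φ.mapMatrix B (P i * Q j), AlgHom.mapMatrix_apply]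
  exact AddMonoidHom.map_trace (φ : R →+* R').toAddMonoidHom _

lemma ort (A Y : Matrix n n L) (hA : IsUnit A) (h : Matrix n n L) (P : Matrix n n (R0 L))
    (hP : ∀ k, (ev L k).mapMatrix P = h ^ k) (h0 : P.map (fun x => (tau L x).coeff 0) = 1)
    (h1 : P.map (fun x => (tau L x).coeff 1) = Y) (hle : ∀ k, nE (A * h ^ k) ≤ nE A)
    (p : L[X]) (hp : IsNilpotent (aeval A p)) : (aeval A p * Y).trace = 0 := by
  set Q := A.map (algebraMap L (R0 L)) * P with hQ
  refine specORT A Y hA ((tau L).mapMatrix Q) ?_ ?_ ?_ p hp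
  · have := map_c0_mul (A.map (algebraMap L (R0 L))) P
    rw [map_c0_const, h0, mul_one] at this
    exact this
  · have := map_c1_mul (A.map (algebraMap L (R0 L))) P
    rw [map_c0_const, map_c1_const, h1, zero_mul, add_zero] at this
    exact this
  · intro P' Q'
    rw [← det_nat]
    have : (Matrix.of fun i j => (aeval Q (P' i * Q' j)).trace).det = 0 := by
      apply eq_zero_of_ev
      intro k
      rw [det_nat, hQ, map_mul, ev_const, hP]
      exact HAN.det_eq_zero (A * h ^ k) (nE A) (hle k) P' Q'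
    rw [this, map_zero]

end

end TA

open GP TA in
/-- **Theorem A.** Let `V` be a semisimple representation of `G` over a field of characteristic 0
and `U` a normal subgroup of finite index. An element `g` with the maximal number of distinct
eigenvalues in its coset `gU` acts semisimply on `V`. -/
theorem theoremA {K : Type*} [Field K] [CharZero K] {V : Type*} [AddCommGroup V] [Module K V]
    [FiniteDimensional K V] {G : Type*} [Group G] (ρ : Representation K G V)
    (hss : SSOn ρ Set.univ) (U : Subgroup G) [U.Normal] [U.FiniteIndex] (g : G)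
    (hmax : ∀ u ∈ U, nEig (ρ (g * u)) ≤ nEig (ρ g)) : Module.End.IsSemisimple (ρ g) := by
  classical
  set b := Module.finBasis K V with hb
  set L := AlgebraicClosure K with hL
  have : CharZero L := charZero_of_injective_algebraMap (algebraMap K L).injective
  set e := Matrix.toLinAlgEquiv b with he
  let M : G → Matrix (Fin (Module.finrank K V)) (Fin (Module.finrank K V)) K :=
    fun γ => e.symm (ρ γ)
  have hM1 : M 1 = 1 := by
    show e.symm (ρ 1) = 1
    rw [map_one, map_one]
  have hMmul : ∀ a c, M (a * c) = M a * M c := by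
    intro a c
    show e.symm (ρ (a * c)) = _
    rw [map_mul, map_mul]
  have hMpow : ∀ a (k : ℕ), M (a ^ k) = M a ^ k := by
    intro a k
    show e.symm (ρ (a ^ k)) = _
    rw [map_pow, map_pow]
  have hMinv : ∀ a, M a * M a⁻¹ = 1 := fun a => by rw [← hMmul, mul_inv_cancel, hM1]
  have hMinv' : ∀ a, M a⁻¹ * M a = 1 := fun a => by rw [← hMmul, inv_mul_cancel, hM1]
  have hMu : ∀ a, IsUnit (M a) := fun a => ⟨⟨M a, M a⁻¹, hMinv a, hMinv' a⟩, rfl⟩
  have hρinv : ∀ a, ρ a * ρ a⁻¹ = 1 := fun a => by rw [← map_mul, mul_inv_cancel, map_one]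
  have hρinv' : ∀ a, ρ a⁻¹ * ρ a = 1 := fun a => by rw [← map_mul, inv_mul_cancel, map_one]
  let gen : G → Prop := fun γ => ∀ u ∈ U, nEig (ρ (γ * u)) ≤ nEig (ρ γ)
  have hgenconj : ∀ γ, gen γ → ∀ a : G, gen (a * γ * a⁻¹) := by
    intro γ hγ a u hu
    have hu' : a⁻¹ * u * a ∈ U := by
      have := ‹U.Normal›.conj_mem u hu a⁻¹
      rwa [inv_inv] at this
    have h1 : a * γ * a⁻¹ * u = a * (γ * (a⁻¹ * u * a)) * a⁻¹ := by group
    rw [h1, map_mul, map_mul, nEig_conj _ _ _ (hρinv a) (hρinv' a), map_mul ρ (a * γ), map_mul ρ a γ,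
      nEig_conj _ _ _ (hρinv a) (hρinv' a)]
    exact hγ _ hu'
  let N : Set (Module.End K V) := {x | ∃ γ, gen γ ∧ IsLog L (M γ) (e.symm x)}
  -- the logarithm of `M γ` is in the algebra generated by `M γ` and nilpotent
  have hN0 : ∀ γ x, IsLog L (M γ) (e.symm x) →
      e.symm x ∈ Algebra.adjoin K {M γ} ∧ IsNilpotent (e.symm x) := by
    intro γ x hx
    obtain ⟨Y, hY1, hY2, hY3, -⟩ := exists_log (L := L) (M γ) (hMu γ)
    rw [hx.unique hY1]
    exact ⟨hY2, hY3⟩
  have hnil : ∀ x ∈ N, IsNilpotent x := by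
    rintro x ⟨γ, -, hx⟩
    have := (hN0 γ x hx).2.map e
    rwa [e.apply_symm_apply] at this
  have hconj : ∀ x ∈ N, ∀ a : G, ρ a * x * ρ a⁻¹ ∈ N := by
    rintro x ⟨γ, hγ, hx⟩ a
    refine ⟨a * γ * a⁻¹, hgenconj γ hγ a, ?_⟩
    rw [hMmul, hMmul, map_mul, map_mul]
    exact hx.conj (M a) (M a⁻¹) (hMinv' a) (hMinv a)
  have hstab : ∀ x ∈ N, ∀ W : Submodule K V, Stab ρ Set.univ W → ∀ w ∈ W, x w ∈ W := by
    rintro x ⟨γ, -, hx⟩ W hW w hw
    have h1 : x ∈ Algebra.adjoin K {ρ γ} := by
      have h2 : e.toAlgHom (e.symm x) ∈ (Algebra.adjoin K {M γ}).map e.toAlgHom :=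
        Subalgebra.mem_map.mpr ⟨_, (hN0 γ x hx).1, rfl⟩
      rw [AlgHom.map_adjoin_singleton] at h2
      have h3 : e.toAlgHom (M γ) = ρ γ := e.apply_symm_apply _
      have h4 : e.toAlgHom (e.symm x) = x := e.apply_symm_apply _
      rwa [h3, h4] at h2
    have h5 : ∀ y ∈ Algebra.adjoin K {ρ γ}, ∀ w ∈ W, y w ∈ W := by
      intro y hy
      induction hy using Algebra.adjoin_induction with
      | mem y hy =>
        rw [Set.mem_singleton_iff] at hy
        subst hy
        exact hW γ (Set.mem_univ _)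
      | algebraMap r =>
        intro w hw
        rw [Module.algebraMap_end_apply]
        exact W.smul_mem r hw
      | add y z _ _ hy hz => exact fun w hw => W.add_mem (hy w hw) (hz w hw)
      | mul y z _ _ hy hz => exact fun w hw => hy _ (hz w hw)
    exact h5 x h1 w hw
  have hspan : ∀ y ∈ Submodule.span K N, ∀ a : G, ρ a * y * ρ a⁻¹ ∈ Submodule.span K N := by
    intro y hy a
    induction hy using Submodule.span_induction with
    | mem y hy => exact Submodule.subset_span (hconj y hy a)
    | zero => simp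
    | add y z _ _ hy hz =>
      rw [mul_add, add_mul]
      exact Submodule.add_mem _ hy hz
    | smul c y _ hy =>
      rw [mul_smul_comm, smul_mul_assoc]
      exact Submodule.smul_mem _ _ hy
  have hbr : ∀ x ∈ N, ∀ y ∈ Submodule.span K N, x * y - y * x ∈ Submodule.span K N := by
    rintro x ⟨γ, -, hx⟩ y hy
    obtain ⟨Y', hY', -, -, -⟩ := exists_log (L := L) (M γ⁻¹) (hMu γ⁻¹)
    have h1 := hx.bracket hY' (hMinv γ) (hMinv' γ) ((Submodule.span K N).comap e.toLinearMap) (by
      intro z hz
      rw [Submodule.mem_comap] at hz ⊢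
      have h2 := hspan _ hz γ
      have h3 : e.toLinearMap (M γ * z * M γ⁻¹) = ρ γ * e.toLinearMap z * ρ γ⁻¹ := by
        show e (M γ * z * M γ⁻¹) = ρ γ * e z * ρ γ⁻¹
        rw [map_mul, map_mul]
        show e (e.symm (ρ γ)) * e z * e (e.symm (ρ γ⁻¹)) = _
        rw [e.apply_symm_apply, e.apply_symm_apply]
      rw [h3]
      exact h2) (e.symm y) (by
        rw [Submodule.mem_comap]
        show e (e.symm y) ∈ _
        rw [e.apply_symm_apply]
        exact hy)
    rw [Submodule.mem_comap] at h1
    have h2 : e.toLinearMap (e.symm x * e.symm y - e.symm y * e.symm x) = x * y - y * x := by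
      show e _ = _
      rw [map_sub, map_mul, map_mul, e.apply_symm_apply, e.apply_symm_apply]
    rwa [h2] at h1
  have hm0 : U.index ≠ 0 := Subgroup.FiniteIndex.index_ne_zero
  have htr : ∀ x ∈ N, ∀ y ∈ N, LinearMap.trace K V (x * y) = 0 := by
    rintro x ⟨γ, hγ, hx⟩ y ⟨δ, -, hy⟩
    have h1 : LinearMap.trace K V (x * y) = (e.symm x * e.symm y).trace := by
      rw [LinearMap.trace_eq_matrix_trace K b (x * y), ← map_mul]
      rfl
    obtain ⟨P, hP, hP0, hP1⟩ := hy.pow U.index
    have hxa := (hN0 γ x hx).1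
    rw [Algebra.adjoin_singleton_eq_range_aeval] at hxa
    obtain ⟨q, hq⟩ := hxa
    have hq' : aeval (M γ) q = e.symm x := hq
    have hqL : aeval ((M γ).map (algebraMap K L)) (q.map (algebraMap K L))
        = (e.symm x).map (algebraMap K L) := by
      rw [Polynomial.aeval_map_algebraMap, ← hq']
      exact Polynomial.aeval_algHom_apply ((Algebra.ofId K L).mapMatrix (m := Fin _)) (M γ) q
    have h2 := ort ((M γ).map (algebraMap K L)) (((U.index : K) • e.symm y).map (algebraMap K L))
      ((hMu γ).map ((algebraMap K L).mapMatrix (m := Fin _)))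
      ((M δ ^ U.index).map (algebraMap K L)) P hP hP0 hP1 (by
        intro k
        rw [← map_pow', ← map_mul', ← hMpow, ← hMpow, ← hMmul]
        have h3 : (δ ^ U.index) ^ k ∈ U := Subgroup.pow_mem _ (Subgroup.pow_index_mem U δ) k
        have h4 := hγ _ h3
        rw [nEig_eq b, nEig_eq b] at h4
        exact h4) (q.map (algebraMap K L)) (by
        rw [hqL]
        exact (hN0 γ x hx).2.map ((algebraMap K L).mapMatrix (m := Fin _)))
    rw [hqL, ← map_mul', mul_smul_comm] at h2
    have h3 : algebraMap K L ((U.index : K) * (e.symm x * e.symm y).trace) = 0 := by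
      rw [← h2, ← smul_eq_mul, ← Matrix.trace_smul]
      exact AddMonoidHom.map_trace (algebraMap K L).toAddMonoidHom _
    rw [h1]
    have h4 := (map_eq_zero_iff _ (algebraMap K L).injective).mp h3
    rcases mul_eq_zero.mp h4 with h5 | h5
    · exact absurd (Nat.cast_eq_zero.mp h5) hm0
    · exact h5
  have hzero := specLIE ρ hss N hnil hconj hstab hbr htr
  obtain ⟨Y, hY1, -, -, hY4⟩ := exists_log (L := L) (M g) (hMu g)
  have hY0 : e Y = 0 := by
    apply hzero
    refine ⟨g, hmax, ?_⟩
    rw [e.symm_apply_apply]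
    exact hY1
  have hY00 : Y = 0 := (map_eq_zero_iff _ e.injective).mp hY0
  have h1 := hY4 hY00
  refine (LinearEquiv.isSemisimple_iff (ρ g) _ b.equivFun ?_).mpr h1
  refine LinearMap.ext fun v => ?_
  exact (LinearMap.toMatrix_mulVec_repr b b (ρ g) v).symm

end MPb685ZO
end
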