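import Pool.Agent.Lib.MP_b685ef_ag.ZO.Defs
import Pool.Agent.Lib.MP_b685ef_ag.ZO.RNK
import Pool.Agent.Lib.MP_b685ef_ag.ZO.ENV
import Pool.Agent.Lib.MP_b685ef_ag.ZO.TA
import Pool.Agent.Lib.MP_b685ef_ag.ZO.JM

section
/-!
MP_b685ef_ag, zero-one law, module CYC: groups topologically generated by one element modulo a
closed normal subgroup.
-/
open Topology
open scoped Pointwise

namespace MPb685ZO
namespace CYC

variable {Γ : Type*} [Group Γ]

lemma mem_closure_iff (Γ₀ : Subgroup Γ) [Γ₀.Normal] (φ x : Γ) :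
    x ∈ Subgroup.closure ((Γ₀ : Set Γ) ∪ {φ}) ↔ ∃ n : ℤ, ∃ c ∈ Γ₀, φ ^ n * c = x := by
  rw [Subgroup.closure_union, Subgroup.closure_eq, ← Subgroup.zpowers_eq_closure, sup_comm,
    Subgroup.mem_sup_of_normal_right]
  constructor
  · rintro ⟨y, ⟨n, rfl⟩, z, hz, rfl⟩
    exact ⟨n, z, hz, rfl⟩
  · rintro ⟨n, c, hc, rfl⟩
    exact ⟨φ ^ n, ⟨n, rfl⟩, c, hc, rfl⟩

variable [TopologicalSpace Γ] [IsTopologicalGroup Γ]

theorem finiteIndex (Γ₀ : Subgroup Γ) [Γ₀.Normal] (φ a : Γ)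
    (hφ : (Subgroup.closure ((Γ₀ : Set Γ) ∪ {φ})).topologicalClosure = ⊤) (d : ℕ) (hd : d ≠ 0)
    (ha : (φ ^ d)⁻¹ * a ∈ Γ₀) :
    (Subgroup.closure ((Γ₀ : Set Γ) ∪ {a})).topologicalClosure.FiniteIndex := by
  set H := (Subgroup.closure ((Γ₀ : Set Γ) ∪ {a})).topologicalClosure with hH
  have hle : Subgroup.closure ((Γ₀ : Set Γ) ∪ {a}) ≤ H := Subgroup.le_topologicalClosure _
  have hΓH : Γ₀ ≤ H := fun x hx => hle (Subgroup.subset_closure (Or.inl hx))
  have haH : a ∈ H := hle (Subgroup.subset_closure (Or.inr rfl))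
  have hφd : φ ^ d ∈ H := by
    have h1 : φ ^ d = a * ((φ ^ d)⁻¹ * a)⁻¹ := by group
    rw [h1]
    exact H.mul_mem haH (H.inv_mem (hΓH ha))
  have hHc : IsClosed (H : Set Γ) := Subgroup.isClosed_topologicalClosure _
  let T : Set Γ := ⋃ i : Fin d, (fun x => φ ^ (i : ℕ) * x) '' (H : Set Γ)
  have hTc : IsClosed T := by
    apply isClosed_iUnion_of_finite
    intro i
    exact (isClosedMap_mul_left (φ ^ (i : ℕ))) _ hHc
  have hsub : ((Subgroup.closure ((Γ₀ : Set Γ) ∪ {φ}) : Subgroup Γ) : Set Γ) ⊆ T := by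
    intro x hx
    obtain ⟨n, c, hc, rfl⟩ := (mem_closure_iff Γ₀ φ x).mp hx
    have hd' : (0 : ℤ) < d := by exact_mod_cast Nat.pos_of_ne_zero hd
    have hr0 := Int.emod_nonneg n hd'.ne'
    have hr1 := Int.emod_lt_of_pos n hd'
    rw [Set.mem_iUnion]
    refine ⟨⟨(n % d).toNat, by omega⟩, (φ ^ d) ^ (n / d) * c, ?_, ?_⟩
    · exact H.mul_mem (H.zpow_mem hφd _) (hΓH hc)
    · simp only
      rw [← zpow_natCast φ ((n % d).toNat), Int.toNat_of_nonneg hr0, ← zpow_natCast φ d,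
        ← zpow_mul, ← mul_assoc, ← zpow_add]
      congr 2
      rw [add_comm]
      exact Int.mul_ediv_add_emod n d
  have hT : T = Set.univ := by
    rw [Set.eq_univ_iff_forall]
    intro x
    have hx : x ∈ (Subgroup.closure ((Γ₀ : Set Γ) ∪ {φ})).topologicalClosure := by
      rw [hφ]
      trivial
    exact closure_minimal hsub hTc hx
  have hsurj : Function.Surjective (fun i : Fin d => ((φ ^ (i : ℕ) : Γ) : Γ ⧸ H)) := by
    intro q
    obtain ⟨x, rfl⟩ := QuotientGroup.mk_surjective q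
    have hx : x ∈ T := by rw [hT]; trivial
    obtain ⟨i, h, hh, rfl⟩ := Set.mem_iUnion.mp hx
    refine ⟨i, ?_⟩
    rw [QuotientGroup.eq]
    simpa using hh
  have : Finite (Γ ⧸ H) := Finite.of_surjective _ hsurj
  exact Subgroup.finiteIndex_of_finite_quotient

theorem comm_mem (Γ₀ : Subgroup Γ) [Γ₀.Normal] (hcl : IsClosed (Γ₀ : Set Γ)) (φ : Γ)
    (hφ : (Subgroup.closure ((Γ₀ : Set Γ) ∪ {φ})).topologicalClosure = ⊤) (a b : Γ) :
    a * b * a⁻¹ * b⁻¹ ∈ Γ₀ := by
  have htop : ∀ x : Γ, x ∈ closure ((Subgroup.closure ((Γ₀ : Set Γ) ∪ {φ}) : Subgroup Γ) :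
      Set Γ) := by
    intro x
    have hx : x ∈ (Subgroup.closure ((Γ₀ : Set Γ) ∪ {φ})).topologicalClosure := by
      rw [hφ]
      trivial
    exact hx
  have h1 : ∀ a ∈ Subgroup.closure ((Γ₀ : Set Γ) ∪ {φ}),
      ∀ b ∈ Subgroup.closure ((Γ₀ : Set Γ) ∪ {φ}), a * b * a⁻¹ * b⁻¹ ∈ Γ₀ := by
    intro a ha b hb
    obtain ⟨n, c, hc, rfl⟩ := (mem_closure_iff Γ₀ φ a).mp ha
    obtain ⟨m, c', hc', rfl⟩ := (mem_closure_iff Γ₀ φ b).mp hb
    rw [← QuotientGroup.eq_one_iff]
    have e1 : ((c : Γ) : Γ ⧸ Γ₀) = 1 := (QuotientGroup.eq_one_iff _).mpr hc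
    have e2 : ((c' : Γ) : Γ ⧸ Γ₀) = 1 := (QuotientGroup.eq_one_iff _).mpr hc'
    simp only [QuotientGroup.mk_mul, QuotientGroup.mk_inv, QuotientGroup.mk_zpow, e1, e2, mul_one]
    rw [← zpow_add, ← zpow_neg, ← zpow_neg, ← zpow_add, ← zpow_add]
    have : n + m + -n + -m = 0 := by ring
    rw [this, zpow_zero]
  have h2 : ∀ a : Γ, ∀ b ∈ Subgroup.closure ((Γ₀ : Set Γ) ∪ {φ}), a * b * a⁻¹ * b⁻¹ ∈ Γ₀ := by
    intro a b hb
    have hc : IsClosed {x : Γ | x * b * x⁻¹ * b⁻¹ ∈ Γ₀} :=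
      hcl.preimage (by fun_prop)
    exact closure_minimal (fun x hx => h1 x hx b hb) hc (htop a)
  have hc : IsClosed {x : Γ | a * x * a⁻¹ * x⁻¹ ∈ Γ₀} :=
    hcl.preimage (by fun_prop)
  exact closure_minimal (fun x hx => h2 a x hx) hc (htop b)

end CYC
end MPb685ZO
end

section
/-!
MP_b685ef_ag, zero-one law, module CMP: the number of distinct eigenvalues of an operator whose
characteristic polynomial has rational coefficients is the number of distinct complex roots.
-/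
open Polynomial

namespace MPb685ZO

namespace CMP

/-- the number of distinct roots in an algebraically closed field does not depend on the field -/
lemma ncard_rootSet {F : Type*} [Field F] (p : F[X]) (E : Type*) [Field E] [Algebra F E]
    [IsAlgClosed E] : (p.rootSet E).ncard = p.natSepDegree := by
  classical
  rw [Polynomial.natSepDegree_eq_of_isAlgClosed E p, Polynomial.rootSet_def, Set.ncard_coe_finset]

end CMP

theorem specCMP {K : Type*} [Field K] [CharZero K] {V : Type*} [AddCommGroup V] [Module K V]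
    [FiniteDimensional K V] (A : Module.End K V) (c : Polynomial ℚ)
    (h : LinearMap.charpoly A = c.map (algebraMap ℚ K)) : nEig A = (c.rootSet ℂ).ncard := by
  unfold nEig
  rw [h, CMP.ncard_rootSet, CMP.ncard_rootSet, Polynomial.natSepDegree_map]

end MPb685ZO
end

section
/-!
MP_b685ef_ag, zero-one law, module CHE: a conjugation-invariant closed null set of a profinite
group contains the Frobenius elements of a set of points of Dirichlet density zero only.
-/
open Filter Topology MeasureTheory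
open scoped Pointwise

namespace MPb685ZO
namespace CHE

section measure

variable {Γ : Type*} [Group Γ] [TopologicalSpace Γ] [IsTopologicalGroup Γ] [CompactSpace Γ]
    [MeasurableSpace Γ] [BorelSpace Γ] (μ : Measure Γ)
    [μ.IsMulLeftInvariant] [IsProbabilityMeasure μ]

theorem meas_coset (U : Subgroup Γ) (g : Γ) :
    μ.real {y : Γ | ((y : Γ) : Γ ⧸ U) = (g : Γ ⧸ U)} = μ.real (U : Set Γ) := by
  have h : {y : Γ | ((y : Γ) : Γ ⧸ U) = (g : Γ ⧸ U)} = (fun y => g⁻¹ * y) ⁻¹' (U : Set Γ) := by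
    ext y
    simp only [Set.mem_ofPred_eq, Set.mem_preimage, SetLike.mem_coe]
    rw [eq_comm, QuotientGroup.eq]
  rw [h, measureReal_def, measureReal_def, measure_preimage_mul]

theorem meas_pre (U : Subgroup Γ) (hU : IsOpen (U : Set Γ)) [Finite (Γ ⧸ U)] (C : Set (Γ ⧸ U)) :
    μ.real {y : Γ | ((y : Γ) : Γ ⧸ U) ∈ C} = (Set.ncard C : ℝ) * μ.real (U : Set Γ) := by
  classical
  haveI : Fintype (Γ ⧸ U) := Fintype.ofFinite _
  have h : {y : Γ | ((y : Γ) : Γ ⧸ U) ∈ C} =
      ⋃ c ∈ C.toFinset, {y : Γ | ((y : Γ) : Γ ⧸ U) = c} := by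
    ext y
    simp
  rw [h, measureReal_biUnion_finset]
  · rw [Finset.sum_congr rfl (g := fun _ => μ.real (U : Set Γ))]
    · rw [Finset.sum_const, nsmul_eq_mul, Set.ncard_eq_toFinset_card' C]
    · intro c _
      obtain ⟨g, rfl⟩ := QuotientGroup.mk_surjective c
      exact meas_coset μ U g
  · intro a _ b _ hab
    rw [Function.onFun, Set.disjoint_left]
    intro y hy hy'
    exact hab (hy.symm.trans hy')
  · intro c _
    obtain ⟨g, rfl⟩ := QuotientGroup.mk_surjective c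
    have h : {y : Γ | ((y : Γ) : Γ ⧸ U) = (g : Γ ⧸ U)} = (fun y => g⁻¹ * y) ⁻¹' (U : Set Γ) := by
      ext y
      simp only [Set.mem_ofPred_eq, Set.mem_preimage, SetLike.mem_coe]
      rw [eq_comm, QuotientGroup.eq]
    rw [h]
    exact (hU.preimage (continuous_const_mul g⁻¹)).measurableSet

theorem ratio_eq (U : Subgroup Γ) (hU : IsOpen (U : Set Γ)) (C : Set (Γ ⧸ U)) :
    (Set.ncard C : ℝ) / (Nat.card (Γ ⧸ U) : ℝ) = μ.real {y : Γ | ((y : Γ) : Γ ⧸ U) ∈ C} := by
  haveI : Finite (Γ ⧸ U) := U.quotient_finite_of_isOpen hU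
  have h1 := meas_pre μ U hU Set.univ
  rw [Set.ncard_univ] at h1
  have h2 : {y : Γ | ((y : Γ) : Γ ⧸ U) ∈ (Set.univ : Set (Γ ⧸ U))} = Set.univ := by
    ext y; simp
  rw [h2, probReal_univ] at h1
  rw [meas_pre μ U hU C]
  have hne : (Nat.card (Γ ⧸ U) : ℝ) ≠ 0 := by
    intro h
    rw [h, zero_mul] at h1
    exact one_ne_zero h1
  field_simp
  rw [mul_assoc, ← h1, mul_one]

end measure

end CHE

theorem specCHE {Γ : Type*} [Group Γ] [TopologicalSpace Γ] [IsTopologicalGroup Γ] [CompactSpace Γ]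
    [T2Space Γ] [TotallyDisconnectedSpace Γ] [MeasurableSpace Γ] [BorelSpace Γ] (μ : Measure Γ)
    [μ.IsMulLeftInvariant] [IsProbabilityMeasure μ] [μ.Regular]
    {P : Type*} (N : P → ℕ) (d : ℝ) (Fr : P → Γ) (hcheb : Chebotarev N d Fr)
    (Z : Set Γ) (hZ : IsClosed Z) (hconj : ∀ g ∈ Z, ∀ b, b * g * b⁻¹ ∈ Z) (h0 : μ Z = 0)
    (B : Set P) (hB : ∀ x ∈ B, Fr x ∈ Z) :
    HasDirichletDensity N d Bᶜ 1 := by
  classical
  have hnn : ∀ (s : ℝ) (x : P), 0 ≤ (N x : ℝ) ^ (-s) := fun s x =>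
    Real.rpow_nonneg (Nat.cast_nonneg _) _
  have hD : ∀ᶠ s in 𝓝[>] d, (∑' x : P, (N x : ℝ) ^ (-s)) ≠ 0 := by
    have hnorm : (⊤ : Subgroup Γ).Normal := inferInstance
    have h := hcheb ⊤ isOpen_univ Set.univ (fun _ _ _ => Set.mem_univ _)
    unfold HasDirichletDensity at h
    have h1 : ((Set.ncard (Set.univ : Set (Γ ⧸ (⊤ : Subgroup Γ))) : ℝ) /
        (Nat.card (Γ ⧸ (⊤ : Subgroup Γ)) : ℝ)) ≠ 0 := by
      rw [CHE.ratio_eq μ ⊤ isOpen_univ]
      have h2 : {y : Γ | ((y : Γ) : Γ ⧸ (⊤ : Subgroup Γ)) ∈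
          (Set.univ : Set (Γ ⧸ (⊤ : Subgroup Γ)))} = Set.univ := by
        ext y; simp
      rw [h2, probReal_univ]
      exact one_ne_zero
    filter_upwards [h.eventually_ne h1] with s hs h3
    apply hs
    rw [h3, div_zero]
  have hsum : ∀ᶠ s in 𝓝[>] d, Summable (fun x : P => (N x : ℝ) ^ (-s)) := by
    filter_upwards [hD] with s hs
    by_contra h
    exact hs (tsum_eq_zero_of_not_summable h)
  have hmono : ∀ (s : ℝ), Summable (fun x : P => (N x : ℝ) ^ (-s)) → ∀ A A' : Set P, A ⊆ A' →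
      (∑' x : A, (N x : ℝ) ^ (-s)) ≤ ∑' x : A', (N x : ℝ) ^ (-s) := by
    intro s hs A A' hAA
    rw [tsum_subtype A (fun x : P => (N x : ℝ) ^ (-s)),
      tsum_subtype A' (fun x : P => (N x : ℝ) ^ (-s))]
    apply Summable.tsum_le_tsum
    · intro x
      exact Set.indicator_le_indicator_of_subset hAA (fun x => hnn s x) x
    · exact hs.indicator A
    · exact hs.indicator A'
  have key : ∀ ε : ℝ, 0 < ε → ∀ᶠ s in 𝓝[>] d,
      (∑' x : B, (N x : ℝ) ^ (-s)) / (∑' x : P, (N x : ℝ) ^ (-s)) < ε := by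
    intro ε hε
    obtain ⟨O, hZO, hOo, hO⟩ := Z.exists_isOpen_lt_of_lt (μ := μ) (ENNReal.ofReal ε) (by
      rw [h0]; exact ENNReal.ofReal_pos.mpr hε)
    obtain ⟨V, hV, hZV⟩ := compact_open_separated_mul_right hZ.isCompact hOo hZO
    obtain ⟨V', hV'V, hV'o, h1V'⟩ := mem_nhds_iff.mp hV
    obtain ⟨H, hH⟩ := ProfiniteGrp.exist_openNormalSubgroup_sub_open_nhds_of_one hV'o h1V'
    have hHn : H.toSubgroup.Normal := inferInstance
    let C : Set (Γ ⧸ H.toSubgroup) := (fun g : Γ => (g : Γ ⧸ H.toSubgroup)) '' Z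
    have hC : ∀ a ∈ C, ∀ b : Γ ⧸ H.toSubgroup, b * a * b⁻¹ ∈ C := by
      rintro _ ⟨g, hg, rfl⟩ b
      obtain ⟨b, rfl⟩ := QuotientGroup.mk_surjective b
      exact ⟨b * g * b⁻¹, hconj g hg b, rfl⟩
    have h := hcheb H.toSubgroup H.isOpen' C hC
    unfold HasDirichletDensity at h
    rw [CHE.ratio_eq μ H.toSubgroup H.isOpen' C] at h
    have hlt : μ.real {y : Γ | ((y : Γ) : Γ ⧸ H.toSubgroup) ∈ C} < ε := by
      have hsub : {y : Γ | ((y : Γ) : Γ ⧸ H.toSubgroup) ∈ C} ⊆ O := by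
        rintro y ⟨g, hg, hgy⟩
        have h1 : g⁻¹ * y ∈ H.toSubgroup := QuotientGroup.eq.mp hgy
        have h2 : g * (g⁻¹ * y) ∈ Z * V := Set.mul_mem_mul hg (hV'V (hH h1))
        have h3 := hZV h2
        simpa using h3
      have h4 : μ {y : Γ | ((y : Γ) : Γ ⧸ H.toSubgroup) ∈ C} < ENNReal.ofReal ε :=
        lt_of_le_of_lt (measure_mono hsub) hO
      rw [measureReal_def]
      exact (ENNReal.lt_ofReal_iff_toReal_lt (measure_ne_top _ _)).mp h4
    filter_upwards [h.eventually_lt_const hlt, hD, hsum] with s h1 h2 h3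
    have hpos : 0 < ∑' x : P, (N x : ℝ) ^ (-s) :=
      lt_of_le_of_ne (tsum_nonneg (hnn s)) (Ne.symm h2)
    refine lt_of_le_of_lt ?_ h1
    apply div_le_div_of_nonneg_right _ hpos.le
    apply hmono s h3
    intro x hx
    exact ⟨Fr x, hB x hx, rfl⟩
  unfold HasDirichletDensity
  rw [Metric.tendsto_nhds]
  intro ε hε
  filter_upwards [key ε hε, hD, hsum] with s h1 h2 h3
  have hadd : (∑' x : B, (N x : ℝ) ^ (-s)) + (∑' x : ↥Bᶜ, (N x : ℝ) ^ (-s)) =
      ∑' x : P, (N x : ℝ) ^ (-s) :=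
    Summable.tsum_add_tsum_compl (f := fun x : P => (N x : ℝ) ^ (-s)) (h3.subtype B)
      (h3.subtype Bᶜ)
  have hpos : 0 < ∑' x : P, (N x : ℝ) ^ (-s) :=
    lt_of_le_of_ne (tsum_nonneg (hnn s)) (Ne.symm h2)
  have hB0 : 0 ≤ (∑' x : B, (N x : ℝ) ^ (-s)) / (∑' x : P, (N x : ℝ) ^ (-s)) :=
    div_nonneg (tsum_nonneg (fun x => hnn s x)) hpos.le
  have heq : (∑' x : ↥Bᶜ, (N x : ℝ) ^ (-s)) / (∑' x : P, (N x : ℝ) ^ (-s)) =
      1 - (∑' x : B, (N x : ℝ) ^ (-s)) / (∑' x : P, (N x : ℝ) ^ (-s)) := by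
    rw [eq_sub_iff_add_eq, ← add_div, add_comm, hadd, div_self h2]
  rw [Real.dist_eq, heq]
  rw [show (1 - (∑' x : B, (N x : ℝ) ^ (-s)) / (∑' x : P, (N x : ℝ) ^ (-s)) - 1 : ℝ) =
    -((∑' x : B, (N x : ℝ) ^ (-s)) / (∑' x : P, (N x : ℝ) ^ (-s))) by ring, abs_neg,
    abs_of_nonneg hB0]
  exact h1

end MPb685ZO
end

section
/-!
# MP_b685ef_ag, zero-one law, module CL

Subspaces stable under a set of elements of a topological group are stable under the closure of
the subgroup generated by the set.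
-/
open Topology

namespace MPb685ZO

namespace CL

theorem mem_of_dual {K : Type*} [Field K] {V : Type*} [AddCommGroup V] [Module K V]
    (W : Submodule K V) (v : V)
    (h : ∀ f : Module.Dual K V, (∀ w ∈ W, f w = 0) → f v = 0) : v ∈ W := by
  by_contra hv
  obtain ⟨f, hf1, hf2⟩ := Submodule.exists_le_ker_of_notMem hv
  exact hf1 (h f (fun w hw => by simpa using hf2 hw))

theorem stab_inv {K : Type*} [Field K] {V : Type*} [AddCommGroup V] [Module K V]
    [FiniteDimensional K V] {G : Type*} [Group G] (ρ : Representation K G V)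
    (W : Submodule K V) (g : G) (h : ∀ w ∈ W, ρ g w ∈ W) : ∀ w ∈ W, ρ g⁻¹ w ∈ W := by
  have hinj : Function.Injective (ρ g) := by
    intro x y hxy
    have := congrArg (ρ g⁻¹) hxy
    simpa using this
  have hmap : W.map (ρ g) = W := by
    apply Submodule.eq_of_le_of_finrank_eq
    · rintro _ ⟨w, hw, rfl⟩
      exact h w hw
    · exact (Submodule.equivMapOfInjective (ρ g) hinj W).finrank_eq.symm
  intro w hw
  rw [← hmap] at hw
  obtain ⟨u, hu, rfl⟩ := hw
  simpa using hu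

end CL

theorem specCL {K : Type*} [Field K] [TopologicalSpace K] [T1Space K] {V : Type*}
    [AddCommGroup V] [Module K V] [FiniteDimensional K V] {G : Type*} [Group G]
    [TopologicalSpace G] [IsTopologicalGroup G] (ρ : Representation K G V)
    (hc : ∀ (v : V) (f : Module.Dual K V), Continuous fun g => f (ρ g v)) (S : Set G)
    (W : Submodule K V) (hS : Stab ρ S W) :
    Stab ρ ((Subgroup.closure S).topologicalClosure : Set G) W := by
  have h1 : ∀ g ∈ Subgroup.closure S, ∀ w ∈ W, ρ g w ∈ W := by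
    intro g hg
    induction hg using Subgroup.closure_induction with
    | mem x hx => exact hS x hx
    | one => intro w hw; simpa using hw
    | mul x y _ _ hx hy =>
      intro w hw
      rw [map_mul]
      exact hx _ (hy w hw)
    | inv x _ hx => exact CL.stab_inv ρ W x hx
  have hclosed : IsClosed {g : G | ∀ w ∈ W, ∀ f : Module.Dual K V, (∀ u ∈ W, f u = 0) →
      f (ρ g w) = 0} := by
    simp only [Set.ofPred_forall]
    refine isClosed_iInter fun w => isClosed_iInter fun _ => isClosed_iInter fun f =>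
      isClosed_iInter fun _ => ?_
    exact isClosed_singleton.preimage (hc w f)
  intro g hg w hw
  apply CL.mem_of_dual
  intro f hf
  have hsub : closure ((Subgroup.closure S : Subgroup G) : Set G) ⊆
      {g : G | ∀ w ∈ W, ∀ f : Module.Dual K V, (∀ u ∈ W, f u = 0) → f (ρ g w) = 0} := by
    apply closure_minimal _ hclosed
    intro x hx w hw f hf
    exact hf _ (h1 x hx w hw)
  exact hsub hg w hw f hf

end MPb685ZO
end

section
/-!
MP_b685ef_ag, zero-one law, module FRO: every nonempty open set of a profinite group contains a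
conjugate of a Frobenius element (from the Chebotarev density theorem).
-/
open Filter Topology MeasureTheory

namespace MPb685ZO

theorem specFRO {Γ : Type*} [Group Γ] [TopologicalSpace Γ] [IsTopologicalGroup Γ] [CompactSpace Γ]
    [T2Space Γ] [TotallyDisconnectedSpace Γ] {P : Type*} (N : P → ℕ) (d : ℝ) (Fr : P → Γ)
    (hcheb : Chebotarev N d Fr) (O : Set Γ) (hO : IsOpen O) (hne : O.Nonempty) :
    ∃ x : P, ∃ b : Γ, b * Fr x * b⁻¹ ∈ O := by
  obtain ⟨g, hg⟩ := hne
  have hVo : IsOpen ((fun u => g * u) ⁻¹' O) := hO.preimage (continuous_const_mul g)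
  have h1V : (1 : Γ) ∈ (fun u => g * u) ⁻¹' O := by
    simpa using hg
  obtain ⟨H, hH⟩ := ProfiniteGrp.exist_openNormalSubgroup_sub_open_nhds_of_one hVo h1V
  set U : Subgroup Γ := H.toSubgroup with hU
  haveI hUn : U.Normal := H.isNormal'
  have hUo : IsOpen (U : Set Γ) := H.toOpenSubgroup.isOpen
  haveI : Finite (Γ ⧸ U) := U.quotient_finite_of_isOpen hUo
  by_contra hcon
  push Not at hcon
  set C : Set (Γ ⧸ U) := {c | ∃ b : Γ ⧸ U, c = b * (g : Γ ⧸ U) * b⁻¹} with hC
  have hCconj : ∀ a ∈ C, ∀ b : Γ ⧸ U, b * a * b⁻¹ ∈ C := by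
    rintro a ⟨c, rfl⟩ b
    exact ⟨b * c, by group⟩
  have hdens := hcheb U hUo C hCconj
  have hempty : {x : P | ((Fr x : Γ) : Γ ⧸ U) ∈ C} = ∅ := by
    ext x
    simp only [Set.mem_ofPred_eq, Set.mem_empty_iff_false, iff_false]
    rintro ⟨b, hb⟩
    obtain ⟨b0, rfl⟩ := QuotientGroup.mk_surjective b
    apply hcon x b0⁻¹
    have h1 : ((g : Γ) : Γ ⧸ U) = ((b0⁻¹ * Fr x * b0⁻¹⁻¹ : Γ) : Γ ⧸ U) := by
      have h3 : ((b0⁻¹ * Fr x * b0⁻¹⁻¹ : Γ) : Γ ⧸ U)
          = (b0 : Γ ⧸ U)⁻¹ * ((Fr x : Γ) : Γ ⧸ U) * (b0 : Γ ⧸ U)⁻¹⁻¹ := rfl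
      rw [h3, hb]
      group
    rw [QuotientGroup.eq] at h1
    have h2 := hH (show g⁻¹ * (b0⁻¹ * Fr x * b0⁻¹⁻¹) ∈ (H : Set Γ) from h1)
    simpa using h2
  rw [hempty] at hdens
  unfold HasDirichletDensity at hdens
  have h0 : ∀ s : ℝ, (∑' x : (∅ : Set P), (N x : ℝ) ^ (-s)) = 0 := fun s => by
    rw [tsum_empty]
  simp only [h0, zero_div] at hdens
  have hlim := tendsto_nhds_unique hdens tendsto_const_nhds
  have hCne : C.Nonempty := ⟨(g : Γ ⧸ U), 1, by simp⟩
  have hCpos : 0 < C.ncard := (Set.ncard_pos (Set.toFinite C)).mpr hCne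
  have hQpos : 0 < Nat.card (Γ ⧸ U) := Nat.card_pos
  have hpos : (0 : ℝ) < (C.ncard : ℝ) / (Nat.card (Γ ⧸ U) : ℝ) := by positivity
  rw [hlim] at hpos
  exact lt_irrefl _ hpos

end MPb685ZO
end

section
/-!
MP_b685ef_ag, zero-one law, module MEA: a finite-dimensional translation-stable space `E` of
continuous functions on a profinite group; there is an open normal subgroup `U` such that every
`f ∈ E` either vanishes on the coset `g U` or its zero set in `g U` is a null set.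
-/
open Filter Topology MeasureTheory
open scoped Pointwise

namespace MPb685ZO
namespace MEA

/-- the functions of `E` that vanish on `Z` -/
def van {Γ : Type*} {K : Type*} [Field K] (E : Submodule K (Γ → K)) (Z : Set Γ) :
    Submodule K E where
  carrier := {h | ∀ y ∈ Z, (h : Γ → K) y = 0}
  add_mem' := by
    intro a b ha hb y hy
    have h1 := ha y hy
    have h2 := hb y hy
    simp [h1, h2]
  zero_mem' := by
    intro y _
    rfl
  smul_mem' := by
    intro c a ha y hy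
    have h1 := ha y hy
    simp [h1]

theorem mem_van {Γ : Type*} {K : Type*} [Field K] {E : Submodule K (Γ → K)} {Z : Set Γ} {h : E} :
    h ∈ van E Z ↔ ∀ y ∈ Z, (h : Γ → K) y = 0 := Iff.rfl

theorem van_anti {Γ : Type*} {K : Type*} [Field K] (E : Submodule K (Γ → K)) {Z Z' : Set Γ}
    (h : Z' ⊆ Z) : van E Z ≤ van E Z' := fun _ ha y hy => ha y (h hy)

theorem step1 {Γ : Type*} [Group Γ] [TopologicalSpace Γ] [IsTopologicalGroup Γ] [CompactSpace Γ]
    [T2Space Γ] [TotallyDisconnectedSpace Γ] [MeasurableSpace Γ] [BorelSpace Γ] (μ : Measure Γ)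
    [μ.IsMulLeftInvariant] [IsProbabilityMeasure μ] [μ.Regular]
    {K : Type*} [Field K] (E : Submodule K (Γ → K)) [FiniteDimensional K E]
    (hleft : ∀ f ∈ E, ∀ x : Γ, (fun y => f (x * y)) ∈ E) (f : Γ → K) (hf : f ∈ E) (Z0 : Set Γ)
    (hZ0 : MeasurableSet Z0) (h0 : ∀ y ∈ Z0, f y = 0) (hpos : μ Z0 ≠ 0) :
    ∃ x ∈ Z0, ∃ U : Subgroup Γ, U.Normal ∧ IsOpen (U : Set Γ) ∧ ∀ u ∈ U, f (x * u) = 0 := by
  classical
  let S : Set (Submodule K E) :=
    {M | ∃ Z : Set Γ, MeasurableSet Z ∧ Z ⊆ Z0 ∧ μ Z ≠ 0 ∧ M = van E Z}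
  have hS : S.Nonempty := ⟨_, Z0, hZ0, le_rfl, hpos, rfl⟩
  obtain ⟨M, hMS, hmax⟩ := WellFounded.has_min
    (wellFounded_gt : WellFounded ((· > ·) : Submodule K E → Submodule K E → Prop)) S hS
  obtain ⟨Z, hZ, hZZ0, hZpos, rfl⟩ := hMS
  obtain ⟨K0, hK0Z, hK0c, hK0pos⟩ := hZ.exists_lt_isCompact_of_ne_top (μ := μ)
    (measure_ne_top μ Z) (pos_iff_ne_zero.mpr hZpos)
  have hev := eventually_nhds_one_measure_smul_sdiff_lt (μ := μ) hK0c hK0c.isClosed
    (ε := μ K0) hK0pos.ne'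
  obtain ⟨W, hWsub, hWo, h1W⟩ := mem_nhds_iff.mp hev
  obtain ⟨H, hH⟩ := ProfiniteGrp.exist_openNormalSubgroup_sub_open_nhds_of_one hWo h1W
  obtain ⟨x, hxK0⟩ : K0.Nonempty := nonempty_of_measure_ne_zero hK0pos.ne'
  refine ⟨x, hZZ0 (hK0Z hxK0), H.toSubgroup, inferInstance, H.isOpen', ?_⟩
  intro u hu
  have ht : x * u * x⁻¹ ∈ H.toSubgroup :=
    (inferInstance : H.toSubgroup.Normal).conj_mem u hu x
  obtain ⟨t, htdef⟩ : ∃ t, t = x * u * x⁻¹ := ⟨_, rfl⟩
  rw [← htdef] at ht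
  have ht' : t⁻¹ ∈ W := hH (inv_mem ht)
  have hlt : μ (t⁻¹ • K0 \ K0) < μ K0 := hWsub ht'
  have hmK : MeasurableSet K0 := hK0c.isClosed.measurableSet
  have hmtK : MeasurableSet (t⁻¹ • K0) := (hK0c.smul t⁻¹).isClosed.measurableSet
  have hZ'pos : μ (t⁻¹ • K0 ∩ K0) ≠ 0 := by
    intro h
    have := measure_inter_add_sdiff (μ := μ) (t⁻¹ • K0) hmK
    rw [h, zero_add, measure_smul] at this
    exact hlt.ne this
  have hZ'sub : t⁻¹ • K0 ∩ K0 ⊆ Z := Set.inter_subset_right.trans hK0Z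
  have hle := van_anti E hZ'sub
  have heq : van E Z = van E (t⁻¹ • K0 ∩ K0) := by
    by_contra hne
    exact hmax _ ⟨_, hmtK.inter hmK, hZ'sub.trans hZZ0, hZ'pos, rfl⟩ (lt_of_le_of_ne hle hne)
  have hft : (⟨fun y => f (t * y), hleft f hf t⟩ : E) ∈ van E (t⁻¹ • K0 ∩ K0) := by
    intro y hy
    have h2 : t * y ∈ K0 := by
      have h3 := Set.mem_smul_set_iff_inv_smul_mem.mp hy.1
      simpa using h3
    exact h0 _ (hZZ0 (hK0Z h2))
  rw [← heq] at hft
  have h4 : f (t * x) = 0 := hft x (hK0Z hxK0)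
  rw [htdef] at h4
  simpa [mul_assoc] using h4

end MEA

theorem specMEA {Γ : Type*} [Group Γ] [TopologicalSpace Γ] [IsTopologicalGroup Γ] [CompactSpace Γ]
    [T2Space Γ] [TotallyDisconnectedSpace Γ] [MeasurableSpace Γ] [BorelSpace Γ] (μ : Measure Γ)
    [μ.IsMulLeftInvariant] [IsProbabilityMeasure μ] [μ.Regular]
    {K : Type*} [Field K] [TopologicalSpace K] [T1Space K]
    (E : Submodule K (Γ → K)) [FiniteDimensional K E] (hcont : ∀ f ∈ E, Continuous f)
    (hleft : ∀ f ∈ E, ∀ x : Γ, (fun y => f (x * y)) ∈ E) :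
    ∃ U : Subgroup Γ, U.Normal ∧ IsOpen (U : Set Γ) ∧ ∀ f ∈ E, ∀ g : Γ,
      (∀ u ∈ U, f (g * u) = 0) ∨ μ {y | f y = 0 ∧ g⁻¹ * y ∈ U} = 0 := by
  classical
  let S : Set (Submodule K E) :=
    {M | ∃ U : Subgroup Γ, U.Normal ∧ IsOpen (U : Set Γ) ∧ M = MEA.van E (U : Set Γ)}
  have hS : S.Nonempty := ⟨_, ⊤, inferInstance, isOpen_univ, rfl⟩
  obtain ⟨M, hMS, hmax⟩ := WellFounded.has_min
    (wellFounded_gt : WellFounded ((· > ·) : Submodule K E → Submodule K E → Prop)) S hS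
  obtain ⟨U, hUn, hUo, rfl⟩ := hMS
  refine ⟨U, hUn, hUo, ?_⟩
  intro f hf g
  by_cases hz : μ {y | f y = 0 ∧ g⁻¹ * y ∈ U} = 0
  · exact Or.inr hz
  left
  have hm : MeasurableSet {y | f y = 0 ∧ g⁻¹ * y ∈ U} := by
    apply MeasurableSet.inter
    · exact (isClosed_singleton.preimage (hcont f hf)).measurableSet
    · exact (hUo.preimage (continuous_const_mul g⁻¹)).measurableSet
  obtain ⟨x, hx, U', hU'n, hU'o, hU'⟩ := MEA.step1 μ E hleft f hf _ hm (fun y hy => hy.1) hz
  have hinf : (U ⊓ U').Normal := inferInstance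
  have hinfo : IsOpen ((U ⊓ U' : Subgroup Γ) : Set Γ) := hUo.inter hU'o
  have hle : MEA.van E (U : Set Γ) ≤ MEA.van E ((U ⊓ U' : Subgroup Γ) : Set Γ) :=
    MEA.van_anti E (fun y hy => hy.1)
  have heq : MEA.van E (U : Set Γ) = MEA.van E ((U ⊓ U' : Subgroup Γ) : Set Γ) := by
    by_contra hne
    exact hmax _ ⟨_, hinf, hinfo, rfl⟩ (lt_of_le_of_ne hle hne)
  have hfx : (⟨fun y => f (x * y), hleft f hf x⟩ : E) ∈
      MEA.van E ((U ⊓ U' : Subgroup Γ) : Set Γ) := by
    intro y hy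
    exact hU' y hy.2
  rw [← heq] at hfx
  intro u hu
  have h1 : x⁻¹ * (g * u) ∈ U := by
    have h2 : (g⁻¹ * x)⁻¹ * u ∈ U := U.mul_mem (U.inv_mem hx.2) hu
    simpa [mul_assoc] using h2
  have h3 : f (x * (x⁻¹ * (g * u))) = 0 := hfx _ h1
  simpa using h3

end MPb685ZO
end

section
/-!
MP_b685ef_ag, zero-one law, module GEN: the generic elements of the cosets of an open normal
subgroup form the complement of a closed null set, and the maximal number of distinct eigenvalues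
on a coset bounds the degree of the minimal polynomial of every element of the coset.
-/
open Polynomial Topology MeasureTheory

namespace MPb685ZO

namespace GEN

section matrices

variable {ι : Type*} [Fintype ι] [DecidableEq ι]

/-- the Hankel determinant of the traces of the powers. -/
noncomputable def hk {R : Type*} [CommRing R] (r : ℕ) (M : Matrix ι ι R) : R :=
  (Matrix.of fun i j : Fin r => (M ^ ((i : ℕ) + (j : ℕ))).trace).det

/-- a minor of the matrix of the entries of the powers. -/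
noncomputable def mn {R : Type*} [CommRing R] (r : ℕ) (s : Fin (r + 1) → ι × ι)
    (M : Matrix ι ι R) : R :=
  (Matrix.of fun i j : Fin (r + 1) => (M ^ (j : ℕ)) (s i).1 (s i).2).det

theorem map_hk {R S : Type*} [CommRing R] [CommRing S] (f : R →+* S) (r : ℕ)
    (M : Matrix ι ι R) : f (hk r M) = hk r (M.map f) := by
  unfold hk
  rw [RingHom.map_det]
  congr 1
  ext i j
  simp only [RingHom.mapMatrix_apply, Matrix.map_apply, Matrix.of_apply]
  rw [Matrix.trace, Matrix.trace, map_sum]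
  refine Finset.sum_congr rfl fun k _ => ?_
  rw [Matrix.diag_apply, Matrix.diag_apply, ← Matrix.map_apply (f := f) (M := M ^ _)]
  have h : (M ^ ((i : ℕ) + (j : ℕ))).map f = (M.map f) ^ ((i : ℕ) + (j : ℕ)) := by
    have := map_pow (RingHom.mapMatrix (m := ι) f) M ((i : ℕ) + (j : ℕ))
    simpa using this
  rw [h]

theorem map_mn {R S : Type*} [CommRing R] [CommRing S] (f : R →+* S) (r : ℕ)
    (s : Fin (r + 1) → ι × ι) (M : Matrix ι ι R) : f (mn r s M) = mn r s (M.map f) := by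
  unfold mn
  rw [RingHom.map_det]
  congr 1
  ext i j
  simp only [RingHom.mapMatrix_apply, Matrix.map_apply, Matrix.of_apply]
  rw [← Matrix.map_apply (f := f) (M := M ^ _)]
  have h : (M ^ (j : ℕ)).map f = (M.map f) ^ (j : ℕ) := by
    have := map_pow (RingHom.mapMatrix (m := ι) f) M (j : ℕ)
    simpa using this
  rw [h]

/-- if all minors vanish, the degree of the minimal polynomial is at most `r`. -/
theorem exists_mn_ne_zero {K : Type*} [Field K] (r : ℕ) (M : Matrix ι ι K)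
    (h : r < (minpoly K M).natDegree) : ∃ s : Fin (r + 1) → ι × ι, mn r s M ≠ 0 := by
  classical
  by_contra hcon
  push Not at hcon
  have hli : LinearIndependent K fun j : Fin (r + 1) => M ^ (j : ℕ) := by
    have h1 := linearIndependent_pow (K := K) M
    exact h1.comp (Fin.castLE (by omega)) (Fin.castLE_injective _)
  have hinj : Function.Injective (Fintype.linearCombination K fun j : Fin (r + 1) => M ^ (j : ℕ)) :=
    linearIndependent_iff_injective_fintypeLinearCombination.mp hli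
  obtain ⟨g, hg⟩ := LinearMap.exists_leftInverse_of_injective _ (LinearMap.ker_eq_bot.mpr hinj)
  have hgj : ∀ j : Fin (r + 1), g (M ^ (j : ℕ)) = Pi.single j 1 := by
    intro j
    have h1 := LinearMap.congr_fun hg (Pi.single j 1)
    rw [LinearMap.comp_apply, LinearMap.id_apply] at h1
    rw [← h1]
    congr 1
    rw [Fintype.linearCombination_apply_single, one_smul]
  have hexp : ∀ (N : Matrix ι ι K) (i : Fin (r + 1)),
      g N i = ∑ p : ι × ι, g (Matrix.single p.1 p.2 1) i * N p.1 p.2 := by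
    intro N i
    have h1 : N = ∑ p : ι × ι, N p.1 p.2 • Matrix.single p.1 p.2 (1 : K) := by
      rw [Fintype.sum_prod_type]
      conv_lhs => rw [Matrix.matrix_eq_sum_single N]
      refine Finset.sum_congr rfl fun a _ => Finset.sum_congr rfl fun c _ => ?_
      rw [Matrix.smul_single, smul_eq_mul, mul_one]
    conv_lhs => rw [h1, map_sum, Finset.sum_apply]
    refine Finset.sum_congr rfl fun p _ => ?_
    rw [map_smul, Pi.smul_apply, smul_eq_mul, mul_comm]
  have h1 : (Matrix.detRowAlternating (R := K) (n := Fin (r + 1))).toMultilinearMap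
      (fun i => ∑ p : ι × ι, g (Matrix.single p.1 p.2 1) i • fun j : Fin (r + 1) =>
        (M ^ (j : ℕ)) p.1 p.2) = 1 := by
    have h2 : (fun i => ∑ p : ι × ι, g (Matrix.single p.1 p.2 1) i • fun j : Fin (r + 1) =>
        (M ^ (j : ℕ)) p.1 p.2) = (1 : Matrix (Fin (r + 1)) (Fin (r + 1)) K) := by
      funext i j
      rw [Finset.sum_apply]
      simp only [Pi.smul_apply, smul_eq_mul]
      rw [← hexp, hgj, Matrix.one_apply, Pi.single_apply]
    rw [h2]
    exact Matrix.det_one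
  rw [MultilinearMap.map_sum] at h1
  apply one_ne_zero (α := K)
  rw [← h1]
  refine Finset.sum_eq_zero fun s _ => ?_
  rw [MultilinearMap.map_smul_univ]
  have h3 := hcon s
  unfold mn at h3
  have h4 : (Matrix.detRowAlternating (R := K) (n := Fin (r + 1))).toMultilinearMap
      (fun i => fun j : Fin (r + 1) => (M ^ (j : ℕ)) (s i).1 (s i).2) = 0 := h3
  rw [h4, smul_zero]

theorem mn_eq_zero {K : Type*} [Field K] (r : ℕ) (M : Matrix ι ι K)
    (h : (minpoly K M).natDegree ≤ r) (s : Fin (r + 1) → ι × ι) : mn r s M = 0 := by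
  classical
  have hint : IsIntegral K M := Matrix.isIntegral M
  unfold mn
  rw [← Matrix.exists_mulVec_eq_zero_iff]
  refine ⟨fun j : Fin (r + 1) => (minpoly K M).coeff (j : ℕ), ?_, ?_⟩
  · intro h0
    have h1 := congrFun h0 ⟨(minpoly K M).natDegree, by omega⟩
    simp only [Pi.zero_apply] at h1
    rw [Polynomial.coeff_natDegree, (minpoly.monic hint).leadingCoeff] at h1
    exact one_ne_zero h1
  · funext i
    have h1 := minpoly.aeval K M
    rw [Polynomial.aeval_eq_sum_range' (n := r + 1) (by omega)] at h1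
    have h2 := congrFun (congrFun h1 (s i).1) (s i).2
    rw [Matrix.sum_apply] at h2
    rw [Matrix.mulVec, dotProduct]
    simp only [Matrix.of_apply]
    rw [Fin.sum_univ_eq_sum_range
      (fun j => (M ^ j) (s i).1 (s i).2 * (minpoly K M).coeff j) (r + 1)]
    rw [Pi.zero_apply]
    rw [Matrix.zero_apply] at h2
    rw [← h2]
    refine Finset.sum_congr rfl fun j _ => ?_
    rw [Matrix.smul_apply, smul_eq_mul, mul_comm]

end matrices

section operators

variable {K : Type*} [Field K] {V : Type*} [AddCommGroup V] [Module K V] [FiniteDimensional K V]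

theorem hk_eq {ι : Type*} [Fintype ι] [DecidableEq ι] (b : Module.Basis ι K V)
    (A : Module.End K V) (r : ℕ) : hk r (LinearMap.toMatrix b b A) = RNK.hk r A := by
  unfold hk RNK.hk RNK.hd
  congr 1
  ext i j
  rw [Matrix.of_apply, Matrix.of_apply]
  change _ = LinearMap.trace K V (A ^ ((i : ℕ) + (j : ℕ)))
  rw [LinearMap.trace_eq_matrix_trace K b, LinearMap.toMatrix_pow]

theorem hk_of_lt [CharZero K] {ι : Type*} [Fintype ι] [DecidableEq ι] (b : Module.Basis ι K V)
    (A : Module.End K V) (r : ℕ) (h : nEig A < r) : hk r (LinearMap.toMatrix b b A) = 0 := by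
  rw [hk_eq]
  by_contra h0
  exact absurd (RNK.le_nEig h0) (not_le.mpr h)

theorem hk_ne [CharZero K] {ι : Type*} [Fintype ι] [DecidableEq ι] (b : Module.Basis ι K V)
    (A : Module.End K V) (r : ℕ) (h : nEig A = r) : hk r (LinearMap.toMatrix b b A) ≠ 0 := by
  rw [hk_eq, ← h]
  exact RNK.hk_nEig_ne_zero A

theorem nEig_le (A : Module.End K V) : nEig A ≤ Module.finrank K V := by
  unfold nEig
  refine (Polynomial.ncard_rootSet_le _ _).trans ?_
  rw [LinearMap.charpoly_natDegree]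

theorem deg_le_of_ss [CharZero K] (A : Module.End K V) (h : A.IsSemisimple) :
    (minpoly K A).natDegree ≤ nEig A := by
  have hsep : (minpoly K A).Separable :=
    PerfectField.separable_iff_squarefree.mpr h.minpoly_squarefree
  rw [← Polynomial.card_rootSet_eq_natDegree (K := AlgebraicClosure K) hsep
    (IsAlgClosed.splits _)]
  unfold nEig
  rw [← Nat.card_eq_fintype_card, Nat.card_coe_set_eq]
  apply Set.ncard_le_ncard _ (Polynomial.rootSet_finite _ _)
  intro x hx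
  rw [Polynomial.mem_rootSet] at hx ⊢
  refine ⟨A.charpoly_monic.ne_zero, ?_⟩
  obtain ⟨q, hq⟩ := LinearMap.minpoly_dvd_charpoly A
  rw [hq, map_mul, hx.2, zero_mul]

end operators

section main

variable {Γ : Type*} [Group Γ] {K : Type*} [Field K] {V : Type*} [AddCommGroup V] [Module K V]

/-- the algebra generated by the matrix coefficients. -/
abbrev coefAlg (ρ : Representation K Γ V) : Subalgebra K (Γ → K) :=
  Algebra.adjoin K {f : Γ → K | ∃ (v : V) (φ : Module.Dual K V), f = fun g => φ (ρ g v)}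

/-- evaluation at `g`. -/
def ev (ρ : Representation K Γ V) (g : Γ) : coefAlg ρ →+* K :=
  (Pi.evalRingHom (fun _ => K) g).comp (coefAlg ρ).toSubring.subtype

theorem ev_apply (ρ : Representation K Γ V) (g : Γ) (f : coefAlg ρ) :
    ev ρ g f = (f : Γ → K) g := rfl

/-- the universal matrix. -/
noncomputable def um (ρ : Representation K Γ V) {ι : Type*} (b : Module.Basis ι K V) :
    Matrix ι ι (coefAlg ρ) :=
  Matrix.of fun i j => ⟨fun g => b.coord i (ρ g (b j)),
    Algebra.subset_adjoin ⟨b j, b.coord i, rfl⟩⟩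

theorem um_map (ρ : Representation K Γ V) {ι : Type*} [Fintype ι] [DecidableEq ι]
    (b : Module.Basis ι K V) (g : Γ) :
    (um ρ b).map (ev ρ g) = LinearMap.toMatrix b b (ρ g) := by
  ext i j
  rw [Matrix.map_apply, ev_apply, LinearMap.toMatrix_apply]
  rfl

theorem hk_mem (ρ : Representation K Γ V) {ι : Type*} [Fintype ι] [DecidableEq ι]
    (b : Module.Basis ι K V) (r : ℕ) :
    (fun g => hk r (LinearMap.toMatrix b b (ρ g))) ∈ coefAlg ρ := by
  have h : (fun g => hk r (LinearMap.toMatrix b b (ρ g)))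
      = ((hk r (um ρ b) : coefAlg ρ) : Γ → K) := by
    funext g
    rw [← um_map, ← map_hk, ev_apply]
  rw [h]
  exact Subtype.property _

theorem mn_mem (ρ : Representation K Γ V) {ι : Type*} [Fintype ι] [DecidableEq ι]
    (b : Module.Basis ι K V) (r : ℕ) (s : Fin (r + 1) → ι × ι) :
    (fun g => mn r s (LinearMap.toMatrix b b (ρ g))) ∈ coefAlg ρ := by
  have h : (fun g => mn r s (LinearMap.toMatrix b b (ρ g)))
      = ((mn r s (um ρ b) : coefAlg ρ) : Γ → K) := by
    funext g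
    rw [← um_map, ← map_mn, ev_apply]
  rw [h]
  exact Subtype.property _

/-- a point of the coset where the number of distinct eigenvalues is maximal. -/
theorem exists_max [FiniteDimensional K V] (ρ : Representation K Γ V) (U : Subgroup Γ) (g : Γ) :
    ∃ u0 ∈ U, ∀ u ∈ U, nEig (ρ (g * u)) ≤ nEig (ρ (g * u0)) := by
  classical
  let S : Set ℕ := {m | ∃ u ∈ U, nEig (ρ (g * u)) = m}
  have hS : S.Nonempty := ⟨_, 1, U.one_mem, rfl⟩
  have hb : BddAbove S := by
    refine ⟨Module.finrank K V, ?_⟩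
    rintro m ⟨u, _, rfl⟩
    exact nEig_le _
  obtain ⟨u0, hu0, h0⟩ := Nat.sSup_mem hS hb
  refine ⟨u0, hu0, fun u hu => ?_⟩
  rw [h0]
  exact le_csSup hb ⟨u, hu, rfl⟩

end main

end GEN

open GEN in
/-- the common core: `U0`, the closed null set and the dichotomy for the minors. -/
theorem GEN.core {Γ : Type*} [Group Γ] [TopologicalSpace Γ] [IsTopologicalGroup Γ] [CompactSpace Γ]
    [T2Space Γ] [TotallyDisconnectedSpace Γ] [MeasurableSpace Γ] [BorelSpace Γ]
    (μ : MeasureTheory.Measure Γ) [μ.IsMulLeftInvariant] [MeasureTheory.IsProbabilityMeasure μ]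
    [μ.Regular] {K : Type*} [Field K] [CharZero K]
    [TopologicalSpace K] [IsTopologicalRing K] [T2Space K] {V : Type*} [AddCommGroup V]
    [Module K V] [FiniteDimensional K V] (ρ : Representation K Γ V)
    (hc : ∀ (v : V) (f : Module.Dual K V), Continuous fun g => f (ρ g v)) :
    ∃ U0 : Subgroup Γ, U0.Normal ∧ IsOpen (U0 : Set Γ) ∧
      ∀ U : Subgroup Γ, U.Normal → IsOpen (U : Set Γ) → U ≤ U0 →
        IsClosed {g : Γ | ∃ u ∈ U, nEig (ρ g) < nEig (ρ (g * u))} ∧
        μ {g : Γ | ∃ u ∈ U, nEig (ρ g) < nEig (ρ (g * u))} = 0 ∧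
        (∀ (r : ℕ) (s : Fin (r + 1) → Fin (Module.finrank K V) × Fin (Module.finrank K V)),
          r ≤ Module.finrank K V → ∀ g : Γ,
          (∀ u ∈ U, mn r s (LinearMap.toMatrix (Module.finBasis K V) (Module.finBasis K V)
            (ρ (g * u))) = 0) ∨
          μ {y | mn r s (LinearMap.toMatrix (Module.finBasis K V) (Module.finBasis K V)
            (ρ y)) = 0 ∧ g⁻¹ * y ∈ U} = 0) := by
  classical
  let n := Module.finrank K V
  let b := Module.finBasis K V
  -- the finite set of polynomial functions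
  let F1 : Set (Γ → K) := Set.range fun r : Fin (n + 1) =>
    (fun g => hk (r : ℕ) (LinearMap.toMatrix b b (ρ g)))
  let F2 : Set (Γ → K) := Set.range fun p : (Σ r : Fin (n + 1), (Fin ((r : ℕ) + 1) →
      Fin n × Fin n)) => (fun g => mn (p.1 : ℕ) p.2 (LinearMap.toMatrix b b (ρ g)))
  have hF : (F1 ∪ F2).Finite := (Set.finite_range _).union (Set.finite_range _)
  have hFA : F1 ∪ F2 ⊆ (Algebra.adjoin K {f : Γ → K | ∃ (v : V) (φ : Module.Dual K V),
      f = fun g => φ (ρ g v)} : Subalgebra K (Γ → K)) := by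
    rintro f (⟨r, rfl⟩ | ⟨p, rfl⟩)
    · exact hk_mem ρ b _
    · exact mn_mem ρ b _ _
  obtain ⟨E, hEfd, hEc, hEt, hFE⟩ := specENV ρ hc (F1 ∪ F2) hF hFA
  obtain ⟨U0, hU0n, hU0o, hdich⟩ := specMEA μ E hEc hEt
  refine ⟨U0, hU0n, hU0o, ?_⟩
  intro U hUn hUo hUU0
  have hEhk : ∀ r : ℕ, r ≤ n → (fun g => hk r (LinearMap.toMatrix b b (ρ g))) ∈ E := by
    intro r hr
    exact hFE (Or.inl ⟨⟨r, by omega⟩, rfl⟩)
  have hEmn : ∀ (r : ℕ) (s : Fin (r + 1) → Fin n × Fin n), r ≤ n →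
      (fun g => mn r s (LinearMap.toMatrix b b (ρ g))) ∈ E := by
    intro r s hr
    exact hFE (Or.inr ⟨⟨⟨r, by omega⟩, s⟩, rfl⟩)
  have hdich' : ∀ f ∈ E, ∀ g : Γ,
      (∀ u ∈ U, f (g * u) = 0) ∨ μ {y | f y = 0 ∧ g⁻¹ * y ∈ U} = 0 := by
    intro f hf g
    rcases hdich f hf g with h | h
    · exact Or.inl fun u hu => h u (hUU0 hu)
    · right
      refine measure_mono_null ?_ h
      intro y hy
      exact ⟨hy.1, hUU0 hy.2⟩
  let Z : Set Γ := {g : Γ | ∃ u ∈ U, nEig (ρ g) < nEig (ρ (g * u))}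
  have hcoset : ∀ x y u : Γ, x⁻¹ * y ∈ U → u ∈ U → ∃ w ∈ U, y * u = x * w := by
    intro x y u hy hu
    exact ⟨x⁻¹ * y * u, U.mul_mem hy hu, by group⟩
  -- closed
  have hclosed : IsClosed Z := by
    rw [← isOpen_compl_iff, isOpen_iff_forall_mem_open]
    intro x hx
    have hx' : ∀ u ∈ U, nEig (ρ (x * u)) ≤ nEig (ρ x) := by
      intro u hu
      by_contra hlt
      exact hx ⟨u, hu, not_le.mp hlt⟩
    have hr : nEig (ρ x) ≤ n := nEig_le _
    refine ⟨{y | hk (nEig (ρ x)) (LinearMap.toMatrix b b (ρ y)) ≠ 0} ∩ {y | x⁻¹ * y ∈ U},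
      ?_, ?_, ?_⟩
    · rintro y ⟨hy1, hy2⟩
      rintro ⟨u, hu, hlt⟩
      obtain ⟨w, hw, hw'⟩ := hcoset x y u hy2 hu
      rw [hw'] at hlt
      have h1 := hx' w hw
      exact hy1 (hk_of_lt b _ _ (lt_of_lt_of_le hlt h1))
    · apply IsOpen.inter
      · exact (isClosed_singleton.preimage (hEc _ (hEhk _ hr))).isOpen_compl
      · exact hUo.preimage (continuous_const_mul x⁻¹)
    · refine ⟨hk_ne b _ _ rfl, ?_⟩
      change x⁻¹ * x ∈ U
      rw [inv_mul_cancel]
      exact U.one_mem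
  -- null
  have hnull : μ Z = 0 := by
    apply hclosed.isCompact.measure_zero_of_nhdsWithin
    intro x _
    obtain ⟨u0, hu0, hmax⟩ := exists_max ρ U x
    obtain ⟨r, hr⟩ : ∃ r, r = nEig (ρ (x * u0)) := ⟨_, rfl⟩
    have hrn : r ≤ n := by rw [hr]; exact nEig_le _
    refine ⟨{y | hk r (LinearMap.toMatrix b b (ρ y)) = 0 ∧ x⁻¹ * y ∈ U}, ?_, ?_⟩
    · rw [mem_nhdsWithin]
      refine ⟨{y | x⁻¹ * y ∈ U}, hUo.preimage (continuous_const_mul x⁻¹), ?_, ?_⟩
      · change x⁻¹ * x ∈ U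
        rw [inv_mul_cancel]
        exact U.one_mem
      · rintro y ⟨hy1, u, hu, hlt⟩
        refine ⟨?_, hy1⟩
        obtain ⟨w, hw, hw'⟩ := hcoset x y u hy1 hu
        rw [hw'] at hlt
        have h1 := hmax w hw
        rw [← hr] at h1
        exact hk_of_lt b _ _ (lt_of_lt_of_le hlt h1)
    · rcases hdich' _ (hEhk r hrn) x with h | h
      · exact absurd (h u0 hu0) (hk_ne b _ _ hr.symm)
      · exact h
  exact ⟨hclosed, hnull, fun r s hr g => hdich' _ (hEmn r s hr) g⟩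

theorem specGEN1 {Γ : Type*} [Group Γ] [TopologicalSpace Γ] [IsTopologicalGroup Γ]
    [CompactSpace Γ] [T2Space Γ] [TotallyDisconnectedSpace Γ] [MeasurableSpace Γ] [BorelSpace Γ]
    (μ : MeasureTheory.Measure Γ) [μ.IsMulLeftInvariant] [MeasureTheory.IsProbabilityMeasure μ]
    [μ.Regular] {K : Type*} [Field K] [CharZero K]
    [TopologicalSpace K] [IsTopologicalRing K] [T2Space K] {V : Type*} [AddCommGroup V]
    [Module K V] [FiniteDimensional K V] (ρ : Representation K Γ V)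
    (hc : ∀ (v : V) (f : Module.Dual K V), Continuous fun g => f (ρ g v)) :
    ∃ U0 : Subgroup Γ, U0.Normal ∧ IsOpen (U0 : Set Γ) ∧
      ∀ U : Subgroup Γ, U.Normal → IsOpen (U : Set Γ) → U ≤ U0 →
        IsClosed {g : Γ | ∃ u ∈ U, nEig (ρ g) < nEig (ρ (g * u))} ∧
        μ {g : Γ | ∃ u ∈ U, nEig (ρ g) < nEig (ρ (g * u))} = 0 := by
  obtain ⟨U0, h1, h2, h3⟩ := GEN.core μ ρ hc
  exact ⟨U0, h1, h2, fun U hU hUo hle => ⟨(h3 U hU hUo hle).1, (h3 U hU hUo hle).2.1⟩⟩

open GEN in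
theorem specGEN {Γ : Type*} [Group Γ] [TopologicalSpace Γ] [IsTopologicalGroup Γ] [CompactSpace Γ]
    [T2Space Γ] [TotallyDisconnectedSpace Γ] [MeasurableSpace Γ] [BorelSpace Γ]
    (μ : MeasureTheory.Measure Γ) [μ.IsMulLeftInvariant] [MeasureTheory.IsProbabilityMeasure μ]
    [μ.Regular] {K : Type*} [Field K] [CharZero K]
    [TopologicalSpace K] [IsTopologicalRing K] [T2Space K] {V : Type*} [AddCommGroup V]
    [Module K V] [FiniteDimensional K V] (ρ : Representation K Γ V)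
    (hc : ∀ (v : V) (f : Module.Dual K V), Continuous fun g => f (ρ g v))
    (hA : ∀ (U : Subgroup Γ) [U.Normal] [U.FiniteIndex] (g : Γ),
      (∀ u ∈ U, nEig (ρ (g * u)) ≤ nEig (ρ g)) → Module.End.IsSemisimple (ρ g)) :
    ∃ U0 : Subgroup Γ, U0.Normal ∧ IsOpen (U0 : Set Γ) ∧
      ∀ U : Subgroup Γ, U.Normal → IsOpen (U : Set Γ) → U ≤ U0 →
        IsClosed {g : Γ | ∃ u ∈ U, nEig (ρ g) < nEig (ρ (g * u))} ∧
        μ {g : Γ | ∃ u ∈ U, nEig (ρ g) < nEig (ρ (g * u))} = 0 ∧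
        (∀ g : Γ, ∃ u ∈ U, (minpoly K (ρ g)).natDegree ≤ nEig (ρ (g * u))) := by
  classical
  let n := Module.finrank K V
  let b := Module.finBasis K V
  obtain ⟨U0, hU0n, hU0o, hcore⟩ := GEN.core μ ρ hc
  refine ⟨U0, hU0n, hU0o, ?_⟩
  intro U hUn hUo hUU0
  obtain ⟨hclosed, hnull, hdich'⟩ := hcore U hUn hUo hUU0
  refine ⟨hclosed, hnull, ?_⟩
  let Z : Set Γ := {g : Γ | ∃ u ∈ U, nEig (ρ g) < nEig (ρ (g * u))}
  -- minimal polynomials
  intro g
  obtain ⟨u0, hu0, hmax⟩ := exists_max ρ U g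
  refine ⟨u0, hu0, ?_⟩
  obtain ⟨r, hr⟩ : ∃ r, r = nEig (ρ (g * u0)) := ⟨_, rfl⟩
  have hrn : r ≤ n := by rw [hr]; exact nEig_le _
  rw [← hr] at hmax ⊢
  by_contra hlt
  rw [not_le, ← LinearMap.minpoly_toMatrix b] at hlt
  obtain ⟨s, hs⟩ := exists_mn_ne_zero r _ hlt
  rcases hdich' r s hrn g with h | h
  · have := h 1 U.one_mem
    rw [mul_one] at this
    exact hs this
  · have hfq : Finite (Γ ⧸ U) := U.quotient_finite_of_isOpen hUo
    have hfin : U.FiniteIndex := Subgroup.finiteIndex_of_finite_quotient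
    have hsub : {y | g⁻¹ * y ∈ U} ⊆
        {y | mn r s (LinearMap.toMatrix b b (ρ y)) = 0 ∧ g⁻¹ * y ∈ U} ∪ Z := by
      intro y hy
      by_cases hyZ : y ∈ Z
      · exact Or.inr hyZ
      left
      refine ⟨?_, hy⟩
      have hy' : ∀ u ∈ U, nEig (ρ (y * u)) ≤ nEig (ρ y) := by
        intro u hu
        by_contra hlt'
        exact hyZ ⟨u, hu, not_le.mp hlt'⟩
      have hss := hA U y hy'
      have hd := deg_le_of_ss _ hss
      have h2 : nEig (ρ y) ≤ r := by
        have h3 := hmax (g⁻¹ * y) hy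
        rwa [mul_inv_cancel_left] at h3
      apply mn_eq_zero
      rw [LinearMap.minpoly_toMatrix]
      exact hd.trans h2
    have hz : μ {y | g⁻¹ * y ∈ U} = 0 := by
      refine measure_mono_null hsub ?_
      exact measure_union_null h hnull
    have hne : μ {y | g⁻¹ * y ∈ U} ≠ 0 := by
      apply (hUo.preimage (continuous_const_mul g⁻¹)).measure_ne_zero μ
      exact ⟨g, by simp⟩
    exact hne hz

end MPb685ZO
end

section
/-!
MP_b685ef_ag, module MAXF: in every coset of an open normal subgroup some Frobenius element (up to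
conjugation) has the maximal number of distinct eigenvalues.
-/
open Filter Topology MeasureTheory

namespace MPb685ZO.MAXF

variable {K : Type*} [Field K] {V : Type*} [AddCommGroup V] [Module K V] [FiniteDimensional K V]
  {Γ : Type*} [Group Γ]

/-- conjugation invariance of the characteristic polynomial -/
lemma charpoly_conj (ρ : Representation K Γ V) (b h : Γ) :
    LinearMap.charpoly (ρ (b * h * b⁻¹)) = LinearMap.charpoly (ρ h) := by
  let e : V ≃ₗ[K] V := LinearEquiv.ofLinearMap (ρ b) (ρ b⁻¹)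
    (by rw [← Module.End.mul_eq_comp, ← map_mul, mul_inv_cancel, map_one]; rfl)
    (by rw [← Module.End.mul_eq_comp, ← map_mul, inv_mul_cancel, map_one]; rfl)
  have h1 : ρ (b * h * b⁻¹) = e.conj (ρ h) := by
    rw [map_mul, map_mul]
    rfl
  rw [h1, LinearEquiv.charpoly_conj]

lemma nEig_conj (ρ : Representation K Γ V) (b h : Γ) :
    nEig (ρ (b * h * b⁻¹)) = nEig (ρ h) := by
  unfold nEig
  rw [charpoly_conj]

lemma nEig_le (A : Module.End K V) : nEig A ≤ Module.finrank K V := by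
  unfold nEig
  refine (Polynomial.ncard_rootSet_le _ _).trans ?_
  rw [LinearMap.charpoly_natDegree]

/-- the maximum of the number of distinct eigenvalues on a coset -/
lemma exists_max (ρ : Representation K Γ V) (U : Subgroup Γ) (g : Γ) :
    ∃ u ∈ U, ∀ u' ∈ U, nEig (ρ (g * u')) ≤ nEig (ρ (g * u)) := by
  classical
  let S : Set ℕ := {n | ∃ u ∈ U, nEig (ρ (g * u)) = n}
  have hne : S.Nonempty := ⟨_, 1, U.one_mem, rfl⟩
  have hbd : BddAbove S := by
    refine ⟨Module.finrank K V, ?_⟩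
    rintro n ⟨u, -, rfl⟩
    exact nEig_le _
  obtain ⟨u, hu, hu'⟩ := Nat.sSup_mem hne hbd
  refine ⟨u, hu, fun u' hu'' => ?_⟩
  rw [hu']
  exact le_csSup hbd ⟨u', hu'', rfl⟩

variable [TopologicalSpace Γ] [IsTopologicalGroup Γ] [TopologicalSpace K] [IsTopologicalRing K]

omit [IsTopologicalGroup Γ] in
lemma continuous_trace (ρ : Representation K Γ V)
    (hc : ∀ (v : V) (f : Module.Dual K V), Continuous fun g => f (ρ g v)) :
    Continuous fun g => LinearMap.trace K V (ρ g) := by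
  classical
  let b := Module.finBasis K V
  have h : (fun g => LinearMap.trace K V (ρ g)) = fun g => ∑ i, b.coord i (ρ g (b i)) := by
    funext g
    rw [LinearMap.trace_eq_matrix_trace K b, Matrix.trace]
    refine Finset.sum_congr rfl (fun i _ => ?_)
    rw [Matrix.diag_apply, LinearMap.toMatrix_apply]
    rfl
  rw [h]
  exact continuous_finsetSum _ (fun i _ => hc _ _)

lemma continuous_hk (ρ : Representation K Γ V)
    (hc : ∀ (v : V) (f : Module.Dual K V), Continuous fun g => f (ρ g v)) (r : ℕ) :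
    Continuous fun g => RNK.hk r (ρ g) := by
  unfold RNK.hk RNK.hd
  refine Continuous.matrix_det (continuous_matrix (fun i j => ?_))
  have h : ∀ g : Γ, ((ρ g : Module.End K V) ^ (i.1 + j.1)) = ρ (g ^ (i.1 + j.1)) := fun g =>
    (map_pow ρ g _).symm
  simp only [Matrix.of_apply, h]
  exact (continuous_trace ρ hc).comp (continuous_pow _)

end MPb685ZO.MAXF

namespace MPb685ZO

theorem specMAXF {Γ : Type*} [Group Γ] [TopologicalSpace Γ] [IsTopologicalGroup Γ] [CompactSpace Γ]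
    [T2Space Γ] [TotallyDisconnectedSpace Γ] {K : Type*} [Field K] [CharZero K]
    [TopologicalSpace K] [IsTopologicalRing K] [T2Space K] {V : Type*} [AddCommGroup V]
    [Module K V] [FiniteDimensional K V] (ρ : Representation K Γ V)
    (hc : ∀ (v : V) (f : Module.Dual K V), Continuous fun g => f (ρ g v))
    {P : Type*} (N : P → ℕ) (d : ℝ) (Fr : P → Γ) (hcheb : Chebotarev N d Fr)
    (U : Subgroup Γ) (hU : IsOpen (U : Set Γ)) (g : Γ) :
    ∃ (x : P) (b : Γ), ∃ u ∈ U, b * Fr x * b⁻¹ = g * u ∧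
      ∀ u' ∈ U, nEig (ρ (g * u')) ≤ nEig (ρ (Fr x)) := by
  obtain ⟨u0, hu0, hmax⟩ := MAXF.exists_max ρ U g
  set r := nEig (ρ (g * u0)) with hr
  set O : Set Γ := {h | g⁻¹ * h ∈ U} ∩ {h | RNK.hk r (ρ h) ≠ 0} with hO
  have hOo : IsOpen O := by
    refine IsOpen.inter (hU.preimage (continuous_const_mul g⁻¹)) ?_
    exact isOpen_ne.preimage (MAXF.continuous_hk ρ hc r)
  have hOn : O.Nonempty := by
    refine ⟨g * u0, ?_, ?_⟩
    · show g⁻¹ * (g * u0) ∈ U
      rwa [inv_mul_cancel_left]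
    · show RNK.hk r (ρ (g * u0)) ≠ 0
      rw [hr]
      exact RNK.hk_nEig_ne_zero _
  obtain ⟨x, b, hx1, hx2⟩ := specFRO N d Fr hcheb O hOo hOn
  refine ⟨x, b, g⁻¹ * (b * Fr x * b⁻¹), hx1, by group, fun u' hu' => ?_⟩
  refine (hmax u' hu').trans ?_
  have h1 := RNK.le_nEig hx2
  rwa [MAXF.nEig_conj] at h1

end MPb685ZO
end

section
/-!
MP_b685ef_ag, zero-one law, final assembly (A): all l at once.
-/
open Filter Topology MeasureTheory

namespace MPb685ZO

namespace FinA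

/-- the vectors fixed by `I` -/
def fixed {K : Type*} [Field K] {V : Type*} [AddCommGroup V] [Module K V] {G : Type*} [Group G]
    (ρ : Representation K G V) (I : Subgroup G) : Submodule K V where
  carrier := {v | ∀ i ∈ I, ρ i v = v}
  add_mem' := fun {v w} hv hw i hi => by rw [map_add, hv i hi, hw i hi]
  zero_mem' := fun i _ => map_zero _
  smul_mem' := fun c v hv i hi => by rw [map_smul, hv i hi]

/-- `V` is semisimple under `G0`, and there is one good, possibly degenerate, member: an element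
`a` and a subgroup `I` of `G0`, normalized by `a` and acting unipotently, such that `G0` and `a`
generate topologically a subgroup of finite index and `a` acts semisimply on the `I`-invariants. -/
def Good {K : Type*} [Field K] {V : Type*} [AddCommGroup V] [Module K V] {G : Type*} [Group G]
    [TopologicalSpace G] [IsTopologicalGroup G] (ρ : Representation K G V) (G0 : Subgroup G) :
    Prop :=
  SSOn ρ (G0 : Set G) ∧
  ∃ (a : G) (I : Subgroup G), I ≤ G0 ∧ (∀ i ∈ I, a⁻¹ * i * a ∈ I) ∧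
    (∀ i ∈ I, IsNilpotent (ρ i - 1)) ∧
    (Subgroup.closure ((G0 : Set G) ∪ {a})).topologicalClosure.FiniteIndex ∧
    ∀ W ≤ fixed ρ I, Stab ρ {a} W →
      ∃ W' ≤ fixed ρ I, Stab ρ {a} W' ∧ W ⊓ W' = ⊥ ∧ W ⊔ W' = fixed ρ I

lemma ss_of_good {K : Type*} [Field K] [CharZero K] [TopologicalSpace K] [T2Space K]
    {V : Type*} [AddCommGroup V] [Module K V] [FiniteDimensional K V]
    {G : Type*} [Group G] [TopologicalSpace G] [IsTopologicalGroup G] (ρ : Representation K G V)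
    (hc : ∀ (v : V) (f : Module.Dual K V), Continuous fun g => f (ρ g v))
    (G0 : Subgroup G) [G0.Normal] (h : Good ρ G0) : SSOn ρ Set.univ := by
  obtain ⟨h0, a, I, hI, hIa, hIu, hfin, hss⟩ := h
  refine specP1I ρ G0 h0 a (I : Set G) hI hIa ?_ ?_
    (Subgroup.closure ((G0 : Set G) ∪ {a})).topologicalClosure ?_
  · intro U hU hne
    exact specKOL ρ I hIu U (fun g hg w hw => hU g (hI hg) w hw) hne
  · intro U hU hUF
    obtain ⟨W', h1, h2, h3, h4⟩ := hss U hUF hU
    exact ⟨W', h2, h3, h4⟩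
  · intro U hU0 hUa
    apply specCL ρ hc
    intro g hg w hw
    rcases hg with hg | hg
    · exact hU0 g hg w hw
    · exact hUa g hg w hw

/-- The classes of `Fr x` and `Fr y` modulo `U` are conjugate. -/
lemma isConj_of {Γ : Type*} [Group Γ] (U : Subgroup Γ) [U.Normal] {g h b u : Γ} (hu : u ∈ U)
    (hb : b * g * b⁻¹ = h * u) : IsConj ((g : Γ) : Γ ⧸ U) ((h : Γ) : Γ ⧸ U) := by
  rw [isConj_iff]
  refine ⟨(b : Γ ⧸ U), ?_⟩
  have h1 : ((b * g * b⁻¹ : Γ) : Γ ⧸ U) = ((h * u : Γ) : Γ ⧸ U) := by rw [hb]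
  have h2 : ((h * u : Γ) : Γ ⧸ U) = ((h : Γ) : Γ ⧸ U) := by
    rw [QuotientGroup.eq]
    simpa using U.inv_mem hu
  rw [h2] at h1
  exact h1

lemma exists_of_isConj {Γ : Type*} [Group Γ] (U : Subgroup Γ) [U.Normal] {g h : Γ}
    (hc : IsConj ((g : Γ) : Γ ⧸ U) ((h : Γ) : Γ ⧸ U)) : ∃ b, ∃ u ∈ U, b * g * b⁻¹ = h * u := by
  rw [isConj_iff] at hc
  obtain ⟨c, hc⟩ := hc
  obtain ⟨b, rfl⟩ := QuotientGroup.mk_surjective c
  refine ⟨b, h⁻¹ * (b * g * b⁻¹), ?_, by group⟩
  rw [← QuotientGroup.eq]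
  exact hc.symm

end FinA

open FinA in
theorem finA {Γ : Type*} [Group Γ] [TopologicalSpace Γ] [IsTopologicalGroup Γ] [CompactSpace Γ]
    [T2Space Γ] [TotallyDisconnectedSpace Γ] (Γ₀ : Subgroup Γ) [Γ₀.Normal]
    {P : Type*} (N : P → ℕ) (d : ℝ) (Fr : P → Γ) (hcheb : Chebotarev N d Fr)
    {Λ : Type*} [Nonempty Λ] (K : Λ → Type*) [∀ l, Field (K l)] [∀ l, CharZero (K l)]
    [∀ l, TopologicalSpace (K l)] [∀ l, IsTopologicalRing (K l)] [∀ l, T2Space (K l)]
    (V : Λ → Type*) [∀ l, AddCommGroup (V l)] [∀ l, Module (K l) (V l)]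
    [∀ l, FiniteDimensional (K l) (V l)] (ρ : ∀ l, Representation (K l) Γ (V l))
    (hcont : ∀ l (v : V l) (f : Module.Dual (K l) (V l)), Continuous fun g => f (ρ l g v))
    (z : P → ℕ) (hz : ∀ l x, nEig (ρ l (Fr x)) = z x) :
    ∃ (U : Subgroup Γ) (_ : U.Normal), IsOpen (U : Set Γ) ∧
      HasDirichletDensity N d
        {y | ∀ x, IsConj ((Fr x : Γ) : Γ ⧸ U) ((Fr y : Γ) : Γ ⧸ U) → z x ≤ z y} 1 ∧
      ∀ l, Good (ρ l) Γ₀ →
        (∀ y, (∀ x, IsConj ((Fr x : Γ) : Γ ⧸ U) ((Fr y : Γ) : Γ ⧸ U) → z x ≤ z y) →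
          Module.End.IsSemisimple (ρ l (Fr y))) ∧
        ∀ y, ∃ x, IsConj ((Fr x : Γ) : Γ ⧸ U) ((Fr y : Γ) : Γ ⧸ U) ∧
          (minpoly (K l) (ρ l (Fr y))).natDegree ≤ z x := by
  classical
  let _ : MeasurableSpace Γ := borel Γ
  have : BorelSpace Γ := ⟨rfl⟩
  let μ : Measure Γ := Measure.haarMeasure (⊤ : TopologicalSpace.PositiveCompacts Γ)
  have : IsProbabilityMeasure μ := ⟨by
    have := Measure.haarMeasure_self (K₀ := (⊤ : TopologicalSpace.PositiveCompacts Γ))
    rw [TopologicalSpace.PositiveCompacts.coe_top] at this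
    exact this⟩
  let l0 : Λ := Classical.arbitrary Λ
  obtain ⟨U, hUn, hUo, hU⟩ := specGEN1 μ (ρ l0) (hcont l0)
  obtain ⟨hZc, hZ0⟩ := hU U hUn hUo le_rfl
  have hnc : ∀ l (b g : Γ), nEig (ρ l (b * g * b⁻¹)) = nEig (ρ l g) := by
    intro l b g
    rw [map_mul, map_mul]
    exact TA.nEig_conj _ _ _ (by rw [← map_mul, mul_inv_cancel, map_one])
      (by rw [← map_mul, inv_mul_cancel, map_one])
  refine ⟨U, hUn, hUo, ?_, ?_⟩
  · have := specCHE μ N d Fr hcheb _ hZc (by
      rintro g ⟨u, hu, hg⟩ b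
      refine ⟨b * u * b⁻¹, hUn.conj_mem u hu b, ?_⟩
      have e1 : b * g * b⁻¹ * (b * u * b⁻¹) = b * (g * u) * b⁻¹ := by group
      rw [e1, hnc, hnc]
      exact hg) hZ0
      {y | ∀ x, IsConj ((Fr x : Γ) : Γ ⧸ U) ((Fr y : Γ) : Γ ⧸ U) → z x ≤ z y}ᶜ (by
      intro y hy
      rw [Set.mem_compl_iff, Set.mem_ofPred_eq] at hy
      push Not at hy
      obtain ⟨x, hxy, hlt⟩ := hy
      obtain ⟨b, u, hu, hb⟩ := exists_of_isConj U hxy
      refine ⟨u, hu, ?_⟩
      rw [← hb, hnc, hz, hz]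
      exact hlt)
    rwa [compl_compl] at this
  · intro l hl
    have hss := ss_of_good (ρ l) (hcont l) Γ₀ hl
    have hA : ∀ (U : Subgroup Γ) [U.Normal] [U.FiniteIndex] (g : Γ),
        (∀ u ∈ U, nEig (ρ l (g * u)) ≤ nEig (ρ l g)) → Module.End.IsSemisimple (ρ l g) :=
      fun U _ _ g hg => theoremA (ρ l) hss U g hg
    constructor
    · intro y hy
      have : Finite (Γ ⧸ U) := U.quotient_finite_of_isOpen hUo
      have : U.FiniteIndex := Subgroup.finiteIndex_of_finite_quotient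
      apply hA U
      intro u hu
      obtain ⟨x, b, u', hu', hb, hmax⟩ := specMAXF (ρ l) (hcont l) N d Fr hcheb U hUo (Fr y)
      refine (hmax u hu).trans ?_
      rw [hz, hz]
      exact hy x (isConj_of U hu' hb)
    · intro y
      obtain ⟨U1, hU1n, hU1o, hU1⟩ := specGEN μ (ρ l) (hcont l) hA
      obtain ⟨-, -, h3⟩ := hU1 (U ⊓ U1) inferInstance (hUo.inter hU1o) inf_le_right
      obtain ⟨u, hu, hdeg⟩ := h3 (Fr y)
      obtain ⟨x, b, u', hu', hb, hmax⟩ := specMAXF (ρ l) (hcont l) N d Fr hcheb U hUo (Fr y)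
      refine ⟨x, isConj_of U hu' hb, hdeg.trans ?_⟩
      rw [← hz l]
      exact hmax u hu.1

end MPb685ZO
end

section
/-!
MP_b685ef_ag, zero-one law, final assembly, all open normal subgroups `U` at once: the
deterministic statement holds for every `U`, the density statement for every small `U`.
-/
open Filter Topology MeasureTheory Polynomial

namespace MPb685ZO

namespace FinB

/-- `y` is `U`-generic: no `x` whose Frobenius is conjugate to the one of `y` modulo `U` has a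
larger number `z x`. -/
def Generic {Γ : Type*} [Group Γ] {P : Type*} (Fr : P → Γ) (z : P → ℕ) (U : Subgroup Γ) [U.Normal]
    (y : P) : Prop :=
  ∀ x, IsConj ((Fr x : Γ) : Γ ⧸ U) ((Fr y : Γ) : Γ ⧸ U) → z x ≤ z y

end FinB

open FinA FinB in
theorem finB {Γ : Type*} [Group Γ] [TopologicalSpace Γ] [IsTopologicalGroup Γ] [CompactSpace Γ]
    [T2Space Γ] [TotallyDisconnectedSpace Γ] (Γ₀ : Subgroup Γ) [Γ₀.Normal]
    {P : Type*} (N : P → ℕ) (d : ℝ) (Fr : P → Γ) (hcheb : Chebotarev N d Fr)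
    {Λ : Type*} [Nonempty Λ] (K : Λ → Type*) [∀ l, Field (K l)] [∀ l, CharZero (K l)]
    [∀ l, TopologicalSpace (K l)] [∀ l, IsTopologicalRing (K l)] [∀ l, T2Space (K l)]
    (V : Λ → Type*) [∀ l, AddCommGroup (V l)] [∀ l, Module (K l) (V l)]
    [∀ l, FiniteDimensional (K l) (V l)] (ρ : ∀ l, Representation (K l) Γ (V l))
    (hcont : ∀ l (v : V l) (f : Module.Dual (K l) (V l)), Continuous fun g => f (ρ l g v))
    (q : P → ℚ[X]) (hq : ∀ l x, LinearMap.charpoly (ρ l (Fr x)) = (q x).map (algebraMap ℚ (K l))) :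
    (∃ U₀ : Subgroup Γ, IsOpen (U₀ : Set Γ) ∧ ∀ (U : Subgroup Γ) [U.Normal],
      IsOpen (U : Set Γ) → U ≤ U₀ →
        HasDirichletDensity N d {y | Generic Fr (fun x => ((q x).rootSet ℂ).ncard) U y} 1) ∧
    ∀ l, Good (ρ l) Γ₀ → ∀ (U : Subgroup Γ) [U.Normal], IsOpen (U : Set Γ) →
      (∀ y, Generic Fr (fun x => ((q x).rootSet ℂ).ncard) U y →
        Module.End.IsSemisimple (ρ l (Fr y))) ∧
      ∀ y, ∃ x, IsConj ((Fr x : Γ) : Γ ⧸ U) ((Fr y : Γ) : Γ ⧸ U) ∧
        (minpoly (K l) (ρ l (Fr y))).natDegree ≤ ((q x).rootSet ℂ).ncard := by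
  classical
  set z : P → ℕ := fun x => ((q x).rootSet ℂ).ncard with hzdef
  have hz : ∀ l x, nEig (ρ l (Fr x)) = z x := fun l x => specCMP _ _ (hq l x)
  let _ : MeasurableSpace Γ := borel Γ
  have : BorelSpace Γ := ⟨rfl⟩
  let μ : Measure Γ := Measure.haarMeasure (⊤ : TopologicalSpace.PositiveCompacts Γ)
  have : IsProbabilityMeasure μ := ⟨by
    have := Measure.haarMeasure_self (K₀ := (⊤ : TopologicalSpace.PositiveCompacts Γ))
    rw [TopologicalSpace.PositiveCompacts.coe_top] at this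
    exact this⟩
  let l0 : Λ := Classical.arbitrary Λ
  have hnc : ∀ l (b g : Γ), nEig (ρ l (b * g * b⁻¹)) = nEig (ρ l g) := by
    intro l b g
    rw [map_mul, map_mul]
    exact TA.nEig_conj _ _ _ (by rw [← map_mul, mul_inv_cancel, map_one])
      (by rw [← map_mul, inv_mul_cancel, map_one])
  refine ⟨?_, ?_⟩
  · obtain ⟨U₀, hU₀n, hU₀o, hU⟩ := specGEN1 μ (ρ l0) (hcont l0)
    refine ⟨U₀, hU₀o, ?_⟩
    intro U hUn hUo hUle
    obtain ⟨hZc, hZ0⟩ := hU U hUn hUo hUle
    have := specCHE μ N d Fr hcheb _ hZc (by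
      rintro g ⟨u, hu, hg⟩ b
      refine ⟨b * u * b⁻¹, hUn.conj_mem u hu b, ?_⟩
      have e1 : b * g * b⁻¹ * (b * u * b⁻¹) = b * (g * u) * b⁻¹ := by group
      rw [e1, hnc, hnc]
      exact hg) hZ0
      {y | Generic Fr z U y}ᶜ (by
      intro y hy
      have hy' : ¬ Generic Fr z U y := hy
      unfold Generic at hy'
      push Not at hy'
      obtain ⟨x, hxy, hlt⟩ := hy'
      obtain ⟨b, u, hu, hb⟩ := exists_of_isConj U hxy
      refine ⟨u, hu, ?_⟩
      rw [← hb, hnc, hz, hz]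
      exact hlt)
    rwa [compl_compl] at this
  · intro l hl U hUn hUo
    have hss := ss_of_good (ρ l) (hcont l) Γ₀ hl
    have hA : ∀ (U : Subgroup Γ) [U.Normal] [U.FiniteIndex] (g : Γ),
        (∀ u ∈ U, nEig (ρ l (g * u)) ≤ nEig (ρ l g)) → Module.End.IsSemisimple (ρ l g) :=
      fun U _ _ g hg => theoremA (ρ l) hss U g hg
    constructor
    · intro y hy
      have : Finite (Γ ⧸ U) := U.quotient_finite_of_isOpen hUo
      have : U.FiniteIndex := Subgroup.finiteIndex_of_finite_quotient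
      apply hA U
      intro u hu
      obtain ⟨x, b, u', hu', hb, hmax⟩ := specMAXF (ρ l) (hcont l) N d Fr hcheb U hUo (Fr y)
      refine (hmax u hu).trans ?_
      rw [hz, hz]
      exact hy x (isConj_of U hu' hb)
    · intro y
      obtain ⟨U1, hU1n, hU1o, hU1⟩ := specGEN μ (ρ l) (hcont l) hA
      obtain ⟨-, -, h3⟩ := hU1 (U ⊓ U1) inferInstance (hUo.inter hU1o) inf_le_right
      obtain ⟨u, hu, hdeg⟩ := h3 (Fr y)
      obtain ⟨x, b, u', hu', hb, hmax⟩ := specMAXF (ρ l) (hcont l) N d Fr hcheb U hUo (Fr y)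
      refine ⟨x, isConj_of U hu' hb, hdeg.trans ?_⟩
      change _ ≤ z x
      rw [← hz l]
      exact hmax u hu.1

end MPb685ZO
end

section
/-!
MP_b685ef_ag, zero-one law, final assembly (D): one unipotent operator.
-/
open Filter Topology MeasureTheory Polynomial

namespace MPb685ZO

namespace FinD

section linear

variable {K : Type*} [Field K] [CharZero K] {V : Type*} [AddCommGroup V] [Module K V]
  [FiniteDimensional K V]

/-- `(w ^ d - 1) ^ j` and `(w - 1) ^ j` differ by an invertible factor. -/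
lemma exists_unit (w : Module.End K V) (hw : IsNilpotent (w - 1)) {d : ℕ} (hd : d ≠ 0) :
    ∃ q : Module.End K V, IsUnit q ∧ Commute q w ∧ w ^ d - 1 = q * (w - 1) := by
  have hc : Commute (∑ i ∈ Finset.range d, w ^ i) w :=
    Commute.sum_left _ _ _ fun i _ => (Commute.refl w).pow_left i
  refine ⟨∑ i ∈ Finset.range d, w ^ i, ?_, hc, (geom_sum_mul w d).symm⟩
  rw [JM.geom_sum_sub]
  have hcz : ∀ i : ℕ, Commute (w ^ i) (w - 1) := fun i =>
    ((Commute.refl w).pow_left i).sub_right (Commute.one_right _)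
  have hc' : Commute (∑ i ∈ Finset.range d, ∑ j ∈ Finset.range i, w ^ j) (w - 1) :=
    Commute.sum_left _ _ _ fun i _ => Commute.sum_left _ _ _ fun j _ => hcz j
  have h4 : IsUnit (d : Module.End K V) := by
    have : IsUnit (algebraMap K (Module.End K V) (d : K)) :=
      (isUnit_iff_ne_zero.mpr (Nat.cast_ne_zero.mpr hd)).map _
    simpa using this
  exact (hc'.isNilpotent_mul_left hw).isUnit_add_left_of_commute h4
    (Nat.cast_commute d _).symm

omit [CharZero K] [FiniteDimensional K V] in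
lemma finrank_range_unit_mul (q x : Module.End K V) (hq : IsUnit q) :
    Module.finrank K (LinearMap.range (q * x)) = Module.finrank K (LinearMap.range x) := by
  obtain ⟨q, rfl⟩ := hq
  have hinj : Function.Injective (q : Module.End K V) := by
    intro a b hab
    have h1 := congrArg ((q⁻¹ : (Module.End K V)ˣ) : Module.End K V) hab
    rwa [← Module.End.mul_apply, ← Module.End.mul_apply, Units.inv_mul] at h1
  have h : LinearMap.range ((q : Module.End K V) * x) = (LinearMap.range x).map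
      (q : Module.End K V) := by
    rw [Module.End.mul_eq_comp, LinearMap.range_comp]
  rw [h]
  exact (Submodule.equivMapOfInjective (q : Module.End K V) hinj
    (LinearMap.range x)).finrank_eq.symm

/-- the nilpotent part of `s w ^ d` has the ranks of `w - 1`. -/
lemma rank_eq (A s w : Module.End K V) (hA : IsUnit A) (hw : IsNilpotent (w - 1))
    (hwA : Commute w A) {d : ℕ} (hd : d ≠ 0) (hAs : A = s * w ^ d) (j : ℕ) :
    Module.finrank K (LinearMap.range ((A - s) ^ j)) =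
      Module.finrank K (LinearMap.range ((w - 1) ^ j)) := by
  obtain ⟨q, hq, hqw, hqe⟩ := exists_unit w hw hd
  have hwu : IsUnit w := by
    have : w = 1 + (w - 1) := by abel
    rw [this]
    exact hw.isUnit_one_add
  have hwdu : IsUnit (w ^ d) := hwu.pow d
  -- `s` commutes with `w`
  have hsw : Commute s w := by
    have h1 : s * w ^ d * w = w * (s * w ^ d) := by rw [← hAs]; exact hwA.symm.eq
    have h2 : (s * w) * w ^ d = (w * s) * w ^ d := by
      calc (s * w) * w ^ d = s * (w * w ^ d) := by rw [mul_assoc]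
        _ = s * (w ^ d * w) := by rw [← pow_succ', pow_succ]
        _ = s * w ^ d * w := by rw [mul_assoc]
        _ = w * (s * w ^ d) := h1
        _ = _ := by rw [mul_assoc]
    exact hwdu.mul_right_cancel h2
  have hsu : IsUnit s := by
    rw [hAs] at hA
    exact isUnit_of_mul_isUnit_left hA
  have h3 : A - s = (s * q) * (w - 1) := by
    rw [mul_assoc, ← hqe, mul_sub, mul_one, ← hAs]
  have hc : Commute (s * q) (w - 1) :=
    (hsw.mul_left hqw).sub_right (Commute.one_right _)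
  rw [h3, hc.mul_pow]
  exact finrank_range_unit_mul _ _ ((hsu.mul hq).pow j)

/-- the multiplicative Jordan decomposition of a semisimple invertible operator is trivial. -/
lemma eq_one_of_ss (A s w : Module.End K V) (hAu : IsUnit A) (hA : A.IsSemisimple)
    (hs : s.IsSemisimple) (hw : IsNilpotent (w - 1)) (hwA : Commute w A) {d : ℕ} (hd : d ≠ 0)
    (hAs : A = s * w ^ d) : w = 1 := by
  have h1 := rank_eq A s w hAu hw hwA hd hAs 1
  rw [pow_one, pow_one] at h1
  obtain ⟨q, hq, hqw, hqe⟩ := exists_unit w hw hd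
  have hwu : IsUnit w := by
    have : w = 1 + (w - 1) := by abel
    rw [this]
    exact hw.isUnit_one_add
  have hwdu : IsUnit (w ^ d) := hwu.pow d
  have hsw : Commute s w := by
    have h1 : s * w ^ d * w = w * (s * w ^ d) := by rw [← hAs]; exact hwA.symm.eq
    have h2 : (s * w) * w ^ d = (w * s) * w ^ d := by
      calc (s * w) * w ^ d = s * (w * w ^ d) := by rw [mul_assoc]
        _ = s * (w ^ d * w) := by rw [← pow_succ', pow_succ]
        _ = s * w ^ d * w := by rw [mul_assoc]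
        _ = w * (s * w ^ d) := h1
        _ = _ := by rw [mul_assoc]
    exact hwdu.mul_right_cancel h2
  -- `A - s` is nilpotent and semisimple
  have h3 : A - s = (s * q) * (w - 1) := by
    rw [mul_assoc, ← hqe, mul_sub, mul_one, ← hAs]
  have hc : Commute (s * q) (w - 1) :=
    (hsw.mul_left hqw).sub_right (Commute.one_right _)
  have hnil : IsNilpotent (A - s) := by
    rw [h3]
    exact hc.isNilpotent_mul_left hw
  have hAc : Commute A s := by
    rw [hAs]
    exact (Commute.refl s).mul_left ((hsw.pow_right d).symm)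
  have hss : (A - s).IsSemisimple := hA.sub_of_commute hAc hs
  have h4 := Module.End.eq_zero_of_isNilpotent_isSemisimple hnil hss
  rw [h4, LinearMap.range_zero, finrank_bot] at h1
  have h5 : LinearMap.range (w - 1) = ⊥ := by
    rw [← Submodule.finrank_eq_zero (R := K)]
    exact h1.symm
  rw [LinearMap.range_eq_bot] at h5
  exact sub_eq_zero.mp h5

end linear

end FinD

open FinA FinB in
theorem finD {Γ : Type*} [Group Γ] [TopologicalSpace Γ] [IsTopologicalGroup Γ] [CompactSpace Γ]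
    [T2Space Γ] [TotallyDisconnectedSpace Γ] (Γ₀ : Subgroup Γ) [Γ₀.Normal]
    (hcl : IsClosed (Γ₀ : Set Γ)) (φ : Γ)
    (hφ : (Subgroup.closure ((Γ₀ : Set Γ) ∪ {φ})).topologicalClosure = ⊤)
    {P : Type*} (N : P → ℕ) (d : ℝ) (Fr : P → Γ) (hcheb : Chebotarev N d Fr)
    (deg : P → ℕ) (hpos : ∀ x, deg x ≠ 0) (hdeg : ∀ x, (φ ^ deg x)⁻¹ * Fr x ∈ Γ₀)
    {Λ : Type*} [Nonempty Λ] (K : Λ → Type*) [∀ l, Field (K l)] [∀ l, CharZero (K l)]
    [∀ l, TopologicalSpace (K l)] [∀ l, IsTopologicalRing (K l)] [∀ l, T2Space (K l)]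
    (V : Λ → Type*) [∀ l, AddCommGroup (V l)] [∀ l, Module (K l) (V l)]
    [∀ l, FiniteDimensional (K l) (V l)] (ρ : ∀ l, Representation (K l) Γ (V l))
    (hcont : ∀ l (v : V l) (f : Module.Dual (K l) (V l)), Continuous fun g => f (ρ l g v))
    (q : P → ℚ[X]) (hq : ∀ l x, LinearMap.charpoly (ρ l (Fr x)) = (q x).map (algebraMap ℚ (K l))) :
    (∃ U₀ : Subgroup Γ, IsOpen (U₀ : Set Γ) ∧ ∀ (U : Subgroup Γ) [U.Normal],
      IsOpen (U : Set Γ) → U ≤ U₀ →
        HasDirichletDensity N d {y | Generic Fr (fun x => ((q x).rootSet ℂ).ncard) U y} 1) ∧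
    ∀ l, SSOn (ρ l) (Γ₀ : Set Γ) → ∃ w : Module.End (K l) (V l),
      IsNilpotent (w - 1) ∧ (∀ g, Commute w (ρ l g)) ∧
      (w = 1 ↔ ∃ y, Module.End.IsSemisimple (ρ l (Fr y))) ∧
      ∀ (U : Subgroup Γ) [U.Normal], IsOpen (U : Set Γ) →
        ∀ y, Generic Fr (fun x => ((q x).rootSet ℂ).ncard) U y →
          ∃ s : Module.End (K l) (V l), s.IsSemisimple ∧ ρ l (Fr y) = s * w ^ deg y ∧
            ∀ j, Module.finrank (K l) (LinearMap.range ((ρ l (Fr y) - s) ^ j)) =
              Module.finrank (K l) (LinearMap.range ((w - 1) ^ j)) := by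
  classical
  refine ⟨(finB Γ₀ N d Fr hcheb K V ρ hcont q hq).1, ?_⟩
  intro l h0
  set z : P → ℕ := fun x => ((q x).rootSet ℂ).ncard with hzdef
  have hz : ∀ l x, nEig (ρ l (Fr x)) = z x := fun l x => specCMP _ _ (hq l x)
  have hquot : ∀ x, ((Fr x : Γ) : Γ ⧸ Γ₀) = ((φ : Γ) : Γ ⧸ Γ₀) ^ deg x := by
    intro x
    have h1 := QuotientGroup.eq.mpr (hdeg x)
    rw [← h1]
    rfl
  have hdeg' : ∀ x y, (Fr x ^ deg y)⁻¹ * Fr y ^ deg x ∈ Γ₀ := by
    intro x y
    rw [← QuotientGroup.eq]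
    change ((Fr x : Γ) : Γ ⧸ Γ₀) ^ deg y = ((Fr y : Γ) : Γ ⧸ Γ₀) ^ deg x
    rw [hquot, hquot, ← pow_mul, ← pow_mul, mul_comm]
  obtain ⟨w, hwn, hwc, hwy⟩ := specJM (ρ l) Γ₀ h0 (CYC.comm_mem Γ₀ hcl φ hφ) Fr deg hpos hdeg'
  have hunit : ∀ g, IsUnit (ρ l g) := fun g => ⟨JM.rU (ρ l) g, rfl⟩
  -- generic points
  have hgen : ∀ (U : Subgroup Γ) [U.Normal], IsOpen (U : Set Γ) → ∀ y, Generic Fr z U y →
      ∀ u ∈ U, nEig (ρ l (Fr y * u)) ≤ nEig (ρ l (Fr y)) := by
    intro U hUn hUo y hy u hu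
    obtain ⟨x, b, u', hu', hb, hmax⟩ := specMAXF (ρ l) (hcont l) N d Fr hcheb U hUo (Fr y)
    refine (hmax u hu).trans ?_
    rw [hz, hz]
    exact hy x (isConj_of U hu' hb)
  have hmain : ∀ (U : Subgroup Γ) [U.Normal], IsOpen (U : Set Γ) → ∀ y, Generic Fr z U y →
      ∃ s : Module.End (K l) (V l), s.IsSemisimple ∧ ρ l (Fr y) = s * w ^ deg y := by
    intro U hUn hUo y hy
    have : Finite (Γ ⧸ U) := U.quotient_finite_of_isOpen hUo
    exact hwy y ⟨U, hUn, Subgroup.finiteIndex_of_finite_quotient, hgen U hUo y hy⟩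
  -- there is a generic point
  have hex : ∃ y, Generic Fr z (⊤ : Subgroup Γ) y := by
    obtain ⟨x0, -, -⟩ := specFRO N d Fr hcheb Set.univ isOpen_univ ⟨1, trivial⟩
    let S : Set ℕ := Set.range z
    have hne : S.Nonempty := ⟨_, x0, rfl⟩
    have hbd : BddAbove S := by
      refine ⟨Module.finrank (K l) (V l), ?_⟩
      rintro _ ⟨x, rfl⟩
      rw [← hz l]
      exact MAXF.nEig_le _
    obtain ⟨y, hy⟩ := Nat.sSup_mem hne hbd
    exact ⟨y, fun x _ => by rw [hy]; exact le_csSup hbd ⟨x, rfl⟩⟩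
  obtain ⟨y0, hy0⟩ := hex
  refine ⟨w, hwn, hwc, ⟨?_, ?_⟩, ?_⟩
  · intro hw1
    obtain ⟨s, hs, he⟩ := hmain ⊤ isOpen_univ y0 hy0
    refine ⟨y0, ?_⟩
    rw [he, hw1, one_pow, mul_one]
    exact hs
  · rintro ⟨y, hy⟩
    have hgood : Good (ρ l) Γ₀ := by
      refine ⟨h0, Fr y, ⊥, bot_le, ?_, ?_, CYC.finiteIndex Γ₀ φ (Fr y) hφ (deg y) (hpos y)
        (hdeg y), ?_⟩
      · intro i hi
        rw [Subgroup.mem_bot] at hi ⊢
        rw [hi, mul_one, inv_mul_cancel]
      · intro i hi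
        rw [Subgroup.mem_bot] at hi
        rw [hi, map_one, sub_self]
        exact IsNilpotent.zero
      · intro W _ hWs
        have htop : fixed (ρ l) (⊥ : Subgroup Γ) = ⊤ := by
          rw [eq_top_iff]
          intro v _ i hi
          rw [Subgroup.mem_bot] at hi
          rw [hi, map_one]
          rfl
        rw [htop]
        rw [Module.End.isSemisimple_iff] at hy
        obtain ⟨W', hW', hc⟩ := hy W (fun v hv => hWs (Fr y) rfl v hv)
        refine ⟨W', le_top, ?_, hc.inf_eq_bot, hc.sup_eq_top⟩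
        intro g hg v hv
        rw [Set.mem_singleton_iff] at hg
        rw [hg]
        exact hW' hv
    have hss := ss_of_good (ρ l) (hcont l) Γ₀ hgood
    obtain ⟨s, hs, he⟩ := hmain ⊤ isOpen_univ y0 hy0
    have hA : Module.End.IsSemisimple (ρ l (Fr y0)) :=
      theoremA (ρ l) hss ⊤ (Fr y0) (hgen ⊤ isOpen_univ y0 hy0)
    exact FinD.eq_one_of_ss _ s w (hunit _) hA hs hwn (hwc _) (hpos y0) he
  · intro U hUn hUo y hy
    obtain ⟨s, hs, he⟩ := hmain U hUo y hy
    exact ⟨s, hs, he, fun j => FinD.rank_eq _ s w (hunit _) hwn (hwc _) (hpos y) he j⟩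

end MPb685ZO
end

section
/-!
MP_b685ef_ag, zero-one law, final assembly (D): one unipotent operator; version with an arbitrary
function `z` counting the distinct eigenvalues, and with an arbitrary field of coefficients.
-/
open Filter Topology MeasureTheory Polynomial

namespace MPb685ZO

namespace FinE

open JM in
/-- uniqueness of the unipotent operator -/
lemma unip_unique {K : Type*} [Field K] [CharZero K] {V : Type*} [AddCommGroup V] [Module K V]
    [FiniteDimensional K V] (A s w s' w' : Module.End K V) (hA : IsUnit A)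
    (hs : s.IsSemisimple) (hw : IsNilpotent (w - 1)) (hwA : Commute w A)
    (hs' : s'.IsSemisimple) (hw' : IsNilpotent (w' - 1)) (hwA' : Commute w' A)
    {d : ℕ} (hd : d ≠ 0) (hAs : A = s * w ^ d) (hAs' : A = s' * w' ^ d) : w' = w := by
  -- everything is invertible
  have key : ∀ s w : Module.End K V, s.IsSemisimple → IsNilpotent (w - 1) → Commute w A →
      A = s * w ^ d → ∃ a σ v : (Module.End K V)ˣ, (a : Module.End K V) = A ∧
        (v : Module.End K V) = w ∧ IsJD a σ (v ^ d) := by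
    intro s w hs hw hwA hAs
    have hwu : IsUnit w := by
      have : w = 1 + (w - 1) := by abel
      rw [this]
      exact hw.isUnit_one_add
    have hwdu : IsUnit (w ^ d) := hwu.pow d
    have hsw : Commute s w := by
      have h1 : s * w ^ d * w = w * (s * w ^ d) := by rw [← hAs]; exact hwA.symm.eq
      have h2 : (s * w) * w ^ d = (w * s) * w ^ d := by
        calc (s * w) * w ^ d = s * (w * w ^ d) := by rw [mul_assoc]
          _ = s * (w ^ d * w) := by rw [← pow_succ', pow_succ]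
          _ = s * w ^ d * w := by rw [mul_assoc]
          _ = w * (s * w ^ d) := h1
          _ = _ := by rw [mul_assoc]
      exact hwdu.mul_right_cancel h2
    have hsu : IsUnit s := by
      rw [hAs] at hA
      exact isUnit_of_mul_isUnit_left hA
    obtain ⟨a, ha⟩ := hA
    obtain ⟨σ, rfl⟩ := hsu
    obtain ⟨v, rfl⟩ := hwu
    refine ⟨a, σ, v, ha, rfl, ?_, ?_, hs, ?_⟩
    · apply Units.ext
      rw [ha, hAs, Units.val_mul, Units.val_pow_eq_pow_val]
    · have : Commute σ v := Units.ext hsw.eq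
      exact this.pow_right d
    · rw [Units.val_pow_eq_pow_val, ← geom_sum_mul]
      refine Commute.isNilpotent_mul_left ?_ hw
      apply Commute.sub_right _ (Commute.one_right _)
      refine Commute.sum_left _ _ _ fun i _ => ?_
      exact (Commute.refl (v : Module.End K V)).pow_left i
  obtain ⟨a, σ, v, ha, rfl, hJ⟩ := key s w hs hw hwA hAs
  obtain ⟨a', σ', v', ha', rfl, hJ'⟩ := key s' w' hs' hw' hwA' hAs'
  have haa : a = a' := Units.ext (ha.trans ha'.symm)
  subst haa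
  have h1 := (hJ.unique hJ').2
  -- the canonical root
  have hun : IsNilpotent (((v ^ d : (Module.End K V)ˣ) : Module.End K V) - 1) := hJ.un
  obtain ⟨r, hra, hrn, hrd⟩ := exists_root K _ hun hd
  have hru : IsUnit r := by
    have : r = 1 + (r - 1) := by abel
    rw [this]
    exact hrn.isUnit_one_add
  obtain ⟨r, rfl⟩ := hru
  have hrd' : r ^ d = v ^ d := Units.ext (by rw [Units.val_pow_eq_pow_val]; exact hrd)
  have hc1 : Commute r v := by
    apply Units.ext
    have h2 : Commute (v : Module.End K V) ((v ^ d : (Module.End K V)ˣ) : Module.End K V) := by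
      rw [Units.val_pow_eq_pow_val]
      exact (Commute.refl _).pow_right d
    exact (Algebra.commute_of_mem_adjoin_singleton_of_commute hra h2).symm.eq
  have hc2 : Commute r v' := by
    apply Units.ext
    have h2 : Commute (v' : Module.End K V) ((v ^ d : (Module.End K V)ˣ) : Module.End K V) := by
      rw [h1, Units.val_pow_eq_pow_val]
      exact (Commute.refl _).pow_right d
    exact (Algebra.commute_of_mem_adjoin_singleton_of_commute hra h2).symm.eq
  have e1 : r = v := root_inj K hc1 hrn hw hd hrd'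
  have e2 : r = v' := root_inj K hc2 hrn hw' hd (hrd'.trans h1)
  rw [← e1, ← e2]

end FinE

open FinA FinB in
theorem finZ {Γ : Type*} [Group Γ] [TopologicalSpace Γ] [IsTopologicalGroup Γ] [CompactSpace Γ]
    [T2Space Γ] [TotallyDisconnectedSpace Γ] (Γ₀ : Subgroup Γ) [Γ₀.Normal]
    (hcl : IsClosed (Γ₀ : Set Γ)) (φ : Γ)
    (hφ : (Subgroup.closure ((Γ₀ : Set Γ) ∪ {φ})).topologicalClosure = ⊤)
    {P : Type*} (N : P → ℕ) (d : ℝ) (Fr : P → Γ) (hcheb : Chebotarev N d Fr)
    (deg : P → ℕ) (hpos : ∀ x, deg x ≠ 0) (hdeg : ∀ x, (φ ^ deg x)⁻¹ * Fr x ∈ Γ₀)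
    {Λ : Type*} [Nonempty Λ] (K : Λ → Type*) [∀ l, Field (K l)] [∀ l, CharZero (K l)]
    [∀ l, TopologicalSpace (K l)] [∀ l, IsTopologicalRing (K l)] [∀ l, T2Space (K l)]
    (V : Λ → Type*) [∀ l, AddCommGroup (V l)] [∀ l, Module (K l) (V l)]
    [∀ l, FiniteDimensional (K l) (V l)] (ρ : ∀ l, Representation (K l) Γ (V l))
    (hcont : ∀ l (v : V l) (f : Module.Dual (K l) (V l)), Continuous fun g => f (ρ l g v))
    (z : P → ℕ) (hz : ∀ l x, nEig (ρ l (Fr x)) = z x) :
    (∃ U₀ : Subgroup Γ, IsOpen (U₀ : Set Γ) ∧ ∀ (U : Subgroup Γ) [U.Normal],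
      IsOpen (U : Set Γ) → U ≤ U₀ → HasDirichletDensity N d {y | Generic Fr z U y} 1) ∧
    ∀ l, SSOn (ρ l) (Γ₀ : Set Γ) → ∃! w : Module.End (K l) (V l),
      IsNilpotent (w - 1) ∧ (∀ g, Commute w (ρ l g)) ∧
      (w = 1 ↔ SSOn (ρ l) Set.univ) ∧
      ∀ (U : Subgroup Γ) [U.Normal], IsOpen (U : Set Γ) → ∀ y, Generic Fr z U y →
        ∃ s : Module.End (K l) (V l), s.IsSemisimple ∧ ρ l (Fr y) = s * w ^ deg y ∧
          ∀ j, Module.finrank (K l) (LinearMap.range ((ρ l (Fr y) - s) ^ j)) =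
            Module.finrank (K l) (LinearMap.range ((w - 1) ^ j)) := by
  classical
  refine ⟨?_, ?_⟩
  · let _ : MeasurableSpace Γ := borel Γ
    have : BorelSpace Γ := ⟨rfl⟩
    let μ : Measure Γ := Measure.haarMeasure (⊤ : TopologicalSpace.PositiveCompacts Γ)
    have : IsProbabilityMeasure μ := ⟨by
      have := Measure.haarMeasure_self (K₀ := (⊤ : TopologicalSpace.PositiveCompacts Γ))
      rw [TopologicalSpace.PositiveCompacts.coe_top] at this
      exact this⟩
    let l0 : Λ := Classical.arbitrary Λ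
    obtain ⟨U₀, hU₀n, hU₀o, hU⟩ := specGEN1 μ (ρ l0) (hcont l0)
    refine ⟨U₀, hU₀o, ?_⟩
    intro U hUn hUo hUle
    obtain ⟨hZc, hZ0⟩ := hU U hUn hUo hUle
    have := specCHE μ N d Fr hcheb _ hZc (by
      rintro g ⟨u, hu, hg⟩ b
      refine ⟨b * u * b⁻¹, hUn.conj_mem u hu b, ?_⟩
      have e1 : b * g * b⁻¹ * (b * u * b⁻¹) = b * (g * u) * b⁻¹ := by group
      rw [e1, MAXF.nEig_conj, MAXF.nEig_conj]
      exact hg) hZ0
      {y | Generic Fr z U y}ᶜ (by
      intro y hy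
      have hy' : ¬ Generic Fr z U y := hy
      unfold Generic at hy'
      push Not at hy'
      obtain ⟨x, hxy, hlt⟩ := hy'
      obtain ⟨b, u, hu, hb⟩ := exists_of_isConj U hxy
      refine ⟨u, hu, ?_⟩
      rw [← hb, MAXF.nEig_conj, hz, hz]
      exact hlt)
    rwa [compl_compl] at this
  intro l h0
  have hquot : ∀ x, ((Fr x : Γ) : Γ ⧸ Γ₀) = ((φ : Γ) : Γ ⧸ Γ₀) ^ deg x := by
    intro x
    have h1 := QuotientGroup.eq.mpr (hdeg x)
    rw [← h1]
    rfl
  have hdeg' : ∀ x y, (Fr x ^ deg y)⁻¹ * Fr y ^ deg x ∈ Γ₀ := by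
    intro x y
    rw [← QuotientGroup.eq]
    change ((Fr x : Γ) : Γ ⧸ Γ₀) ^ deg y = ((Fr y : Γ) : Γ ⧸ Γ₀) ^ deg x
    rw [hquot, hquot, ← pow_mul, ← pow_mul, mul_comm]
  obtain ⟨w, hwn, hwc, hwy⟩ := specJM (ρ l) Γ₀ h0 (CYC.comm_mem Γ₀ hcl φ hφ) Fr deg hpos hdeg'
  have hunit : ∀ g, IsUnit (ρ l g) := fun g => ⟨JM.rU (ρ l) g, rfl⟩
  -- generic points
  have hgen : ∀ (U : Subgroup Γ) [U.Normal], IsOpen (U : Set Γ) → ∀ y, Generic Fr z U y →
      ∀ u ∈ U, nEig (ρ l (Fr y * u)) ≤ nEig (ρ l (Fr y)) := by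
    intro U hUn hUo y hy u hu
    obtain ⟨x, b, u', hu', hb, hmax⟩ := specMAXF (ρ l) (hcont l) N d Fr hcheb U hUo (Fr y)
    refine (hmax u hu).trans ?_
    rw [hz, hz]
    exact hy x (isConj_of U hu' hb)
  have hmain : ∀ (U : Subgroup Γ) [U.Normal], IsOpen (U : Set Γ) → ∀ y, Generic Fr z U y →
      ∃ s : Module.End (K l) (V l), s.IsSemisimple ∧ ρ l (Fr y) = s * w ^ deg y := by
    intro U hUn hUo y hy
    have : Finite (Γ ⧸ U) := U.quotient_finite_of_isOpen hUo
    exact hwy y ⟨U, hUn, Subgroup.finiteIndex_of_finite_quotient, hgen U hUo y hy⟩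
  -- there is a generic point
  have hex : ∃ y, Generic Fr z (⊤ : Subgroup Γ) y := by
    obtain ⟨x0, -, -⟩ := specFRO N d Fr hcheb Set.univ isOpen_univ ⟨1, trivial⟩
    let S : Set ℕ := Set.range z
    have hne : S.Nonempty := ⟨_, x0, rfl⟩
    have hbd : BddAbove S := by
      refine ⟨Module.finrank (K l) (V l), ?_⟩
      rintro _ ⟨x, rfl⟩
      rw [← hz l]
      exact MAXF.nEig_le _
    obtain ⟨y, hy⟩ := Nat.sSup_mem hne hbd
    exact ⟨y, fun x _ => by rw [hy]; exact le_csSup hbd ⟨x, rfl⟩⟩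
  obtain ⟨y0, hy0⟩ := hex
  refine ⟨w, ⟨hwn, hwc, ⟨?_, ?_⟩, ?_⟩, ?_⟩
  · intro hw1
    obtain ⟨s, hs, he⟩ := hmain ⊤ isOpen_univ y0 hy0
    have hy : Module.End.IsSemisimple (ρ l (Fr y0)) := by
      rw [he, hw1, one_pow, mul_one]
      exact hs
    have hgood : Good (ρ l) Γ₀ := by
      refine ⟨h0, Fr y0, ⊥, bot_le, ?_, ?_, CYC.finiteIndex Γ₀ φ (Fr y0) hφ (deg y0) (hpos y0)
        (hdeg y0), ?_⟩
      · intro i hi
        rw [Subgroup.mem_bot] at hi ⊢
        rw [hi, mul_one, inv_mul_cancel]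
      · intro i hi
        rw [Subgroup.mem_bot] at hi
        rw [hi, map_one, sub_self]
        exact IsNilpotent.zero
      · intro W _ hWs
        have htop : fixed (ρ l) (⊥ : Subgroup Γ) = ⊤ := by
          rw [eq_top_iff]
          intro v _ i hi
          rw [Subgroup.mem_bot] at hi
          rw [hi, map_one]
          rfl
        rw [htop]
        rw [Module.End.isSemisimple_iff] at hy
        obtain ⟨W', hW', hc⟩ := hy W (fun v hv => hWs (Fr y0) rfl v hv)
        refine ⟨W', le_top, ?_, hc.inf_eq_bot, hc.sup_eq_top⟩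
        intro g hg v hv
        rw [Set.mem_singleton_iff] at hg
        rw [hg]
        exact hW' hv
    exact ss_of_good (ρ l) (hcont l) Γ₀ hgood
  · intro hss
    obtain ⟨s, hs, he⟩ := hmain ⊤ isOpen_univ y0 hy0
    have hA : Module.End.IsSemisimple (ρ l (Fr y0)) :=
      theoremA (ρ l) hss ⊤ (Fr y0) (hgen ⊤ isOpen_univ y0 hy0)
    exact FinD.eq_one_of_ss _ s w (hunit _) hA hs hwn (hwc _) (hpos y0) he
  · intro U hUn hUo y hy
    obtain ⟨s, hs, he⟩ := hmain U hUo y hy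
    exact ⟨s, hs, he, fun j => FinD.rank_eq _ s w (hunit _) hwn (hwc _) (hpos y) he j⟩
  · rintro w' ⟨hwn', hwc', -, hw'⟩
    obtain ⟨s, hs, he⟩ := hmain ⊤ isOpen_univ y0 hy0
    obtain ⟨s', hs', he', -⟩ := hw' ⊤ isOpen_univ y0 hy0
    exact FinE.unip_unique _ s w s' w' (hunit _) hs hwn (hwc _) hs' hwn' (hwc' _) (hpos y0) he he'

/-- coefficients in an arbitrary field `E` -/
theorem nEig_eq_natSepDegree {K : Type*} [Field K] {V : Type*} [AddCommGroup V] [Module K V]
    [FiniteDimensional K V] (A : Module.End K V) {E : Type*} [Field E] (ι : E →+* K) (q : E[X])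
    (h : LinearMap.charpoly A = q.map ι) : nEig A = q.natSepDegree := by
  unfold nEig
  rw [h, CMP.ncard_rootSet, Polynomial.natSepDegree_map]

end MPb685ZO
end
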