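import Mathlib

/-!
MP_b685ef_ag : zero-one law for Frobenius semisimplicity in families.
Definitions shared by all modules of this folder.
-/

open Filter Topology MeasureTheory

namespace MPb685ZO

variable {K : Type*} [Field K] {V : Type*} [AddCommGroup V] [Module K V] {G : Type*} [Group G]

/-- `W` is stable under the operators `ρ g`, `g ∈ S`. -/
def Stab (ρ : Representation K G V) (S : Set G) (W : Submodule K V) : Prop :=
  ∀ g ∈ S, ∀ w ∈ W, ρ g w ∈ W

/-- every subspace stable under `S` has a complement stable under `S`. -/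
def SSOn (ρ : Representation K G V) (S : Set G) : Prop :=
  ∀ W : Submodule K V, Stab ρ S W → ∃ W' : Submodule K V, Stab ρ S W' ∧ IsCompl W W'

/-- the number of distinct eigenvalues of `A` in an algebraic closure of `K`. -/
noncomputable def nEig [FiniteDimensional K V] (A : Module.End K V) : ℕ :=
  ((LinearMap.charpoly A).rootSet (AlgebraicClosure K)).ncard

/-- the set of points `A` has Dirichlet density `δ` (`N` is the norm, `d` the dimension). -/
def HasDirichletDensity {P : Type*} (N : P → ℕ) (d : ℝ) (A : Set P) (δ : ℝ) : Prop :=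
  Tendsto (fun s : ℝ => (∑' x : A, (N x : ℝ) ^ (-s)) / (∑' x : P, (N x : ℝ) ^ (-s)))
    (𝓝[>] d) (𝓝 δ)

/-- The Chebotarev density theorem for the system of Frobenius elements `Fr x`: in every finite
quotient by an open normal subgroup, every conjugation-invariant set `C` is hit with density
`|C|` divided by the order of the quotient. -/
def Chebotarev {Γ P : Type*} [Group Γ] [TopologicalSpace Γ] (N : P → ℕ) (d : ℝ) (Fr : P → Γ) :
    Prop :=
  ∀ (U : Subgroup Γ) [U.Normal], IsOpen (U : Set Γ) → ∀ C : Set (Γ ⧸ U),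
    (∀ a ∈ C, ∀ b : Γ ⧸ U, b * a * b⁻¹ ∈ C) →
    HasDirichletDensity N d {x | ((Fr x : Γ) : Γ ⧸ U) ∈ C}
      ((Set.ncard C : ℝ) / (Nat.card (Γ ⧸ U) : ℝ))

end MPb685ZO
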