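import Pool.Agent.Lib.MP_b685ef_ag.ZO.Defs

/-!
MP_b685ef_ag, zero-one law: the number of distinct eigenvalues of a matrix, and the exact
statements of the modules HAN, ORT, LIE, P1H, GEN (see the end of the file).
-/

open Polynomial

namespace MPb685ZO

/-- number of distinct eigenvalues of the matrix `A` in its own field. -/
noncomputable def nE {L : Type*} [Field L] {n : Type*} [Fintype n] [DecidableEq n]
    (A : Matrix n n L) : ℕ :=
  {x : L | A.charpoly.IsRoot x}.ncard

end MPb685ZO

/-!
All statements: `import Pool.Agent.Lib.MP_b685ef_ag.ZO.Defs2`, `namespace MPb685ZO`,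
`open Polynomial`.

## HAN (file HAN.lean, five theorems, namespace MPb685ZO)

variable {L : Type*} [Field L] [IsAlgClosed L] [CharZero L] {n : Type*} [Fintype n] [DecidableEq n]

theorem HAN.nil_of_vanish (A : Matrix n n L) (p : L[X])
    (h : ∀ x, A.charpoly.IsRoot x → p.IsRoot x) : IsNilpotent (aeval A p)
  [charpoly divides p^N, Cayley-Hamilton]
theorem HAN.vanish_of_nil (A : Matrix n n L) (p : L[X]) (h : IsNilpotent (aeval A p)) :
    ∀ x, A.charpoly.IsRoot x → p.IsRoot x
  [minpoly divides p^N, roots of charpoly = roots of minpoly]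
theorem HAN.trace_zero (A : Matrix n n L) (h : IsNilpotent A) : A.trace = 0
theorem HAN.det_eq_zero (A : Matrix n n L) (r : ℕ) (hr : nE A ≤ r) (P Q : Fin (r + 1) → L[X]) :
    (Matrix.of fun i j => (aeval A (P i * Q j)).trace).det = 0
  [r + 1 polynomials P_i, at most r eigenvalues: some c ≠ 0 with sum c_i P_i = 0 on the eigenvalues
   (LinearMap.ker_ne_bot_of_finrank_lt or so), so (sum c_i P_i)(A) is nilpotent, commutes with
   Q_j(A), the trace is 0: the rows are dependent, Matrix.exists_vecMul_eq_zero_iff]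
theorem HAN.hankel_ne_zero (A : Matrix n n L) :
    (Matrix.of fun i j : Fin (nE A) => (aeval A ((X : L[X]) ^ (i : ℕ) * X ^ (j : ℕ))).trace).det
      ≠ 0
  [if v M = 0, v ≠ 0, P := sum v_i X^i (degree < r = nE A, P ≠ 0): tr(P(A) A^j) = 0 for j < r; with
   S := prod over eigenvalues of (X - x) (monic of degree r, S(A) nilpotent): Q = Q %ₘ S + S (..),
   so tr(P(A) Q(A)) = 0 for ALL Q. P has < r roots, so P(x0) ≠ 0 for an eigenvalue x0. Take Q with
   P Q = the idempotent of x0 (or: all traces tr(P(A)^k), k ≥ 1, vanish, so P(A) is nilpotent in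
   char 0, contradiction with vanish_of_nil)]

## ORT (file ORT.lean, imports HAN; use only the five theorems)

theorem specORT {L : Type*} [Field L] [IsAlgClosed L] [CharZero L] {n : Type*} [Fintype n]
    [DecidableEq n] (A Y : Matrix n n L) (hA : IsUnit A) (B : Matrix n n L[X])
    (hB0 : B.map (fun x => x.coeff 0) = A) (hB1 : B.map (fun x => x.coeff 1) = A * Y)
    (hdet : ∀ P Q : Fin (nE A + 1) → L[X],
      (Matrix.of fun i j => (aeval B (P i * Q j)).trace).det = 0)
    (p : L[X]) (hp : IsNilpotent (aeval A p)) : (aeval A p * Y).trace = 0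
  [aeval B p is taken in the L-algebra Matrix n n L[X].
   (1) c0 := coeff 0 is a ring hom L[X] → L, c1 := coeff 1 satisfies c1(xy) = c0 x c1 y + c1 x c0 y
   (Polynomial.mul_coeff_zero, mul_coeff_one). c0 (tr (p(B))) = tr (p(A)),
   c1 (tr (p(B))) = tr (p'(A) * (A * Y)) (monomials: D_k := (B^k).map c1, D_(k+1) = D_k A + A^k A Y,
   tr (D_k A^j) = k tr (A^(k-1+j) A Y)).
   (2) S := prod over eigenvalues x of A of (X - C x), r := nE A. P_0 := S, Q_0 := S h,
   P_(i+1) := X^i, Q_(j+1) := X^j. M := the matrix of hdet. c0 of row 0 and of column 0 of M is 0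
   (traces of nilpotent matrices), the rest of c0 M is the Hankel matrix of HAN.hankel_ne_zero.
   Matrix.det_succ_row_zero and c1: 0 = c1 (det M) = c1 (M 0 0) * det (Hankel) (the other minors
   have c0 = 0, a zero column), so tr ((S^2 h)'(A) A Y) = 0 for all h.
   (3) phi(p) := tr (p(A) Y), linear; phi (X * (S^2 h)') = 0 for all h; phi (S^N g) = 0 for N := card n
   + 1 or so. By descending induction on k ≥ 1: phi (S^k g) = 0 for all g: apply phi to
   X (S^(k+1) g)' = (k+1) X S^k S' g + X S^(k+1) g', the last term is killed by induction, and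
   X S' is invertible modulo S^N (S separable with S(0) ≠ 0, as A is invertible).
   (4) p(A) nilpotent means S divides p (HAN.vanish_of_nil), so phi p = 0.]

## LIE (file LIE.lean)

theorem specLIE {K : Type*} [Field K] [CharZero K] {V : Type*} [AddCommGroup V] [Module K V]
    [FiniteDimensional K V] {G : Type*} [Group G] (ρ : Representation K G V)
    (hss : SSOn ρ Set.univ) (N : Set (Module.End K V)) (hnil : ∀ x ∈ N, IsNilpotent x)
    (hconj : ∀ x ∈ N, ∀ g : G, ρ g * x * ρ g⁻¹ ∈ N)
    (hstab : ∀ x ∈ N, ∀ W : Submodule K V, Stab ρ Set.univ W → ∀ w ∈ W, x w ∈ W)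
    (hbr : ∀ x ∈ N, ∀ y ∈ Submodule.span K N, x * y - y * x ∈ Submodule.span K N)
    (htr : ∀ x ∈ N, ∀ y ∈ N, LinearMap.trace K V (x * y) = 0) : ∀ x ∈ N, x = 0
  [u := span N is a Lie subalgebra of End V with zero trace form, so V is a nilpotent [u,u]-module
   (Mathlib: LieModule.isNilpotent_derivedSeries_of_traceForm_eq_zero). V0 := {v : [u,u] v = 0} is
   G-stable (hconj), its G-stable complement W is N-stable (hstab), so [u,u]-stable; if W ≠ 0 it
   contains a nonzero vector killed by [u,u] (nilpotency), contradiction. So [u,u] = 0: the elements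
   of N commute and are nilpotent; the same argument with V0 := {v : N v = 0}: a finite commuting set
   of nilpotent operators on W ≠ 0 has a common nonzero kernel vector (N replaced by a finite basis
   of u contained in N, or Engel). So V0 = V.]

## P1H (file P1H.lean): semisimplicity from one element which is semisimple on the inertia
invariants (generalises P1: I = 1)

theorem specP1H {K : Type*} [Field K] [CharZero K] {V : Type*} [AddCommGroup V] [Module K V]
    [FiniteDimensional K V] {G : Type*} [Group G] (ρ : Representation K G V)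
    (G0 : Subgroup G) [G0.Normal] (h0 : SSOn ρ (G0 : Set G))
    (I : Subgroup G) (hI : I ≤ G0) (a : G) (haI : ∀ i ∈ I, a⁻¹ * i * a ∈ I)
    (hfix : ∀ W : Submodule K V, Stab ρ (G0 : Set G) W → W ≠ ⊥ →
      ∃ w ∈ W, w ≠ 0 ∧ ∀ i ∈ I, ρ i w = w)
    (F : Submodule K V) (hF : ∀ v, v ∈ F ↔ ∀ i ∈ I, ρ i v = v)
    (haF : ∀ v ∈ F, ρ a v ∈ F)
    (hss : Module.End.IsSemisimple ((ρ a).restrict haF))
    (G1 : Subgroup G) [G1.FiniteIndex]
    (h1 : ∀ W : Submodule K V, Stab ρ (G0 : Set G) W → Stab ρ {a} W → Stab ρ (G1 : Set G) W) :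
    SSOn ρ Set.univ
  [helper85: message 40394. Ad(a) is semisimple on A := End_(G0) V because restriction
   A → End(F) is injective and equivariant; then as in P1 with A in place of End V.]

## GEN (file GEN.lean; may use MEA, ENV, HAN; hA is Theorem A)

theorem specGEN {Γ : Type*} [Group Γ] [TopologicalSpace Γ] [IsTopologicalGroup Γ] [CompactSpace Γ]
    [T2Space Γ] [TotallyDisconnectedSpace Γ] [MeasurableSpace Γ] [BorelSpace Γ]
    (μ : MeasureTheory.Measure Γ) [μ.IsMulLeftInvariant] [MeasureTheory.IsProbabilityMeasure μ]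
    [μ.Regular] {K : Type*} [Field K] [CharZero K]
    [TopologicalSpace K] [IsTopologicalRing K] [T2Space K] {V : Type*} [AddCommGroup V]
    [Module K V] [FiniteDimensional K V] (ρ : Representation K Γ V)
    (hc : ∀ (v : V) (f : Module.Dual K V), Continuous fun g => f (ρ g v))
    (hA : ∀ (U : Subgroup Γ) [U.Normal] [U.FiniteIndex] (g : Γ),
      (∀ u ∈ U, nEig (ρ (g * u)) ≤ nEig (ρ g)) → Module.End.IsSemisimple (ρ g)) :
    ∃ U0 : Subgroup Γ, U0.Normal ∧ IsOpen (U0 : Set Γ) ∧
      ∀ U : Subgroup Γ, U.Normal → IsOpen (U : Set Γ) → U ≤ U0 →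
        IsClosed {g : Γ | ∃ u ∈ U, nEig (ρ g) < nEig (ρ (g * u))} ∧
        μ {g : Γ | ∃ u ∈ U, nEig (ρ g) < nEig (ρ (g * u))} = 0 ∧
        (∀ g : Γ, ∃ u ∈ U, (minpoly K (ρ g)).natDegree ≤ nEig (ρ (g * u)))
  [h_r(g) := det (tr (ρ g)^(i+j))_(i,j<r), r ≤ dim V; on a coset gU with maximum r of nEig:
   nEig < r iff h_r = 0 (HAN over the algebraic closure: det_eq_zero with P_i = X^i for r - 1,
   hankel_ne_zero). f_phi(g) := det (phi_i ((ρ g)^j))_(i,j≤r) for functionals phi_i on End V: a finite
   set F of polynomial functions spans all of them (multilinear in phi), all h_r are in F. ENV gives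
   E, MEA gives U0 (the dichotomy passes to smaller U). Closed: Γ is a finite union of cosets gU,
   on each Z = {h_r = 0}. Null: h_r is not identically 0 on gU. Minimal polynomial: outside Z in
   gU, hA (with U, finite index since Γ is compact) says ρ g is semisimple, with r eigenvalues, so
   deg minpoly = r and f_phi = 0; so the zero set of f_phi in gU is not null, so f_phi = 0 on gU for
   all phi, so 1, ρ g, .., (ρ g)^r are dependent for every g in the coset.]

## TA (helper80): Theorem A from GP, HAN, ORT, LIE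

theorem theoremA {K : Type*} [Field K] [CharZero K] {V : Type*} [AddCommGroup V] [Module K V]
    [FiniteDimensional K V] {G : Type*} [Group G] (ρ : Representation K G V)
    (hss : SSOn ρ Set.univ) (U : Subgroup G) [U.Normal] [U.FiniteIndex] (g : G)
    (hmax : ∀ u ∈ U, nEig (ρ (g * u)) ≤ nEig (ρ g)) : Module.End.IsSemisimple (ρ g)
-/
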