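import Pool.Agent.Lib.MP_b685ef_ag.ZO.FinE

/-!
MP_b685ef_ag, zero-one law, final assembly (A), second form: the deterministic part for every open
normal subgroup `U`, the density for all small `U`.
-/

open Filter Topology MeasureTheory

namespace MPb685ZO

/-- The elements `Fr x` (`x ∈ P`) are equidistributed in the finite quotients of `Γ`, for the
Dirichlet density attached to the norm `N` and the dimension `d`: for every open normal subgroup
`U` and every conjugation-invariant subset `C` of `Γ ⧸ U`, the set of all `x` with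
`Fr x mod U ∈ C` has Dirichlet density `|C| / |Γ ⧸ U|`. (The same as `Chebotarev`.) -/
def FrobeniusSystem {Γ P : Type*} [Group Γ] [TopologicalSpace Γ] (N : P → ℕ) (d : ℝ)
    (Fr : P → Γ) : Prop :=
  ∀ (U : Subgroup Γ) [U.Normal], IsOpen (U : Set Γ) → ∀ C : Set (Γ ⧸ U),
    (∀ a ∈ C, ∀ b : Γ ⧸ U, b * a * b⁻¹ ∈ C) →
    HasDirichletDensity N d {x | ((Fr x : Γ) : Γ ⧸ U) ∈ C}
      ((Set.ncard C : ℝ) / (Nat.card (Γ ⧸ U) : ℝ))

open FinA in
theorem finA2 {Γ : Type*} [Group Γ] [TopologicalSpace Γ] [IsTopologicalGroup Γ] [CompactSpace Γ]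
    [T2Space Γ] [TotallyDisconnectedSpace Γ] (Γ₀ : Subgroup Γ) [Γ₀.Normal]
    {P : Type*} (N : P → ℕ) (d : ℝ) (Fr : P → Γ) (hFr : FrobeniusSystem N d Fr)
    {Λ : Type*} [Nonempty Λ] (K : Λ → Type*) [∀ l, Field (K l)] [∀ l, CharZero (K l)]
    [∀ l, TopologicalSpace (K l)] [∀ l, IsTopologicalRing (K l)] [∀ l, T2Space (K l)]
    (V : Λ → Type*) [∀ l, AddCommGroup (V l)] [∀ l, Module (K l) (V l)]
    [∀ l, FiniteDimensional (K l) (V l)] (ρ : ∀ l, Representation (K l) Γ (V l))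
    (hcont : ∀ l (v : V l) (f : Module.Dual (K l) (V l)), Continuous fun g => f (ρ l g v))
    (z : P → ℕ) (hz : ∀ l x, nEig (ρ l (Fr x)) = z x) :
    (∀ l, Good (ρ l) Γ₀ → ∀ (U : Subgroup Γ) (_ : U.Normal), IsOpen (U : Set Γ) → ∀ y : P,
      (∃ x, IsConj ((Fr x : Γ) : Γ ⧸ U) ((Fr y : Γ) : Γ ⧸ U) ∧
        (minpoly (K l) (ρ l (Fr y))).natDegree ≤ z x) ∧
      ((∀ x, IsConj ((Fr x : Γ) : Γ ⧸ U) ((Fr y : Γ) : Γ ⧸ U) → z x ≤ z y) →
        Module.End.IsSemisimple (ρ l (Fr y)))) ∧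
    ∃ (U₀ : Subgroup Γ), U₀.Normal ∧ IsOpen (U₀ : Set Γ) ∧
      ∀ (U : Subgroup Γ) (_ : U.Normal), IsOpen (U : Set Γ) → U ≤ U₀ →
        HasDirichletDensity N d
          {y | ∀ x, IsConj ((Fr x : Γ) : Γ ⧸ U) ((Fr y : Γ) : Γ ⧸ U) → z x ≤ z y} 1 := by
  classical
  have hcheb : Chebotarev N d Fr := hFr
  let _ : MeasurableSpace Γ := borel Γ
  have : BorelSpace Γ := ⟨rfl⟩
  let μ : Measure Γ := Measure.haarMeasure (⊤ : TopologicalSpace.PositiveCompacts Γ)
  have : IsProbabilityMeasure μ := ⟨by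
    have := Measure.haarMeasure_self (K₀ := (⊤ : TopologicalSpace.PositiveCompacts Γ))
    rw [TopologicalSpace.PositiveCompacts.coe_top] at this
    exact this⟩
  constructor
  · intro l hl U hUn hUo y
    have hss := ss_of_good (ρ l) (hcont l) Γ₀ hl
    have hA : ∀ (U : Subgroup Γ) [U.Normal] [U.FiniteIndex] (g : Γ),
        (∀ u ∈ U, nEig (ρ l (g * u)) ≤ nEig (ρ l g)) → Module.End.IsSemisimple (ρ l g) :=
      fun U _ _ g hg => theoremA (ρ l) hss U g hg
    obtain ⟨x, b, u', hu', hb, hmax⟩ := specMAXF (ρ l) (hcont l) N d Fr hcheb U hUo (Fr y)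
    constructor
    · obtain ⟨U1, hU1n, hU1o, hU1⟩ := specGEN μ (ρ l) (hcont l) hA
      obtain ⟨-, -, h3⟩ := hU1 (U ⊓ U1) inferInstance (hUo.inter hU1o) inf_le_right
      obtain ⟨u, hu, hdeg⟩ := h3 (Fr y)
      refine ⟨x, isConj_of U hu' hb, hdeg.trans ?_⟩
      rw [← hz l]
      exact hmax u hu.1
    · intro hy
      have : Finite (Γ ⧸ U) := U.quotient_finite_of_isOpen hUo
      have : U.FiniteIndex := Subgroup.finiteIndex_of_finite_quotient
      apply hA U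
      intro u hu
      refine (hmax u hu).trans ?_
      rw [hz, hz]
      exact hy x (isConj_of U hu' hb)
  · let l0 : Λ := Classical.arbitrary Λ
    obtain ⟨U0, hU0n, hU0o, hU0⟩ := specGEN1 μ (ρ l0) (hcont l0)
    have hnc : ∀ l (b g : Γ), nEig (ρ l (b * g * b⁻¹)) = nEig (ρ l g) := by
      intro l b g
      rw [map_mul, map_mul]
      exact TA.nEig_conj _ _ _ (by rw [← map_mul, mul_inv_cancel, map_one])
        (by rw [← map_mul, inv_mul_cancel, map_one])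
    refine ⟨U0, hU0n, hU0o, ?_⟩
    intro U hUn hUo hle
    obtain ⟨hZc, hZ0⟩ := hU0 U hUn hUo hle
    have := specCHE μ N d Fr hcheb _ hZc (by
      rintro g ⟨u, hu, hg⟩ b
      refine ⟨b * u * b⁻¹, hUn.conj_mem u hu b, ?_⟩
      have e1 : b * g * b⁻¹ * (b * u * b⁻¹) = b * (g * u) * b⁻¹ := by group
      rw [e1, hnc, hnc]
      exact hg) hZ0
      {y | ∀ x, IsConj ((Fr x : Γ) : Γ ⧸ U) ((Fr y : Γ) : Γ ⧸ U) → z x ≤ z y}ᶜ (by
      intro y hy
      rw [Set.mem_compl_iff, Set.mem_ofPred_eq] at hy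
      push Not at hy
      obtain ⟨x, hxy, hlt⟩ := hy
      obtain ⟨b, u, hu, hb⟩ := exists_of_isConj U hxy
      refine ⟨u, hu, ?_⟩
      rw [← hb, hnc, hz, hz]
      exact hlt)
    rwa [compl_compl] at this

end MPb685ZO
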